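import Pool.Agent.H60.Sk.Fam

/-! A compact set `A` with `A × A` null for the `2n`-dimensional Hausdorff measure is displaced by small
diffeomorphisms that preserve a given symplectic form. -/

set_option autoImplicit false
set_option linter.unusedSectionVars false

open scoped ContDiff Topology ENNReal NNReal
open Set Metric MeasureTheory

namespace Pool.Agent.H60.Sk

open Pool.Agent.H60.Sy

theorem null_image {E F : Type} [NormedAddCommGroup E] [NormedSpace ℝ E]
    [MeasurableSpace E] [BorelSpace E] [NormedAddCommGroup F] [NormedSpace ℝ F]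
    [MeasurableSpace F] [BorelSpace F] {f : E → F} {t : Set E}
    (hf : ∀ x ∈ t, ContDiffAt ℝ 1 f x) (ht : IsCompact t) {d : ℝ} (hd : 0 ≤ d) (h0 : Measure.hausdorffMeasure d t = 0) :
    Measure.hausdorffMeasure d (f '' t) = 0 := by
  have key : Measure.hausdorffMeasure d (f '' (t ∩ t)) = 0 := by
    refine ht.induction_on (p := fun u => Measure.hausdorffMeasure d (f '' (u ∩ t)) = 0) ?_ ?_ ?_ ?_
    · simp
    · intro u v huv hv
      exact measure_mono_null (image_mono (inter_subset_inter_left _ huv)) hv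
    · intro u v hu hv
      rw [union_inter_distrib_right, image_union]
      exact measure_union_null hu hv
    · intro x hx
      obtain ⟨K, u, hu, hl⟩ := (hf x hx).exists_lipschitzOnWith
      refine ⟨u, mem_nhdsWithin_of_mem_nhds hu, ?_⟩
      have h1 := (hl.mono (inter_subset_left (s := u) (t := t))).hausdorffMeasure_image_le
        (d := d) hd
      have h2 : Measure.hausdorffMeasure d (u ∩ t) = 0 :=
        measure_mono_null inter_subset_right h0
      rw [h2, mul_zero] at h1
      exact le_antisymm h1 zero_le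
  rw [inter_self] at key
  exact key

section

variable {n : ℕ} {κ : EE n → B2 (EE n)}

theorem push (hκ : Symp κ) (a : EE n) : ∃ ρ > 0, ∀ P A : Set (EE n), P ⊆ closedBall a ρ →
    Measure.hausdorffMeasure (Module.finrank ℝ (EE n) : ℝ) (P ×ˢ A) = 0 → ∀ ε > 0,
      ∃ s : Dif (EE n), Sd κ s ∧ (∀ x, dist (s x) x ≤ ε) ∧ ∀ x ∈ P, s x ∉ A := by
  classical
  obtain ⟨ρ, hρ, r, hr, C, hC, g, h1, h2, h3⟩ := fam hκ a
  refine ⟨ρ, hρ, fun P A hP h0 ε hε => ?_⟩
  obtain ⟨T, hT⟩ : ∃ T : Set (EE n × EE n),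
      T = {z | z ∈ P ×ˢ A ∧ ∃ p, ‖p‖ < r ∧ g p z.1 = z.2} := ⟨_, rfl⟩
  have hTm : ∀ z, z ∈ T → ∃ p, ‖p‖ < r ∧ g p z.1 = z.2 := by
    intro z hz
    rw [hT] at hz
    exact hz.2
  have hTP : T ⊆ P ×ˢ A := by
    rw [hT]
    exact fun z hz => hz.1
  choose! f hf1 hf2 using hTm
  have hl : LipschitzOnWith 6 f T := by
    refine LipschitzOnWith.of_dist_le_mul fun z hz w hw => ?_
    have e := h3 (f z) (f w) (hf1 z hz) (hf1 w hw) z.1 (hP (hTP hz).1) w.1 (hP (hTP hw).1)
    rw [hf2 z hz, hf2 w hw] at e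
    rw [dist_eq_norm, dist_eq_norm]
    have e1 : ‖z.1 - w.1‖ ≤ ‖z - w‖ := norm_fst_le (z - w)
    have e2 : ‖z.2 - w.2‖ ≤ ‖z - w‖ := norm_snd_le (z - w)
    have e3 : ((6 : ℝ≥0) : ℝ) = 6 := rfl
    rw [e3]
    linarith
  have hB : Measure.hausdorffMeasure (Module.finrank ℝ (EE n) : ℝ) (f '' T) = 0 := by
    have e1 := hl.hausdorffMeasure_image_le (d := (Module.finrank ℝ (EE n) : ℝ))
      (Nat.cast_nonneg _)
    have e2 : Measure.hausdorffMeasure (Module.finrank ℝ (EE n) : ℝ) T = 0 :=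
      measure_mono_null hTP h0
    rw [e2, mul_zero] at e1
    exact le_antisymm e1 zero_le
  have hdense : Dense (f '' T)ᶜ := by
    have h3 : ∀ᵐ x ∂(Measure.hausdorffMeasure (Module.finrank ℝ (EE n) : ℝ) : Measure (EE n)),
        x ∈ (f '' T)ᶜ := by
      rw [ae_iff]
      have e : {x | ¬ x ∈ (f '' T)ᶜ} = f '' T := by
        ext x; simp
      rw [e]
      exact hB
    exact Measure.dense_of_ae h3
  obtain ⟨p, hp, hpB⟩ : ∃ p ∈ ball (0 : EE n) (min r (ε / C)), p ∈ (f '' T)ᶜ := by
    obtain ⟨p, hp1, hp2⟩ := hdense.inter_open_nonempty (ball 0 (min r (ε / C))) isOpen_ball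
      ⟨0, mem_ball_self (lt_min hr (by positivity))⟩
    exact ⟨p, hp1, hp2⟩
  rw [mem_ball_zero_iff] at hp
  have hpr : ‖p‖ < r := hp.trans_le (min_le_left _ _)
  have hpε : C * ‖p‖ ≤ ε := by
    have e := (hp.trans_le (min_le_right _ _)).le
    calc C * ‖p‖ ≤ C * (ε / C) := by gcongr
      _ = ε := by field_simp
  refine ⟨g p, h1 p hpr, fun x => ?_, fun x hx hxA => ?_⟩
  · rw [dist_eq_norm]
    exact (h2 p hpr x).trans hpε
  · have hz : ((x, g p x) : EE n × EE n) ∈ T := by
      rw [hT]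
      exact ⟨⟨hx, hxA⟩, p, hpr, rfl⟩
    apply hpB
    refine ⟨(x, g p x), hz, ?_⟩
    have e := h3 p (f (x, g p x)) hpr (hf1 _ hz) x (hP hx) x (hP hx)
    have e2 : g (f (x, g p x)) x = g p x := hf2 _ hz
    rw [e2, sub_self, sub_self, norm_zero, mul_zero, mul_zero, add_zero] at e
    have e3 := norm_le_zero_iff.1 e
    rw [sub_eq_zero] at e3
    exact e3.symm

/-- Two compact sets whose products near their common points are null are made disjoint. -/
theorem displace (hκ : Symp κ) {A B : Set (EE n)} (hA : IsCompact A) (hB : IsCompact B)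
    (h0 : ∀ z, z ∈ A → z ∈ B → ∃ N ∈ 𝓝 z,
      Measure.hausdorffMeasure (Module.finrank ℝ (EE n) : ℝ) ((N ∩ B) ×ˢ (N ∩ A)) = 0) :
    ∃ s : Dif (EE n), Sd κ s ∧ ∀ x ∈ B, s x ∉ A := by
  classical
  have hpush := push hκ
  choose ρ hρ hpush using hpush
  have hN : ∀ z, ∃ e > 0, 3 * e ≤ ρ z ∧ (z ∈ A → z ∈ B →
      Measure.hausdorffMeasure (Module.finrank ℝ (EE n) : ℝ)
        ((closedBall z (3 * e) ∩ B) ×ˢ (closedBall z (3 * e) ∩ A)) = 0) := by
    intro z
    by_cases hz : z ∈ A ∧ z ∈ B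
    · obtain ⟨N, hN, h0'⟩ := h0 z hz.1 hz.2
      obtain ⟨ε, hε, hεN⟩ := Metric.mem_nhds_iff.1 hN
      refine ⟨min (ρ z) (ε / 2) / 3, by have := hρ z; positivity, by
        have := min_le_left (ρ z) (ε / 2)
        linarith, fun _ _ => ?_⟩
      have hsub : closedBall z (3 * (min (ρ z) (ε / 2) / 3)) ⊆ N := by
        refine Subset.trans (closedBall_subset_ball ?_) hεN
        have := min_le_right (ρ z) (ε / 2)
        linarith
      exact measure_mono_null (prod_mono (inter_subset_inter_left _ hsub)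
        (inter_subset_inter_left _ hsub)) h0'
    · refine ⟨ρ z / 3, by have := hρ z; positivity, by linarith, fun h1 h2 => absurd ⟨h1, h2⟩ hz⟩
  choose e he he1 he2 using hN
  obtain ⟨P, hP⟩ : ∃ P : EE n → Set (EE n), ∀ a, P a = closedBall a (e a) ∩ B := ⟨_, fun _ => rfl⟩
  have hPc : ∀ a, IsCompact (P a) := fun a => by
    rw [hP]; exact (isCompact_closedBall _ _).inter hB
  obtain ⟨t, htA, hcov⟩ := (hA.inter hB).elim_nhds_subcover (fun a => ball a (e a))
    (fun a _ => ball_mem_nhds a (he a))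
  obtain ⟨P', hP'⟩ : ∃ P' : Set (EE n), P' = B \ ⋃ a ∈ t, ball a (e a) := ⟨_, rfl⟩
  have hP'c : IsCompact P' := by
    rw [hP']
    exact hB.diff (isOpen_biUnion fun a _ => isOpen_ball)
  have hP'A : ∀ x ∈ P', x ∉ A := by
    intro x hx hxA
    rw [hP'] at hx
    exact hx.2 (hcov ⟨hxA, hx.1⟩)
  have key : ∀ F : Finset (EE n), F ⊆ t → ∀ ε > 0, ∃ h : Dif (EE n), Sd κ h ∧
      (∀ x, dist (h x) x ≤ ε) ∧ (∀ x ∈ P', h x ∉ A) ∧ ∀ b ∈ F, ∀ x ∈ P b, h x ∉ A := by
    intro F
    induction F using Finset.induction_on with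
    | empty =>
      intro _ ε hε
      refine ⟨Dif.refl _, Sd.refl κ, fun x => ?_, fun x hx => hP'A x hx,
        fun b hb => absurd hb (Finset.notMem_empty b)⟩
      rw [Dif.refl_apply, dist_self]
      exact hε.le
    | insert a F _ ih =>
      intro hFt ε hε
      have hat : a ∈ A ∩ B := htA a (hFt (Finset.mem_insert_self _ _))
      have hea := he a
      obtain ⟨h, hh1, hh2, hh4, hh3⟩ := ih ((Finset.subset_insert _ _).trans hFt)
        (min (ε / 2) (e a)) (lt_min (half_pos hε) hea)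
      obtain ⟨K, hKdef⟩ : ∃ K : Set (EE n), K = h '' P' ∪ ⋃ b ∈ F, h '' P b := ⟨_, rfl⟩
      have hK : IsCompact K := by
        rw [hKdef]
        exact (hP'c.image h.continuous).union
          (F.finite_toSet.isCompact_biUnion fun b _ => (hPc b).image h.continuous)
      have hKA : A ⊆ Kᶜ := by
        intro y hy hyK
        rw [hKdef] at hyK
        rcases hyK with ⟨x, hx, hxy⟩ | hyK
        · exact hh4 x hx (hxy ▸ hy)
        · obtain ⟨b, hb, x, hx, hxy⟩ := mem_iUnion₂.1 hyK
          exact hh3 b hb x hx (hxy ▸ hy)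
      obtain ⟨η, hη, hηK⟩ := hA.exists_thickening_subset_open hK.isClosed.isOpen_compl hKA
      have hPh : h '' P a ⊆ closedBall a (2 * e a) := by
        rintro _ ⟨x, hx, rfl⟩
        rw [hP] at hx
        have e1 := mem_closedBall.1 hx.1
        have e2 := (hh2 x).trans (min_le_right _ _)
        have e3 := dist_triangle (h x) x a
        rw [mem_closedBall]
        linarith
      obtain ⟨A', hA'⟩ : ∃ A' : Set (EE n), A' = closedBall a (3 * e a) ∩ A := ⟨_, rfl⟩
      have hA'c : IsCompact A' := by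
        rw [hA']; exact (isCompact_closedBall _ _).inter hA
      have hnull : Measure.hausdorffMeasure (Module.finrank ℝ (EE n) : ℝ) ((h '' P a) ×ˢ A') = 0 := by
        have e1 : (h '' P a) ×ˢ A' = (fun z : EE n × EE n => (h z.1, z.2)) '' (P a ×ˢ A') := by
          ext z
          constructor
          · rintro ⟨⟨x, hx, hxz⟩, hz⟩
            exact ⟨(x, z.2), ⟨hx, hz⟩, Prod.ext hxz rfl⟩
          · rintro ⟨w, ⟨hw1, hw2⟩, rfl⟩
            exact ⟨⟨w.1, hw1, rfl⟩, hw2⟩
        rw [e1]
        have e2 : ContDiff ℝ 1 (fun z : EE n × EE n => (h z.1, z.2)) :=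
          ((h.sm.comp contDiff_fst).prodMk contDiff_snd).of_le (by simp)
        refine null_image (fun _ _ => e2.contDiffAt) ((hPc a).prod hA'c) (Nat.cast_nonneg _)
          (measure_mono_null (prod_mono ?_ ?_) (he2 a hat.1 hat.2))
        · rw [hP]
          exact inter_subset_inter_left _ (closedBall_subset_closedBall (by linarith))
        · rw [hA']
      obtain ⟨s, hs1, hs2, hs3⟩ := hpush a (h '' P a) A'
        (hPh.trans (closedBall_subset_closedBall (by linarith [he1 a]))) hnull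
        (min (min (ε / 2) (η / 2)) (e a))
        (lt_min (lt_min (half_pos hε) (half_pos hη)) hea)
      have hfar : ∀ x, h x ∈ K → s (h x) ∉ A := by
        intro x hx hxA
        have e1 := (hs2 (h x)).trans ((min_le_left _ _).trans (min_le_right _ _))
        have e2 : h x ∈ thickening η A := by
          refine mem_thickening_iff.2 ⟨s (h x), hxA, ?_⟩
          rw [dist_comm]
          linarith
        exact hηK e2 hx
      refine ⟨h.trans s, hh1.trans hs1, fun x => ?_, fun x hx => ?_, fun b hb x hx hxA => ?_⟩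
      · rw [Dif.trans_apply]
        have e1 := (hs2 (h x)).trans ((min_le_left _ _).trans (min_le_left _ _))
        have e2 := (hh2 x).trans (min_le_left _ _)
        have e3 := dist_triangle (s (h x)) (h x) x
        linarith
      · rw [Dif.trans_apply]
        exact hfar x (by rw [hKdef]; exact Or.inl ⟨x, hx, rfl⟩)
      · rw [Dif.trans_apply] at hxA
        rcases Finset.mem_insert.1 hb with rfl | hb
        · refine hs3 _ ⟨x, hx, rfl⟩ ?_
          rw [hA']
          refine ⟨?_, hxA⟩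
          have e1 := (hs2 (h x)).trans (min_le_right _ _)
          have e2 := mem_closedBall.1 (hPh ⟨x, hx, rfl⟩)
          have e3 := dist_triangle (s (h x)) (h x) b
          rw [mem_closedBall]
          linarith
        · exact hfar x (by rw [hKdef]; exact Or.inr (mem_iUnion₂.2 ⟨b, hb, x, hx, rfl⟩)) hxA
  obtain ⟨h, h1, _, h4, h3⟩ := key t Subset.rfl 1 one_pos
  refine ⟨h, h1, fun x hx => ?_⟩
  by_cases hxt : x ∈ ⋃ a ∈ t, ball a (e a)
  · obtain ⟨b, hb, hxb⟩ := mem_iUnion₂.1 hxt
    exact h3 b hb x (by rw [hP]; exact ⟨ball_subset_closedBall hxb, hx⟩)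
  · exact h4 x (by rw [hP']; exact ⟨hx, hxt⟩)

end

end Pool.Agent.H60.Sk
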