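import Pool.Agent.H60.Sy.Flow

/-! Dynamics of a field on a compact domain which it does not leave: iterates of the time-one map bring
the domain into any neighbourhood of the set of points with a complete orbit in the domain. -/

set_option autoImplicit false
set_option linter.unusedSectionVars false

open scoped ContDiff Topology unitInterval
open Set Metric

namespace Pool.Agent.H60.Sk

open Pool.Agent.H60.Sy

variable {F : Type} [NormedAddCommGroup F] [NormedSpace ℝ F] [CompleteSpace F]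

section

variable {V : F → F} (hV : ContDiff ℝ ∞ V) (hb : ∀ x, ‖fderiv ℝ V x‖ ≤ 1 / 2)

/-- A complete orbit through a point whose whole discrete orbit stays in a set. -/
theorem orbit {B : Set F} (a : F)
    (ha : ∀ k : ℤ, ((flow1 V hV hb).eqv ^ k : Equiv.Perm F) a ∈ B) :
    ∃ γ : ℝ → F, γ 0 = a ∧ (∀ t, HasDerivAt γ (V (γ t)) t) ∧
      ∀ t, ∃ x ∈ B, ∃ s ∈ Icc (0:ℝ) 1, γ t = yy V hV hb x s := by
  obtain ⟨p, hp⟩ : ∃ p : ℤ → F, ∀ k, p k = ((flow1 V hV hb).eqv ^ k : Equiv.Perm F) a :=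
    ⟨_, fun _ => rfl⟩
  have hps : ∀ k, p (k + 1) = flow1 V hV hb (p k) := by
    intro k
    rw [hp, hp, add_comm, zpow_add, zpow_one]
    rfl
  obtain ⟨γ, hγ⟩ : ∃ γ : ℝ → F, ∀ t, γ t = yy V hV hb (p ⌊t⌋) (t - ⌊t⌋) := ⟨_, fun _ => rfl⟩
  have hγI : ∀ (k : ℤ), ∀ t ∈ Icc (k : ℝ) (k + 1), γ t = yy V hV hb (p k) (t - k) := by
    intro k t ht
    rcases lt_or_eq_of_le ht.2 with h | h
    · have e : ⌊t⌋ = k := Int.floor_eq_iff.2 ⟨ht.1, h⟩
      rw [hγ, e]
    · have e : ⌊t⌋ = k + 1 := by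
        rw [h]
        exact_mod_cast Int.floor_intCast (k + 1)
      rw [hγ, e, hps, h]
      push_cast
      rw [sub_self, yy_zero, flow1_apply, add_sub_cancel_left]
  have hdI : ∀ (k : ℤ), ∀ t ∈ Icc (k : ℝ) (k + 1),
      HasDerivWithinAt γ (V (γ t)) (Icc (k : ℝ) (k + 1)) t := by
    intro k t ht
    have h1 := hasDerivAt_yy V hV hb (s := t - k) ⟨by linarith [ht.1], by linarith [ht.2]⟩ (p k)
    have h2 : HasDerivAt (fun s : ℝ => s - k) 1 t := (hasDerivAt_id t).sub_const _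
    have h3 := HasDerivAt.scomp t h1 h2
    rw [one_smul] at h3
    rw [hγI k t ht]
    exact h3.hasDerivWithinAt.congr (fun s hs => hγI k s hs) (hγI k t ht)
  refine ⟨γ, ?_, ?_, ?_⟩
  · rw [hγ]
    simp [yy_zero, hp]
  · intro t
    have ht0 : ((⌊t⌋ : ℤ) : ℝ) ≤ t := Int.floor_le t
    have ht1 : t < (⌊t⌋ : ℤ) + 1 := Int.lt_floor_add_one t
    have h1 := hdI ⌊t⌋ t ⟨ht0, ht1.le⟩
    rcases lt_or_eq_of_le ht0 with h | h
    · exact h1.hasDerivAt (Icc_mem_nhds h ht1)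
    · have h2 := hdI (⌊t⌋ - 1) t ⟨by push_cast; linarith, by push_cast; linarith⟩
      have h3 := h2.union h1
      refine h3.hasDerivAt ?_
      have h4 : Icc ((⌊t⌋ : ℝ) - 1) (⌊t⌋ + 1) ⊆
          Icc (((⌊t⌋ - 1 : ℤ)) : ℝ) ((((⌊t⌋ - 1 : ℤ)) : ℝ) + 1) ∪ Icc (⌊t⌋ : ℝ) (⌊t⌋ + 1) := by
        intro s hs
        rcases le_total s ⌊t⌋ with h5 | h5
        · left
          push_cast
          exact ⟨hs.1, by linarith⟩
        · right
          exact ⟨h5, hs.2⟩
      exact Filter.mem_of_superset (Icc_mem_nhds (by linarith) (by linarith)) h4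
  · intro t
    exact ⟨p ⌊t⌋, by rw [hp]; exact ha _, t - ⌊t⌋, ⟨by linarith [Int.floor_le t],
      by linarith [Int.lt_floor_add_one t]⟩, hγ t⟩

end

section

variable {V : F → F} (hV : ContDiff ℝ ∞ V) (hb : ∀ x, ‖fderiv ℝ V x‖ ≤ 1 / 2)

/-- Trajectories do not leave a sublevel set along whose boundary the field points inwards. -/
theorem stay {H : F → ℝ} (hH : ContDiff ℝ ∞ H) {c : ℝ}
    (hin : ∀ x, H x = c → fderiv ℝ H x (V x) < 0) {x : F} (hx : H x ≤ c) :
    ∀ s ∈ Icc (0:ℝ) 1, H (yy V hV hb x s) ≤ c := by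
  have hd : ∀ s ∈ Icc (0:ℝ) 1, HasDerivAt (fun s => H (yy V hV hb x s))
      (fderiv ℝ H (yy V hV hb x s) (V (yy V hV hb x s))) s := by
    intro s hs
    have h1 : HasFDerivAt H (fderiv ℝ H (yy V hV hb x s)) (yy V hV hb x s) :=
      (hH.differentiable (by simp) _).hasFDerivAt
    exact h1.comp_hasDerivAt s (hasDerivAt_yy V hV hb hs x)
  intro s hs
  exact image_le_of_deriv_right_lt_deriv_boundary' (a := 0) (b := 1)
    (f := fun s => H (yy V hV hb x s)) (B := fun _ => c) (B' := fun _ => 0)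
    (fun s hs => (hd s hs).continuousAt.continuousWithinAt)
    (fun s hs => (hd s ⟨hs.1, hs.2.le⟩).hasDerivWithinAt)
    (by simpa [yy_zero] using hx) continuousOn_const
    (fun s _ => hasDerivWithinAt_const _ _ _) (fun s _ h => hin _ h) hs

/-- A compact set of points with a complete orbit in the domain that attracts the domain. -/
theorem attractor {D : Set F} (hD : IsCompact D)
    (hst : ∀ x ∈ D, ∀ s ∈ Icc (0:ℝ) 1, yy V hV hb x s ∈ D) : ∃ A : Set F, IsCompact A ∧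
    (∀ a ∈ A, ∃ γ : ℝ → F, γ 0 = a ∧ (∀ t, HasDerivAt γ (V (γ t)) t) ∧ ∀ t, γ t ∈ D) ∧
    ∀ U : Set F, IsOpen U → A ⊆ U → ∃ N : ℕ, ∀ x ∈ D, (flow1 V hV hb)^[N] x ∈ U := by
  obtain ⟨f, hf⟩ : ∃ f : Dif F, f = flow1 V hV hb := ⟨_, rfl⟩
  have hfB : ∀ x ∈ D, f x ∈ D := by
    intro x hx
    rw [hf, flow1_apply]
    exact hst x hx 1 ⟨zero_le_one, le_rfl⟩
  have hfB' : ∀ N : ℕ, ∀ x ∈ D, f^[N] x ∈ D := by
    intro N
    induction N with
    | zero => exact fun x hx => hx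
    | succ N ih =>
      intro x hx
      rw [Function.iterate_succ_apply]
      exact ih _ (hfB x hx)
  have hanti : Antitone fun N : ℕ => f^[N] '' D := by
    refine antitone_nat_of_succ_le fun N => ?_
    rintro _ ⟨x, hx, rfl⟩
    exact ⟨f x, hfB x hx, by rw [Function.iterate_succ_apply]⟩
  have hcN : ∀ N : ℕ, IsCompact (f^[N] '' D) := fun N => hD.image (f.continuous.iterate N)
  refine ⟨⋂ N : ℕ, f^[N] '' D, ?_, ?_, ?_⟩
  · refine (hcN 0).of_isClosed_subset (isClosed_iInter fun N => (hcN N).isClosed) ?_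
    exact iInter_subset _ 0
  · intro a ha
    rw [mem_iInter] at ha
    have hpow : ∀ (m : ℕ) (x : F), (f.eqv ^ m : Equiv.Perm F) x = f^[m] x := by
      intro m x
      rw [Equiv.Perm.coe_pow]
    obtain ⟨γ, h1, h2, h3⟩ := orbit hV hb (B := D) a (by
      rw [← hf]
      intro k
      obtain ⟨m, rfl | rfl⟩ := k.eq_nat_or_neg
      · rw [zpow_natCast, hpow]
        refine hfB' m a ?_
        obtain ⟨b, hb', rfl⟩ := ha 0
        exact hb'
      · obtain ⟨b, hb', hba⟩ := ha m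
        rw [zpow_neg, zpow_natCast]
        have : ((f.eqv ^ m : Equiv.Perm F)⁻¹) a = b := by
          rw [Equiv.Perm.inv_eq_iff_eq, hpow, hba]
        rw [this]
        exact hb')
    refine ⟨γ, h1, h2, fun t => ?_⟩
    obtain ⟨x, hx, s, hs, hxs⟩ := h3 t
    rw [hxs]
    exact hst x hx s hs
  · intro U hU hAU
    obtain ⟨N, hN⟩ := exists_subset_nhds_of_isCompact' (V := fun N : ℕ => f^[N] '' D)
      (directed_of_isDirected_le fun i j h => hanti h) hcN (fun N => (hcN N).isClosed) (U := U)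
      (fun a ha => hU.mem_nhds (hAU ha))
    refine ⟨N, fun x hx => hN ?_⟩
    rw [← hf]
    exact ⟨x, hx, rfl⟩

end

end Pool.Agent.H60.Sk
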