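import Pool.Agent.H60.Sk.Pert

/-! General position: a symplectic immersion near a compact set `Z` whose double points on `Z` are locally
small can be made injective on `Z`. -/

set_option autoImplicit false
set_option linter.unusedSectionVars false

open scoped ContDiff Topology
open Set Metric

namespace Pool.Agent.H60.Sk

open Pool.Agent.H60.Sy

/-- The double points of `φ` on `Z` are locally null in `Z × Z` for the `2n`-dimensional Hausdorff
measure. -/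
def SmallDbl {n : ℕ} (φ : EE n → EE n) (Z : Set (EE n)) : Prop :=
  ∀ x ∈ Z, ∀ y ∈ Z, x ≠ y → φ x = φ y → ∃ W ∈ 𝓝 ((x, y) : EE n × EE n),
    MeasureTheory.Measure.hausdorffMeasure (Module.finrank ℝ (EE n) : ℝ) (W ∩ Z ×ˢ Z) = 0

theorem SmallDbl.mono {n : ℕ} {φ : EE n → EE n} {Z Z' : Set (EE n)} (h : SmallDbl φ Z)
    (hZ : Z' ⊆ Z) : SmallDbl φ Z' := by
  intro x hx y hy hne he
  obtain ⟨W, hW, h0⟩ := h x (hZ hx) y (hZ hy) hne he
  exact ⟨W, hW, MeasureTheory.measure_mono_null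
    (inter_subset_inter_right _ (prod_mono hZ hZ)) h0⟩

theorem general_position {n : ℕ} {κ : EE n → B2 (EE n)} (hκ : ∀ x, Nondeg (κ x)) {U : Set (EE n)}
    {φ : EE n → EE n} (hI : Im κ U φ) {Z : Set (EE n)} (hZ : IsCompact Z) (hZU : Z ⊆ U)
    (hdbl : SmallDbl φ Z) :
    ∃ φ' : EE n → EE n, Im κ U φ' ∧ InjOn φ' Z := by
  classical
  have hΔ : IsCompact ((fun x : EE n => (x, x)) '' Z) :=
    hZ.image (continuous_id.prodMk continuous_id)
  have hΔG : (fun x : EE n => (x, x)) '' Z ⊆ Gd φ := by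
    rintro _ ⟨x, hx, rfl⟩
    exact gd_diag hI hκ (hZU hx)
  obtain ⟨ε₁, hε₁, h1⟩ := hΔ.exists_thickening_subset_open isOpen_interior hΔG
  obtain ⟨ε₂, hε₂, h2⟩ := hZ.exists_thickening_subset_open hI.op hZU
  -- every pair has a neighbourhood that is good or null
  have hloc : ∀ q : EE n × EE n, q ∈ Z ×ˢ Z → ∃ W : Set (EE n × EE n), IsOpen W ∧ q ∈ W ∧
      (W ⊆ Gd φ ∨ MeasureTheory.Measure.hausdorffMeasure (Module.finrank ℝ (EE n) : ℝ)
        (W ∩ Z ×ˢ Z) = 0) := by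
    rintro ⟨x, y⟩ ⟨hx, hy⟩
    by_cases hne : x = y
    · refine ⟨Gd φ, isOpen_interior, ?_, Or.inl Subset.rfl⟩
      rw [← hne]
      exact gd_diag hI hκ (hZU hx)
    · by_cases he : φ x = φ y
      · obtain ⟨W, hW, h0⟩ := hdbl x hx y hy hne he
        obtain ⟨W', hW', hWo, hxy⟩ := _root_.mem_nhds_iff.1 hW
        exact ⟨W', hWo, hxy, Or.inr (MeasureTheory.measure_mono_null
          (inter_subset_inter_left _ hW') h0)⟩
      · exact ⟨Gd φ, isOpen_interior, gd_ne (hI.continuousAt (hZU hx))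
          (hI.continuousAt (hZU hy)) he, Or.inl Subset.rfl⟩
  choose! W hWo hWm hWp using hloc
  obtain ⟨ε₃, hε₃, h3⟩ := lebesgue_number_lemma_of_metric (hZ.prod hZ)
    (c := fun q : (Z ×ˢ Z : Set (EE n × EE n)) => W q) (fun q => hWo q.1 q.2)
    (fun q hq => mem_iUnion.2 ⟨⟨q, hq⟩, hWm q hq⟩)
  obtain ⟨δ, hδdef⟩ : ∃ δ : ℝ, δ = min (min ε₁ ε₂) ε₃ / 8 := ⟨_, rfl⟩
  have hδ : 0 < δ := by rw [hδdef]; positivity
  have hδ1 : 4 * δ < ε₁ := by
    have e1 := min_le_left ε₁ ε₂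
    have e2 := min_le_left (min ε₁ ε₂) ε₃
    rw [hδdef]; linarith
  have hδ2 : 4 * δ < ε₂ := by
    have e1 := min_le_right ε₁ ε₂
    have e2 := min_le_left (min ε₁ ε₂) ε₃
    rw [hδdef]; linarith
  have hδ3 : δ < ε₃ := by
    have e2 := min_le_right (min ε₁ ε₂) ε₃
    rw [hδdef]; linarith
  have c1 : ∀ x ∈ Z, closedBall x (4 * δ) ×ˢ closedBall x (4 * δ) ⊆ Gd φ := by
    rintro x hx ⟨y, z⟩ ⟨hy, hz⟩
    refine h1 (mem_thickening_iff.2 ⟨(x, x), ⟨x, hx, rfl⟩, ?_⟩)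
    rw [Prod.dist_eq]
    exact max_lt ((mem_closedBall.1 hy).trans_lt hδ1) ((mem_closedBall.1 hz).trans_lt hδ1)
  have c2 : ∀ x ∈ Z, closedBall x (4 * δ) ⊆ U := by
    intro x hx y hy
    exact h2 (mem_thickening_iff.2 ⟨x, hx, (mem_closedBall.1 hy).trans_lt hδ2⟩)
  obtain ⟨t, htZ, htf, htc⟩ := hZ.finite_cover_balls hδ
  obtain ⟨P, hP⟩ : ∃ P : EE n → Set (EE n), ∀ a, P a = closedBall a δ ∩ Z := ⟨_, fun _ => rfl⟩
  have hPc : ∀ a, IsCompact (P a) := fun a => by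
    rw [hP]; exact (isCompact_closedBall _ _).inter hZ
  have hPb : ∀ a, P a ⊆ closedBall a δ := fun a => by rw [hP]; exact inter_subset_left
  have hPZ : ∀ a, P a ⊆ Z := fun a => by rw [hP]; exact inter_subset_right
  have hPP : ∀ a ∈ t, ∀ b ∈ t, P a ×ˢ P b ⊆ Gd φ ∨
      MeasureTheory.Measure.hausdorffMeasure (Module.finrank ℝ (EE n) : ℝ) (P a ×ˢ P b) = 0 := by
    intro a ha b hb
    obtain ⟨q, hq⟩ := h3 (a, b) ⟨htZ ha, htZ hb⟩
    have hsub : P a ×ˢ P b ⊆ W q := by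
      rintro ⟨x, y⟩ ⟨hx, hy⟩
      refine hq ?_
      rw [mem_ball, Prod.dist_eq]
      exact max_lt ((mem_closedBall.1 (hPb a hx)).trans_lt hδ3)
        ((mem_closedBall.1 (hPb b hy)).trans_lt hδ3)
    rcases hWp q.1 q.2 with h | h
    · exact Or.inl (hsub.trans h)
    · exact Or.inr (MeasureTheory.measure_mono_null
        (subset_inter hsub (prod_mono (hPZ a) (hPZ b))) h)
  obtain ⟨tf, htf'⟩ : ∃ tf : Finset (EE n), tf = htf.toFinset := ⟨_, rfl⟩
  have htm : ∀ a, a ∈ tf ↔ a ∈ t := fun a => by rw [htf', Set.Finite.mem_toFinset]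
  obtain ⟨G₀, hG₀⟩ : ∃ G₀ : Finset (EE n × EE n),
      G₀ = (tf ×ˢ tf).filter fun q => P q.1 ×ˢ P q.2 ⊆ Gd φ := ⟨_, rfl⟩
  obtain ⟨Q₀, hQ₀⟩ : ∃ Q₀ : Set (EE n × EE n),
      Q₀ = (⋃ a ∈ t, closedBall a (4 * δ) ×ˢ closedBall a (4 * δ)) ∪
        ⋃ q ∈ G₀, P q.1 ×ˢ P q.2 := ⟨_, rfl⟩
  have hQ₀c : IsCompact Q₀ := by
    rw [hQ₀]
    exact (htf.isCompact_biUnion fun a _ =>
      (isCompact_closedBall _ _).prod (isCompact_closedBall _ _)).union
      (G₀.finite_toSet.isCompact_biUnion fun q _ => (hPc _).prod (hPc _))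
  have hQ₀a : ∀ a ∈ t, closedBall a (4 * δ) ×ˢ closedBall a (4 * δ) ⊆ Q₀ := by
    intro a ha
    rw [hQ₀]
    exact (subset_biUnion_of_mem
      (u := fun a => closedBall a (4 * δ) ×ˢ closedBall a (4 * δ)) ha).trans subset_union_left
  have hQ₀p : ∀ a ∈ t, ∀ b ∈ t, P a ×ˢ P b ⊆ Gd φ → P a ×ˢ P b ⊆ Q₀ := by
    intro a ha b hb hab
    rw [hQ₀]
    refine Subset.trans ?_ subset_union_right
    have hm : (a, b) ∈ G₀ := by
      rw [hG₀, Finset.mem_filter, Finset.mem_product, htm, htm]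
      exact ⟨⟨ha, hb⟩, hab⟩
    exact fun z hz => mem_iUnion₂.2 ⟨(a, b), hm, hz⟩
  have hQ₀G : Q₀ ⊆ Gd φ := by
    rw [hQ₀]
    refine union_subset (iUnion₂_subset fun a ha => c1 a (htZ ha)) (iUnion₂_subset fun q hq => ?_)
    rw [hG₀, Finset.mem_filter] at hq
    exact hq.2
  have key : ∀ F : Finset (EE n × EE n), (∀ q ∈ F, q.1 ∈ t ∧ q.2 ∈ t ∧ 3 * δ < dist q.1 q.2 ∧
      MeasureTheory.Measure.hausdorffMeasure (Module.finrank ℝ (EE n) : ℝ)
        (P q.1 ×ˢ P q.2) = 0) →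
      ∃ φ' : EE n → EE n, Im κ U φ' ∧ Q₀ ∪ (⋃ q ∈ F, P q.1 ×ˢ P q.2) ⊆ Gd φ' := by
    intro F
    induction F using Finset.induction_on with
    | empty =>
      intro _
      refine ⟨φ, hI, ?_⟩
      simpa using hQ₀G
    | insert q F _ ih =>
      intro hF
      obtain ⟨φ₁, hI₁, hG₁⟩ := ih fun q' hq' => hF q' (Finset.mem_insert_of_mem hq')
      obtain ⟨hq1, hq2, hq3, hq4⟩ := hF q (Finset.mem_insert_self _ _)
      have hQc : IsCompact (Q₀ ∪ (⋃ q ∈ F, P q.1 ×ˢ P q.2)) :=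
        hQ₀c.union (F.finite_toSet.isCompact_biUnion fun q _ => (hPc _).prod (hPc _))
      have hs4 : closedBall q.1 (2 * δ) ⊆ closedBall q.1 (4 * δ) :=
        closedBall_subset_closedBall (by linarith)
      have hs1 : closedBall q.2 δ ⊆ closedBall q.2 (4 * δ) :=
        closedBall_subset_closedBall (by linarith)
      obtain ⟨φ₂, hI₂, hG₂⟩ := pert hκ hI₁ (a := q.1) (b := q.2) (ρ := 2 * δ) (r := δ)
        (P := P q.1) (T := P q.2)
        (hs4.trans (c2 _ (htZ hq1)))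
        ((prod_mono hs4 hs4).trans ((hQ₀a _ hq1).trans (subset_union_left.trans hG₁)))
        (hPc q.1) (hPc q.2) ((hPb q.1).trans (closedBall_subset_ball (by linarith)))
        (by
          rw [Set.disjoint_left]
          intro y hy hy'
          have e1 := mem_closedBall.1 (hPb _ hy)
          have e2 := mem_closedBall.1 hy'
          have e3 := dist_triangle_left q.1 q.2 y
          linarith)
        (hPb q.2)
        (hs1.trans (c2 _ (htZ hq2)))
        hq4 hQc hG₁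
      refine ⟨φ₂, hI₂, ?_⟩
      rintro z (hz | hz)
      · exact hG₂ (Or.inl (Or.inl hz))
      · rw [Finset.set_biUnion_insert] at hz
        rcases hz with hz | hz
        · exact hG₂ (Or.inr hz)
        · exact hG₂ (Or.inl (Or.inr hz))
  obtain ⟨φ', hI', hG'⟩ := key ((tf ×ˢ tf).filter
    fun q => 3 * δ < dist q.1 q.2 ∧ MeasureTheory.Measure.hausdorffMeasure
      (Module.finrank ℝ (EE n) : ℝ) (P q.1 ×ˢ P q.2) = 0) (by
      intro q hq
      rw [Finset.mem_filter, Finset.mem_product, htm, htm] at hq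
      exact ⟨hq.1.1, hq.1.2, hq.2.1, hq.2.2⟩)
  refine ⟨φ', hI', fun x hx y hy hxy => ?_⟩
  have hmem : (x, y) ∈ Gd φ' := by
    obtain ⟨a, ha, hxa⟩ := mem_iUnion₂.1 (htc hx)
    obtain ⟨b, hb, hyb⟩ := mem_iUnion₂.1 (htc hy)
    have hxa' := mem_ball.1 hxa
    have hyb' := mem_ball.1 hyb
    have hxP : x ∈ P a := by
      rw [hP]
      exact ⟨mem_closedBall.2 hxa'.le, hx⟩
    have hyP : y ∈ P b := by
      rw [hP]
      exact ⟨mem_closedBall.2 hyb'.le, hy⟩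
    by_cases hab : 3 * δ < dist a b
    · rcases hPP a ha b hb with h | h
      · exact hG' (Or.inl (hQ₀p a ha b hb h ⟨hxP, hyP⟩))
      · refine hG' (Or.inr (mem_iUnion₂.2 ⟨(a, b), ?_, hxP, hyP⟩))
        rw [Finset.mem_filter, Finset.mem_product, htm, htm]
        exact ⟨⟨ha, hb⟩, hab, h⟩
    · push Not at hab
      refine hG' (Or.inl (hQ₀a a ha ⟨?_, ?_⟩))
      · exact mem_closedBall.2 (by linarith)
      · have e3 := dist_triangle y b a
        rw [dist_comm b a] at e3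
        exact mem_closedBall.2 (by linarith)
  have h0 : ((x, y) : EE n × EE n) ∈ {q : EE n × EE n | φ' q.1 = φ' q.2 → q.1 = q.2} :=
    interior_subset hmem
  exact h0 hxy

end Pool.Agent.H60.Sk
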