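import Pool.Agent.H60.Sk.Lie
import Pool.Agent.H60.Sk.Dyn
import Pool.Agent.H60.Sk.Pos
import Pool.Agent.H60.Sy.Cpl

/-! If near the skeleton of a Liouville form there is a symplectic immersion in the standard space whose
double points on the skeleton are locally small, then neighbourhoods of all compact sets embed;
existence of Liouville forms. -/

set_option autoImplicit false
set_option linter.unusedSectionVars false

open scoped ContDiff Topology
open Set Metric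

namespace Pool.Agent.H60.Sk

open Pool.Agent.H60.Sy

/-- Bounded complete Liouville lines through `a`. -/
def Bl {E : Type} [NormedAddCommGroup E] [NormedSpace ℝ E] (κ : E → B2 E) (lam : E → E →L[ℝ] ℝ)
    (a : E) : Prop :=
  ∃ γ : ℝ → E, γ 0 = a ∧ (∀ t, ∃ u, HasDerivAt γ u t ∧ ∀ v, κ (γ t) u v = lam (γ t) v) ∧
    Bornology.IsBounded (range γ)

theorem lf_out {n : ℕ} {κ : EE n → B2 (EE n)} {lam : EE n → EE n →L[ℝ] ℝ} (hκ : Symp κ) {x : EE n}
    (h1 : κ x = om0 n) (h2 : ∀ v, lam x v = (1 / 2) * om0 n x v) :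
    lf κ lam x = (1 / 2 : ℝ) • x := by
  refine (eq_lf hκ (u := (1 / 2 : ℝ) • x) fun v => ?_).symm
  rw [h1, h2, map_smul]
  rfl

theorem iter_dif {n : ℕ} {κ : EE n → B2 (EE n)} (f : Dif (EE n)) {q : ℝ} {D : Set (EE n)}
    (hD : ∀ x ∈ D, f x ∈ D)
    (h : ∀ x ∈ D, ∀ a b, κ (f x) (fderiv ℝ f x a) (fderiv ℝ f x b) = q * κ x a b) (N : ℕ) :
    ∃ g : Dif (EE n), (∀ x, g x = f^[N] x) ∧ (∀ x ∈ D, g x ∈ D) ∧
      ∀ x ∈ D, ∀ a b, κ (g x) (fderiv ℝ g x a) (fderiv ℝ g x b) = q ^ N * κ x a b := by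
  induction N with
  | zero =>
    refine ⟨Dif.refl _, fun x => rfl, fun x hx => hx, fun x _ a b => ?_⟩
    have e : fderiv ℝ (fun x : EE n => x) x = ContinuousLinearMap.id ℝ _ := fderiv_fun_id
    change κ x (fderiv ℝ (fun x : EE n => x) x a) (fderiv ℝ (fun x : EE n => x) x b) = _
    rw [e, pow_zero, one_mul]
    rfl
  | succ N ih =>
    obtain ⟨g, h1, h0, h2⟩ := ih
    refine ⟨g.trans f, fun x => ?_, fun x hx => hD _ (h0 x hx), fun x hx a b => ?_⟩
    · rw [Dif.trans_apply, h1, Function.iterate_succ_apply']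
    · have hd : fderiv ℝ (g.trans f) x = (fderiv ℝ f (g x)).comp (fderiv ℝ g x) :=
        fderiv_comp x (f.differentiable _) (g.differentiable _)
      rw [Dif.trans_apply, hd, ContinuousLinearMap.comp_apply, ContinuousLinearMap.comp_apply,
        h _ (h0 x hx), h2 x hx]
      ring

/-- The attractor in a Liouville domain. -/
theorem core {n : ℕ} {κ : EE n → B2 (EE n)} {lam : EE n → EE n →L[ℝ] ℝ} (hκ : Symp κ)
    (hl : ContDiff ℝ ∞ lam) (hd : ∀ x, dd lam x = κ x) {H : EE n → ℝ} (hH : ContDiff ℝ ∞ H) {m : ℝ}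
    (hm : IsCompact {x | H x ≤ m}) (hout : ∀ x, H x = m → 0 < fderiv ℝ H x (lf κ lam x)) :
    ∃ A : Set (EE n), IsCompact A ∧ (∀ a ∈ A, Bl κ lam a) ∧
      ∀ (U : Set (EE n)) (φ : EE n → EE n), Im κ U φ → A ⊆ U → InjOn φ U →
        ∃ ψ : EE n → EE n, Im κ {x | H x < m} ψ ∧ InjOn ψ {x | H x < m} := by
  have hX : ContDiff ℝ ∞ (lf κ lam) := contDiff_lf hκ hl
  obtain ⟨D, hDdef⟩ : ∃ D : Set (EE n), D = {x | H x ≤ m} := ⟨_, rfl⟩
  have hDm : ∀ x, x ∈ D ↔ H x ≤ m := fun x => by rw [hDdef]; rfl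
  have hD : IsCompact D := by rw [hDdef]; exact hm
  -- cutting off the field
  obtain ⟨χ, hχ, hχ0, hχ1⟩ := exists_cut (n := n) (s := (thickening 2 D)ᶜ)
    (t := cthickening 1 D) isOpen_thickening.isClosed_compl isClosed_cthickening (by
      rw [disjoint_compl_left_iff_subset]
      exact cthickening_subset_thickening' (by norm_num) (by norm_num) D)
  have hW : ContDiff ℝ ∞ (fun x => χ x • lf κ lam x) := hχ.smul hX
  have hcomp : HasCompactSupport (fun x => χ x • lf κ lam x) := by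
    refine HasCompactSupport.of_support_subset_isCompact (hD.cthickening (r := 2)) ?_
    intro x hx
    by_contra hn
    apply hx
    have h0 : χ x = 0 := hχ0 x fun h => hn (thickening_subset_cthickening _ _ h)
    simp only [h0, zero_smul]
  obtain ⟨M, hM⟩ := (hW.continuous_fderiv (by simp)).bounded_above_of_compact_support
    (hcomp.fderiv ℝ)
  have hM0 : 0 ≤ M := (norm_nonneg _).trans (hM 0)
  obtain ⟨c, hc0, hc⟩ : ∃ c : ℝ, c < 0 ∧ |c| * M ≤ 1 / 2 := by
    have hM1 : 0 < M + 1 := by linarith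
    refine ⟨-(1 / (2 * (M + 1))), by have : 0 < 1 / (2 * (M + 1)) := by positivity
                                     linarith, ?_⟩
    rw [abs_neg, abs_of_pos (by positivity)]
    calc 1 / (2 * (M + 1)) * M ≤ 1 / (2 * (M + 1)) * (M + 1) := by gcongr; linarith
      _ = 1 / 2 := by field_simp
  obtain ⟨V, hVdef⟩ : ∃ V : EE n → EE n, V = fun x => c • (χ x • lf κ lam x) := ⟨_, rfl⟩
  have hV : ContDiff ℝ ∞ V := by
    rw [hVdef]; exact contDiff_const_smul' hW c
  have hb : ∀ x, ‖fderiv ℝ V x‖ ≤ 1 / 2 := by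
    intro x
    rw [hVdef, (hasFDerivAt_const_smul' (hW.differentiable (by simp) x).hasFDerivAt c).fderiv,
      norm_smul, Real.norm_eq_abs]
    refine le_trans ?_ hc
    gcongr
    exact hM x
  have hVl : ∀ x ∈ D, V =ᶠ[𝓝 x] fun y => c • lf κ lam y := by
    intro x hx
    have hx' : x ∈ thickening 1 D := self_subset_thickening one_pos D hx
    filter_upwards [isOpen_thickening.mem_nhds hx'] with y hy
    rw [hVdef]
    simp only
    rw [hχ1 y (thickening_subset_cthickening _ _ hy), one_smul]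
  have hVx : ∀ x ∈ D, V x = c • lf κ lam x := fun x hx => (hVl x hx).self_of_nhds
  have hst : ∀ x ∈ D, ∀ s ∈ Icc (0:ℝ) 1, yy V hV hb x s ∈ D := by
    intro x hx s hs
    rw [hDm]
    refine stay hV hb hH (c := m) (fun y hy => ?_) ((hDm x).1 hx) s hs
    rw [hVx y ((hDm y).2 hy.le), map_smul, smul_eq_mul]
    exact mul_neg_of_neg_of_pos hc0 (hout y hy)
  obtain ⟨A, hA, hAo, hAt⟩ := attractor hV hb hD hst
  refine ⟨A, hA, ?_, ?_⟩
  · intro a ha
    obtain ⟨γ, h1, h2, h3⟩ := hAo a ha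
    refine ⟨fun t => γ (c⁻¹ * t), by simp [h1], fun t => ⟨lf κ lam (γ (c⁻¹ * t)), ?_, ?_⟩, ?_⟩
    · have h4 : HasDerivAt (fun t : ℝ => c⁻¹ * t) c⁻¹ t := by
        have h := (hasDerivAt_id t).const_mul c⁻¹
        rw [mul_one] at h
        exact h
      have h5 := HasDerivAt.scomp t (h2 (c⁻¹ * t)) h4
      rw [hVx _ (h3 _), smul_smul, inv_mul_cancel₀ hc0.ne, one_smul] at h5
      exact h5
    · intro v
      rw [k_lf hκ]
    · refine hD.isBounded.subset ?_
      rintro _ ⟨t, rfl⟩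
      exact h3 _
  intro U φ hI hAU hinj
  obtain ⟨N, hN⟩ := hAt U hI.op hAU
  obtain ⟨g, hg1, _, hg2⟩ := iter_dif (flow1 V hV hb) (D := D)
    (fun x hx => by rw [flow1_apply]; exact hst x hx 1 ⟨zero_le_one, le_rfl⟩)
    (fun x hx a b => flow_scale_local hκ hl (ρ := 1) (fun x v w => by rw [hd, one_mul]) c hV hb x
      (fun s hs => hVl _ (hst x hx s hs)) a b) N
  rw [mul_one] at hg2
  obtain ⟨s, hsdef⟩ : ∃ s : ℝ, s = Real.exp (-(c * N) / 2) := ⟨_, rfl⟩
  have hs0 : s ≠ 0 := by rw [hsdef]; exact (Real.exp_pos _).ne'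
  have hs2 : s * s * Real.exp c ^ N = 1 := by
    rw [hsdef, ← Real.exp_add, ← Real.exp_nat_mul, ← Real.exp_add]
    have : -(c * N) / 2 + -(c * N) / 2 + N * c = 0 := by ring
    rw [this, Real.exp_zero]
  have hgU : ∀ x, H x < m → g x ∈ U := by
    intro x hx
    rw [hg1]
    exact hN x ((hDm x).2 hx.le)
  refine ⟨fun x => s • φ (g x), ⟨isOpen_lt hH.continuous continuous_const, ?_, ?_⟩, ?_⟩
  · have h1 : ContDiffOn ℝ ∞ (fun x => φ (g x)) {x | H x < m} :=
      hI.sm.comp g.sm.contDiffOn fun x hx => hgU x hx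
    exact h1.const_smul s
  · intro x hx v w
    have hx' : H x < m := hx
    have hφd : HasFDerivAt φ (fderiv ℝ φ (g x)) (g x) :=
      ((hI.sm.contDiffAt (hI.op.mem_nhds (hgU x hx'))).differentiableAt (by simp)).hasFDerivAt
    have h1 : HasFDerivAt (fun x => s • φ (g x)) (s • (fderiv ℝ φ (g x)).comp (fderiv ℝ g x)) x :=
      hasFDerivAt_const_smul' (hφd.comp x (g.hasFDerivAt x)) s
    rw [h1.fderiv]
    simp only [smul_apply, ContinuousLinearMap.comp_apply, map_smul, smul_eq_mul]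
    rw [hI.pb (g x) (hgU x hx'), hg2 x ((hDm x).2 hx'.le)]
    linear_combination (κ x v w) * hs2
  · intro x hx y hy hxy
    have h1 : φ (g x) = φ (g y) := smul_right_injective (EE n) hs0 hxy
    exact g.injective (hinj (hgU x hx) (hgU y hy) h1)

theorem Im.mono {n : ℕ} {κ : EE n → B2 (EE n)} {U U' : Set (EE n)} {φ : EE n → EE n}
    (hI : Im κ U φ) (hU' : IsOpen U') (h : U' ⊆ U) : Im κ U' φ :=
  ⟨hU', hI.sm.mono h, fun x hx => hI.pb x (h hx)⟩

/-- It is enough to have an immersion near the skeleton whose double points on the skeleton are locally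
small. -/
theorem core_weak {n : ℕ} {κ : EE n → B2 (EE n)} {lam : EE n → EE n →L[ℝ] ℝ} (hκ : Symp κ)
    (hl : ContDiff ℝ ∞ lam) (hd : ∀ x, dd lam x = κ x) {H : EE n → ℝ} (hH : ContDiff ℝ ∞ H) {m : ℝ}
    (hm : IsCompact {x | H x ≤ m}) (hout : ∀ x, H x = m → 0 < fderiv ℝ H x (lf κ lam x))
    {Z : Set (EE n)} (hZ : ∀ a, Bl κ lam a → a ∈ Z) {U : Set (EE n)} {φ : EE n → EE n}
    (hI : Im κ U φ) (hZU : Z ⊆ U) (hdbl : SmallDbl φ Z) :
    ∃ ψ : EE n → EE n, Im κ {x | H x < m} ψ ∧ InjOn ψ {x | H x < m} := by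
  obtain ⟨A, hA, hAb, hAt⟩ := core hκ hl hd hH hm hout
  have hAZ : A ⊆ Z := fun a ha => hZ a (hAb a ha)
  obtain ⟨φ', hI', hinj⟩ := general_position hκ.nondeg hI hA (hAZ.trans hZU) (hdbl.mono hAZ)
  obtain ⟨t, ht, hti⟩ := hinj.exists_mem_nhdsSet hA
    (fun x hx => hI'.continuousAt (hZU (hAZ hx)))
    (fun x hx => (hI'.loc hκ.nondeg (hZU (hAZ hx))).2)
  obtain ⟨V, hV, hAV, hVt⟩ := mem_nhdsSet_iff_exists.1 ht
  exact hAt (V ∩ U) φ' (hI'.mono (hV.inter hI'.op) inter_subset_right)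
    (subset_inter hAV (hAZ.trans hZU)) (hti.mono (inter_subset_left.trans hVt))

/-- The standard Liouville form. -/
noncomputable def lam0 (n : ℕ) (x : EE n) : EE n →L[ℝ] ℝ := (1 / 2 : ℝ) • om0 n x

theorem contDiff_lam0 (n : ℕ) : ContDiff ℝ ∞ (lam0 n) :=
  contDiff_const_smul' (om0 n).contDiff (1 / 2)

theorem dd_lam0 {n : ℕ} (x : EE n) : dd (lam0 n) x = om0 n := by
  have h : HasFDerivAt (lam0 n) ((1 / 2 : ℝ) • (om0 n)) x :=
    hasFDerivAt_const_smul' (om0 n).hasFDerivAt (1 / 2)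
  refine ContinuousLinearMap.ext fun v => ContinuousLinearMap.ext fun w => ?_
  rw [dd_apply, h.fderiv]
  simp only [smul_apply, smul_eq_mul]
  rw [om0_alt w v]
  ring

theorem exists_prim {n : ℕ} (hn : 2 ≤ n) {κ : EE n → B2 (EE n)} (hκ : Symp κ) {r : ℝ}
    (hr : ∀ x ∉ closedBall (0 : EE n) r, κ x = om0 n) :
    ∃ lam : EE n → EE n →L[ℝ] ℝ, ContDiff ℝ ∞ lam ∧ (∀ x, dd lam x = κ x) ∧
      ∀ x ∉ closedBall (0 : EE n) r, lf κ lam x = (1 / 2 : ℝ) • x := by
  obtain ⟨ν, h1, h2, h3⟩ := cpl hn (hκ.fo.sub (fo_om0 n)) (c := 0) (r := r) (fun x hx => by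
    rw [hr x hx]
    refine ContinuousLinearMap.ext fun v => ContinuousLinearMap.ext fun w => ?_
    simp)
  refine ⟨fun x => lam0 n x + ν x, (contDiff_lam0 n).add h1, fun x => ?_, fun x hx =>
    lf_out hκ (hr x hx) fun v => ?_⟩
  · have hd : fderiv ℝ (fun x => lam0 n x + ν x) x = fderiv ℝ (lam0 n) x + fderiv ℝ ν x :=
      fderiv_fun_add ((contDiff_lam0 n).differentiable (by simp) x) (h1.differentiable (by simp) x)
    refine ContinuousLinearMap.ext fun v => ContinuousLinearMap.ext fun w => ?_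
    have e1 := congrArg (fun A : B2 (EE n) => A v w) (dd_lam0 x)
    have e2 := congrArg (fun A : B2 (EE n) => A v w) (h2 x)
    simp only [dd_apply, sub_apply] at e1 e2
    rw [dd_apply, hd]
    simp only [add_apply]
    linarith
  · change lam0 n x v + ν x v = _
    rw [h3 x hx]
    simp [lam0]

end Pool.Agent.H60.Sk
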