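import Mathlib

/-! Images of null sets for the Hausdorff measure under `C¹` maps have dense complement. -/

set_option autoImplicit false
set_option linter.unusedSectionVars false

open scoped Topology ENNReal
open Set Metric MeasureTheory

namespace Pool.Agent.H60.Sk

theorem dense_compl_image {E F : Type} [NormedAddCommGroup E] [NormedSpace ℝ E]
    [MeasurableSpace E] [BorelSpace E] [NormedAddCommGroup F] [NormedSpace ℝ F]
    [FiniteDimensional ℝ F] [MeasurableSpace F] [BorelSpace F] {f : E → F} {s t : Set E}
    (hf : ContDiffOn ℝ 1 f s) (hc : Convex ℝ s) (ht : IsCompact t) (hts : t ⊆ s)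
    (h0 : Measure.hausdorffMeasure (Module.finrank ℝ F : ℝ) t = 0) : Dense (f '' t)ᶜ := by
  have key : Measure.hausdorffMeasure (Module.finrank ℝ F : ℝ) (f '' (t ∩ t)) = 0 := by
    refine ht.induction_on (p := fun u =>
      Measure.hausdorffMeasure (Module.finrank ℝ F : ℝ) (f '' (u ∩ t)) = 0) ?_ ?_ ?_ ?_
    · simp
    · intro u v huv hv
      exact measure_mono_null (image_mono (inter_subset_inter_left _ huv)) hv
    · intro u v hu hv
      rw [union_inter_distrib_right, image_union]
      exact measure_union_null hu hv
    · intro x hx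
      obtain ⟨K, u, hu, hl⟩ := (hf x (hts hx)).exists_lipschitzOnWith hc
      refine ⟨u, nhdsWithin_mono _ hts hu, ?_⟩
      have h1 := (hl.mono (inter_subset_left (s := u) (t := t))).hausdorffMeasure_image_le
        (d := (Module.finrank ℝ F : ℝ)) (Nat.cast_nonneg _)
      have h2 : Measure.hausdorffMeasure (Module.finrank ℝ F : ℝ) (u ∩ t) = 0 :=
        measure_mono_null inter_subset_right h0
      rw [h2, mul_zero] at h1
      exact le_antisymm h1 zero_le
  rw [inter_self] at key
  have h3 : ∀ᵐ x ∂(Measure.hausdorffMeasure (Module.finrank ℝ F : ℝ) : Measure F),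
      x ∈ (f '' t)ᶜ := by
    rw [ae_iff]
    have e : {x | ¬ x ∈ (f '' t)ᶜ} = f '' t := by
      ext x; simp
    rw [e]
    exact key
  exact Measure.dense_of_ae h3

end Pool.Agent.H60.Sk
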