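import Pool.Agent.H60.Sk.Ham
import Pool.Agent.H60.Sk.Zero

/-! Small diffeomorphisms that preserve a symplectic form and push a compact set off another one when the
product of the two sets is null for the `2n`-dimensional Hausdorff measure. -/

set_option autoImplicit false
set_option linter.unusedSectionVars false

open scoped ContDiff Topology unitInterval
open Set Metric

namespace Pool.Agent.H60.Sk

open Pool.Agent.H60.Sy

section

variable {F : Type} [NormedAddCommGroup F] [NormedSpace ℝ F] [CompleteSpace F]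
variable {V V' : F → F} (hV : ContDiff ℝ ∞ V) (hb : ∀ x, ‖fderiv ℝ V x‖ ≤ 1 / 2)
  (hV' : ContDiff ℝ ∞ V') (hb' : ∀ x, ‖fderiv ℝ V' x‖ ≤ 1 / 2)

theorem sol_fix (x : F) : sol V hV hb x = cst x + integ (nem V hV.continuous (sol V hV hb x)) := by
  have h := psi_sol V hV hb x
  unfold psi at h
  rw [← h]
  abel

theorem sol_disp {M : ℝ} (hM : 0 ≤ M) (h : ∀ y, ‖V y‖ ≤ M) (x : F) (t : I) :
    ‖sol V hV hb x t - x‖ ≤ M := by
  have h1 : sol V hV hb x - cst x = integ (nem V hV.continuous (sol V hV hb x)) := by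
    conv_lhs => rw [sol_fix hV hb x]
    abel
  have h2 : ‖sol V hV hb x - cst x‖ ≤ M := by
    rw [h1]
    exact (norm_integ_le _).trans ((ContinuousMap.norm_le _ hM).2 fun t => h _)
  exact ((sol V hV hb x - cst x).norm_coe_le_norm t).trans h2

theorem norm_cst (x : F) : ‖(cst x : C(I, F))‖ ≤ ‖x‖ :=
  (ContinuousMap.norm_le _ (norm_nonneg _)).2 fun _ => le_rfl

theorem sol_diff {M : ℝ} (hM : 0 ≤ M) (h : ∀ y, ‖V y - V' y‖ ≤ M) (x x' : F) :
    ‖sol V hV hb x - sol V' hV' hb' x'‖ ≤ 2 * (‖x - x'‖ + M) := by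
  obtain ⟨γ, hγ⟩ : ∃ γ, γ = sol V hV hb x := ⟨_, rfl⟩
  obtain ⟨δ, hδ⟩ : ∃ δ, δ = sol V' hV' hb' x' := ⟨_, rfl⟩
  have e1 := sol_fix hV hb x
  have e2 := sol_fix hV' hb' x'
  rw [← hγ] at e1
  rw [← hδ] at e2
  rw [← hγ, ← hδ]
  have e : γ - δ = cst (x - x') + integ (nem V hV.continuous γ - nem V' hV'.continuous δ) := by
    rw [map_sub, map_sub]
    calc γ - δ = (cst x + integ (nem V hV.continuous γ))
          - (cst x' + integ (nem V' hV'.continuous δ)) := by rw [← e1, ← e2]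
      _ = _ := by abel
  have h1 : ‖nem V hV.continuous γ - nem V' hV'.continuous δ‖ ≤ 1 / 2 * ‖γ - δ‖ + M := by
    refine (ContinuousMap.norm_le _ (by positivity)).2 fun t => ?_
    have h2 : ‖V (γ t) - V (δ t)‖ ≤ 1 / 2 * ‖γ t - δ t‖ := lip_V V hb hV _ _
    have h3 : ‖γ t - δ t‖ ≤ ‖γ - δ‖ := (γ - δ).norm_coe_le_norm t
    have h4 := h (δ t)
    have h5 : V (γ t) - V' (δ t) = (V (γ t) - V (δ t)) + (V (δ t) - V' (δ t)) := by abel
    have h6 : ‖V (γ t) - V' (δ t)‖ ≤ 1 / 2 * ‖γ - δ‖ + M := by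
      rw [h5]
      exact (norm_add_le _ _).trans (by linarith)
    exact h6
  have h2 : ‖γ - δ‖ ≤ ‖x - x'‖ + (1 / 2 * ‖γ - δ‖ + M) := by
    conv_lhs => rw [e]
    exact (norm_add_le _ _).trans (add_le_add (norm_cst _) ((norm_integ_le _).trans h1))
  linarith

theorem flow_diff {R : ℝ} (hR : 0 ≤ R) {v : F} (x x' : F)
    (h : ∀ t : I, ‖V (sol V hV hb x t) - V' (sol V' hV' hb' x' t) - v‖ ≤ R) :
    ‖flow1 V hV hb x - flow1 V' hV' hb' x' - v‖ ≤ ‖x - x'‖ + R := by
  obtain ⟨γ, hγ⟩ : ∃ γ, γ = sol V hV hb x := ⟨_, rfl⟩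
  obtain ⟨δ, hδ⟩ : ∃ δ, δ = sol V' hV' hb' x' := ⟨_, rfl⟩
  have e1 := sol_fix hV hb x
  have e2 := sol_fix hV' hb' x'
  rw [← hγ] at e1
  rw [← hδ] at e2
  have f1 : flow1 V hV hb x = γ 1 := by rw [hγ]; rfl
  have f2 : flow1 V' hV' hb' x' = δ 1 := by rw [hδ]; rfl
  rw [← hγ, ← hδ] at h
  have e3 : (integ (cst v) : C(I, F)) 1 = v := by
    rw [integ_apply]
    have : (ext (cst v : C(I, F))) = fun _ => v := by
      funext s; rfl
    rw [this]
    simp
  have e : γ - δ - integ (cst v) = cst (x - x') +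
      integ (nem V hV.continuous γ - nem V' hV'.continuous δ - cst v) := by
    rw [map_sub, map_sub, map_sub]
    calc γ - δ - integ (cst v) = (cst x + integ (nem V hV.continuous γ))
          - (cst x' + integ (nem V' hV'.continuous δ)) - integ (cst v) := by rw [← e1, ← e2]
      _ = _ := by abel
  have h1 : ‖nem V hV.continuous γ - nem V' hV'.continuous δ - cst v‖ ≤ R :=
    (ContinuousMap.norm_le _ hR).2 fun t => h t
  have h2 : ‖γ - δ - integ (cst v)‖ ≤ ‖x - x'‖ + R := by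
    rw [e]
    exact (norm_add_le _ _).trans (add_le_add (norm_cst _) ((norm_integ_le _).trans h1))
  have h3 := ((γ - δ - integ (cst v)).norm_coe_le_norm 1).trans h2
  rw [f1, f2]
  have h4 : (γ - δ - integ (cst v)) 1 = γ 1 - δ 1 - v := by
    rw [ContinuousMap.sub_apply, ContinuousMap.sub_apply, e3]
  rw [h4] at h3
  exact h3

end

/-- Diffeomorphisms that preserve the form. -/
def Sd {n : ℕ} (κ : EE n → B2 (EE n)) (f : Dif (EE n)) : Prop :=
  ∀ x v w, κ (f x) (fderiv ℝ f x v) (fderiv ℝ f x w) = κ x v w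

theorem Sd.refl {n : ℕ} (κ : EE n → B2 (EE n)) : Sd κ (Dif.refl (EE n)) := by
  intro x v w
  have e : fderiv ℝ (fun x : EE n => x) x = ContinuousLinearMap.id ℝ _ := fderiv_fun_id
  change κ x (fderiv ℝ (fun x : EE n => x) x v) (fderiv ℝ (fun x : EE n => x) x w) = _
  rw [e]
  rfl

theorem Sd.trans {n : ℕ} {κ : EE n → B2 (EE n)} {f g : Dif (EE n)} (hf : Sd κ f) (hg : Sd κ g) :
    Sd κ (f.trans g) := by
  intro x v w
  have hd : fderiv ℝ (f.trans g) x = (fderiv ℝ g (f x)).comp (fderiv ℝ f x) :=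
    fderiv_comp x (g.differentiable _) (f.differentiable _)
  rw [Dif.trans_apply, hd, ContinuousLinearMap.comp_apply, ContinuousLinearMap.comp_apply,
    hg, hf]

theorem dd_fderiv {n : ℕ} {h : EE n → ℝ} (hh : ContDiff ℝ ∞ h) (x v w : EE n) :
    dd (fderiv ℝ h) x v w = 0 := by
  have h1 : ContDiff ℝ ∞ (fderiv ℝ h) := hh.fderiv_right (by simp)
  have hs := second_derivative_symmetric (f := h) (f' := fderiv ℝ h)
      (f'' := fderiv ℝ (fderiv ℝ h) x) (x := x)
      (fun y => (hh.differentiable (by simp) y).hasFDerivAt)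
      (h1.differentiable (by simp) x).hasFDerivAt v w
  rw [dd_apply, hs, sub_self]

section

variable {n : ℕ} {κ : EE n → B2 (EE n)}

/-- The Hamiltonian of the cut-off translation. -/
noncomputable def hamK (A : B2 (EE n)) (χ : EE n → ℝ) (p : EE n) (x : EE n) : ℝ := χ x * A p x

/-- The cut-off translation field, linear in the translation vector. -/
noncomputable def hamU (κ : EE n → B2 (EE n)) (A : B2 (EE n)) (χ : EE n → ℝ) (x : EE n) :
    EE n →L[ℝ] EE n :=
  (κ x).inverse.comp (χ x • A + (A.flip x).smulRight (fderiv ℝ χ x))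

theorem contDiff_hamK (A : B2 (EE n)) {χ : EE n → ℝ} (hχ : ContDiff ℝ ∞ χ) (p : EE n) :
    ContDiff ℝ ∞ (hamK A χ p) := hχ.mul (A p).contDiff

theorem fderiv_hamK (A : B2 (EE n)) {χ : EE n → ℝ} (hχ : ContDiff ℝ ∞ χ) (p x : EE n) :
    fderiv ℝ (hamK A χ p) x = χ x • A p + (A p x) • fderiv ℝ χ x := by
  have h1 : HasFDerivAt χ (fderiv ℝ χ x) x := (hχ.differentiable (by simp) x).hasFDerivAt
  have h2 : HasFDerivAt (fun x => A p x) (A p) x := (A p).hasFDerivAt
  exact (h1.mul h2).fderiv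

theorem lf_hamK (A : B2 (EE n)) {χ : EE n → ℝ} (hχ : ContDiff ℝ ∞ χ) (p x : EE n) :
    lf κ (fderiv ℝ (hamK A χ p)) x = hamU κ A χ x p := by
  unfold lf hamU
  rw [fderiv_hamK A hχ]
  rfl

theorem contDiff_hamU (hκ : Symp κ) (A : B2 (EE n)) {χ : EE n → ℝ} (hχ : ContDiff ℝ ∞ χ) :
    ContDiff ℝ ∞ (hamU κ A χ) := by
  have h1 : ContDiff ℝ ∞ (fderiv ℝ χ) := hχ.fderiv_right (by simp)
  have h2 : ContDiff ℝ ∞ (fun x : EE n => A.flip x) := A.flip.contDiff
  have h3 : ContDiff ℝ ∞ (fun x : EE n => (A.flip x).smulRight (fderiv ℝ χ x)) :=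
    h2.smulRight h1
  have h4 : ContDiff ℝ ∞ (fun x : EE n => χ x • A) :=
    contDiff_smul' (G := EE n →L[ℝ] EE n →L[ℝ] ℝ) hχ contDiff_const
  exact (contDiff_inverse hκ.sm hκ.nondeg).clm_comp (h4.add h3)

theorem fam (hκ : Symp κ) (a : EE n) : ∃ ρ > 0, ∃ r > 0, ∃ C : ℝ, 0 < C ∧
    ∃ g : EE n → Dif (EE n), (∀ p, ‖p‖ < r → Sd κ (g p)) ∧
      (∀ p, ‖p‖ < r → ∀ x, ‖g p x - x‖ ≤ C * ‖p‖) ∧
      ∀ p q, ‖p‖ < r → ‖q‖ < r → ∀ x ∈ closedBall a ρ, ∀ x' ∈ closedBall a ρ,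
        ‖p - q‖ ≤ 2 * ‖g p x - g q x'‖ + 4 * ‖x - x'‖ := by
  obtain ⟨χ, hχ, hχ0, hχ1⟩ := exists_cut (n := n) (s := (ball a 2)ᶜ)
    (t := closedBall a 1) isOpen_ball.isClosed_compl isClosed_closedBall (by
      rw [disjoint_compl_left_iff_subset]
      exact closedBall_subset_ball (by norm_num))
  obtain ⟨W, hW⟩ : ∃ W : EE n → EE n →L[ℝ] EE n, W = hamU κ (κ a) χ := ⟨_, rfl⟩
  have hWs : ContDiff ℝ ∞ W := by rw [hW]; exact contDiff_hamU hκ _ hχ
  have hχS : ∀ x ∉ closedBall a 2, χ x = 0 := fun x hx => hχ0 x fun h => hx (ball_subset_closedBall h)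
  have hWS : ∀ x ∉ closedBall a 2, W =ᶠ[𝓝 x] fun _ => 0 := by
    intro x hx
    have hχe : ∀ y ∉ closedBall a 2, χ =ᶠ[𝓝 y] fun _ => 0 := by
      intro y hy
      filter_upwards [isClosed_closedBall.isOpen_compl.mem_nhds hy] with z hz
      exact hχS z hz
    filter_upwards [isClosed_closedBall.isOpen_compl.mem_nhds hx] with y hy
    rw [hW]
    unfold hamU
    rw [hχS y hy, (hχe y hy).fderiv_eq]
    refine ContinuousLinearMap.ext fun v => ?_
    simp
  have hWa : W a = ContinuousLinearMap.id ℝ _ := by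
    have hχe : χ =ᶠ[𝓝 a] fun _ => 1 := by
      filter_upwards [closedBall_mem_nhds a one_pos] with y hy
      exact hχ1 y hy
    refine ContinuousLinearMap.ext fun p => ?_
    rw [hW, ← lf_hamK (κ a) hχ]
    refine (eq_lf hκ fun v => ?_).symm
    rw [fderiv_hamK (κ a) hχ, hχe.self_of_nhds, hχe.fderiv_eq, fderiv_fun_const]
    simp
  obtain ⟨C₀, hC₀⟩ := (isCompact_closedBall a 2).exists_bound_of_continuousOn
    hWs.continuous.continuousOn
  obtain ⟨C₁, hC₁⟩ := (isCompact_closedBall a 2).exists_bound_of_continuousOn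
    (hWs.continuous_fderiv (by simp)).continuousOn
  obtain ⟨C, hCdef⟩ : ∃ C : ℝ, C = max (max C₀ C₁) 1 := ⟨_, rfl⟩
  have hC1 : 1 ≤ C := by rw [hCdef]; exact le_max_right _ _
  have hC : 0 < C := lt_of_lt_of_le one_pos hC1
  have hb0 : ∀ x, ‖W x‖ ≤ C := by
    intro x
    by_cases hx : x ∈ closedBall a 2
    · rw [hCdef]
      exact (hC₀ x hx).trans ((le_max_left _ _).trans (le_max_left _ _))
    · rw [(hWS x hx).self_of_nhds, norm_zero]
      exact hC.le
  have hb1 : ∀ x, ‖fderiv ℝ W x‖ ≤ C := by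
    intro x
    by_cases hx : x ∈ closedBall a 2
    · rw [hCdef]
      exact (hC₁ x hx).trans ((le_max_right _ _).trans (le_max_left _ _))
    · rw [(hWS x hx).fderiv_eq, fderiv_fun_const]
      refine ContinuousLinearMap.opNorm_le_bound _ hC.le fun v => ?_
      have h0 : ‖(0 : EE n →L[ℝ] EE n)‖ ≤ C * ‖v‖ := by
        rw [norm_zero]; positivity
      exact h0
  have hlip : ∀ x y, ‖W x - W y‖ ≤ C * ‖x - y‖ := fun x y =>
    Convex.norm_image_sub_le_of_norm_fderiv_le (𝕜 := ℝ) (s := univ)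
      (fun z _ => (hWs.differentiable (by simp)) z) (fun z _ => hb1 z) convex_univ
      (mem_univ y) (mem_univ x)
  obtain ⟨r, hrdef⟩ : ∃ r : ℝ, r = 1 / (8 * (C * C)) := ⟨_, rfl⟩
  have hr : 0 < r := by rw [hrdef]; positivity
  have hr8 : C * (C * r) = 1 / 8 := by rw [hrdef]; field_simp
  have hCr : C * r ≤ 1 / 8 := by
    have h1 : C * r ≤ C * (C * r) := le_mul_of_one_le_left (by positivity) hC1
    linarith
  obtain ⟨V, hVdef⟩ : ∃ V : EE n → EE n → EE n,
      V = fun p x => (1 : ℝ) • lf κ (fderiv ℝ (hamK (κ a) χ p)) x := ⟨_, rfl⟩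
  have hVx : ∀ p x, V p x = W x p := by
    intro p x
    rw [hVdef, hW]
    simp only
    rw [one_smul, lf_hamK (κ a) hχ]
  have hVW : ∀ p, V p = fun x => W x p := fun p => funext fun x => hVx p x
  have hV : ∀ p, ContDiff ℝ ∞ (V p) := by
    intro p
    rw [hVW]
    exact hWs.clm_apply contDiff_const
  have hpC : ∀ p : EE n, ‖p‖ < r → C * ‖p‖ ≤ 1 / 8 := by
    intro p hp
    refine le_trans ?_ hCr
    gcongr
  have hb : ∀ p, ‖p‖ < r → ∀ x, ‖fderiv ℝ (V p) x‖ ≤ 1 / 2 := by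
    intro p hp x
    have h1 : HasFDerivAt W (fderiv ℝ W x) x := (hWs.differentiable (by simp) x).hasFDerivAt
    have h2 : HasFDerivAt (V p) ((fderiv ℝ W x).flip p) x := by
      rw [hVW]
      have h3 := h1.clm_apply (hasFDerivAt_const p x)
      refine h3.congr_fderiv ?_
      refine ContinuousLinearMap.ext fun v => ?_
      simp
    rw [h2.fderiv]
    refine le_trans ((fderiv ℝ W x).flip.le_opNorm p) ?_
    rw [ContinuousLinearMap.opNorm_flip]
    have h4 := hpC p hp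
    have h5 : ‖fderiv ℝ W x‖ * ‖p‖ ≤ C * ‖p‖ := by
      gcongr
      exact hb1 x
    linarith
  obtain ⟨g, hg⟩ : ∃ g : EE n → Dif (EE n), ∀ p (hp : ‖p‖ < r), g p = flow1 (V p) (hV p) (hb p hp) :=
    ⟨fun p => if hp : ‖p‖ < r then flow1 (V p) (hV p) (hb p hp) else Dif.refl _,
      fun p hp => dif_pos hp⟩
  have hVb : ∀ p x, ‖V p x‖ ≤ C * ‖p‖ := by
    intro p x
    rw [hVx]
    refine le_trans ((W x).le_opNorm p) ?_
    gcongr
    exact hb0 x
  obtain ⟨ρ, hρdef⟩ : ∃ ρ : ℝ, ρ = 1 / (8 * C) := ⟨_, rfl⟩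
  have hρ : 0 < ρ := by rw [hρdef]; positivity
  have hCρ : C * ρ = 1 / 8 := by rw [hρdef]; field_simp
  refine ⟨ρ, hρ, r, hr, C, hC, g, ?_, ?_, ?_⟩
  · intro p hp x v w
    rw [hg p hp]
    have hV' := hV p
    have hb' := hb p hp
    rw [hVdef] at hV' hb'
    have h := flow_scale hκ (lam := fderiv ℝ (hamK (κ a) χ p))
      ((contDiff_hamK (κ a) hχ p).fderiv_right (by simp)) (ρ := 0)
      (fun x v w => by rw [dd_fderiv (contDiff_hamK (κ a) hχ p), zero_mul]) 1 hV' hb' x v w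
    rw [mul_zero, Real.exp_zero, one_mul] at h
    subst hVdef
    exact h
  · intro p hp x
    rw [hg p hp]
    have h := sol_disp (hV p) (hb p hp) (M := C * ‖p‖) (by positivity) (hVb p) x 1
    exact h
  · intro p q hp hq x hx x' hx'
    rw [hg p hp, hg q hq]
    have hM : ∀ y, ‖V p y - V q y‖ ≤ C * ‖p - q‖ := by
      intro y
      rw [hVx, hVx, ← map_sub]
      refine le_trans ((W y).le_opNorm _) ?_
      gcongr
      exact hb0 y
    have hs := sol_diff (hV p) (hb p hp) (hV q) (hb q hq) (M := C * ‖p - q‖) (by positivity) hM x x'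
    have hC8 := hpC q hq
    have hC8' := hpC p hp
    have hqC : C * (C * ‖q‖) ≤ 1 / 8 := by
      rw [← hr8]
      gcongr
    have key : ∀ t : I, ‖V p (sol (V p) (hV p) (hb p hp) x t)
        - V q (sol (V q) (hV q) (hb q hq) x' t) - (p - q)‖ ≤ 1 / 2 * ‖p - q‖ + ‖x - x'‖ := by
      intro t
      obtain ⟨y, hy⟩ : ∃ y, y = sol (V p) (hV p) (hb p hp) x t := ⟨_, rfl⟩
      obtain ⟨z, hz⟩ : ∃ z, z = sol (V q) (hV q) (hb q hq) x' t := ⟨_, rfl⟩
      have h1 : ‖y - x‖ ≤ C * ‖p‖ := by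
        rw [hy]
        exact sol_disp (hV p) (hb p hp) (M := C * ‖p‖) (by positivity) (hVb p) x t
      have h2 : ‖y - z‖ ≤ 2 * (‖x - x'‖ + C * ‖p - q‖) := by
        rw [hy, hz]
        refine le_trans ?_ hs
        exact (sol (V p) (hV p) (hb p hp) x - sol (V q) (hV q) (hb q hq) x').norm_coe_le_norm t
      rw [← hy, ← hz]
      have h3 : ‖x - a‖ ≤ ρ := mem_closedBall_iff_norm.1 hx
      have h4 : ‖W y - ContinuousLinearMap.id ℝ (EE n)‖ ≤ 1 / 4 := by
        rw [← hWa]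
        refine (hlip y a).trans ?_
        have h5 : ‖y - a‖ ≤ C * ‖p‖ + ρ := by
          have : y - a = (y - x) + (x - a) := by abel
          rw [this]
          exact (norm_add_le _ _).trans (add_le_add h1 h3)
        have h6 : C * (C * ‖p‖) ≤ 1 / 8 := by
          rw [← hr8]
          gcongr
        calc C * ‖y - a‖ ≤ C * (C * ‖p‖ + ρ) := by gcongr
          _ = C * (C * ‖p‖) + C * ρ := by ring
          _ ≤ 1 / 4 := by rw [hCρ]; linarith
      have h5 : V p y - V q z - (p - q) = (W y - ContinuousLinearMap.id ℝ (EE n)) (p - q)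
          + (W y - W z) q := by
        rw [hVx, hVx]
        simp only [sub_apply, map_sub, ContinuousLinearMap.id_apply]
        abel
      have h6 : ‖(W y - ContinuousLinearMap.id ℝ (EE n)) (p - q)‖ ≤ 1 / 4 * ‖p - q‖ := by
        refine le_trans (ContinuousLinearMap.le_opNorm _ _) ?_
        gcongr
      have h7 : ‖(W y - W z) q‖ ≤ 1 / 4 * ‖p - q‖ + ‖x - x'‖ := by
        refine le_trans (ContinuousLinearMap.le_opNorm _ _) ?_
        calc ‖W y - W z‖ * ‖q‖ ≤ (C * (2 * (‖x - x'‖ + C * ‖p - q‖))) * ‖q‖ := by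
              gcongr
              exact (hlip y z).trans (by gcongr)
          _ = 2 * (C * ‖q‖) * ‖x - x'‖ + 2 * (C * (C * ‖q‖)) * ‖p - q‖ := by ring
          _ ≤ 2 * (1 / 8) * ‖x - x'‖ + 2 * (1 / 8) * ‖p - q‖ := by gcongr
          _ ≤ 1 / 4 * ‖p - q‖ + ‖x - x'‖ := by
              have := norm_nonneg (x - x')
              linarith
      rw [h5]
      exact (norm_add_le _ _).trans (by linarith)
    have hf := flow_diff (hV p) (hb p hp) (hV q) (hb q hq) (R := 1 / 2 * ‖p - q‖ + ‖x - x'‖)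
      (by positivity) (v := p - q) x x' key
    obtain ⟨u, hu⟩ : ∃ u, u = flow1 (V p) (hV p) (hb p hp) x - flow1 (V q) (hV q) (hb q hq) x' :=
      ⟨_, rfl⟩
    rw [← hu] at hf ⊢
    have h8 : ‖p - q‖ ≤ ‖u‖ + ‖u - (p - q)‖ := by
      have h9 : p - q = u - (u - (p - q)) := by abel
      conv_lhs => rw [h9]
      exact norm_sub_le _ _
    linarith

end

end Pool.Agent.H60.Sk
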