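import Pool.Agent.H60.Sk.Lie

/-! Small symplectic diffeomorphisms of the standard space that translate a given compact set and are
the identity off a given neighbourhood. -/

set_option autoImplicit false
set_option linter.unusedSectionVars false

open scoped ContDiff Topology unitInterval
open Set Metric

namespace Pool.Agent.H60.Sk

open Pool.Agent.H60.Sy

theorem exists_cut {n : ℕ} {s t : Set (EE n)} (hs : IsClosed s) (ht : IsClosed t)
    (hd : Disjoint s t) : ∃ χ : EE n → ℝ, ContDiff ℝ ∞ χ ∧ (∀ x ∈ s, χ x = 0) ∧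
      ∀ x ∈ t, χ x = 1 := by
  obtain ⟨f, hf0, hf1, _⟩ := exists_contMDiffMap_zero_one_of_isClosed (n := (⊤ : ℕ∞))
    (modelWithCornersSelf ℝ (EE n)) hs ht hd
  exact ⟨f, f.contMDiff.contDiff, fun x hx => hf0 hx, fun x hx => hf1 hx⟩

/-- The Hamiltonian of the cut-off translation. -/
noncomputable def hamH {n : ℕ} (χ : EE n → ℝ) (p : EE n) (x : EE n) : ℝ := χ x * om0 n p x

/-- The cut-off translation field, linear in the translation vector. -/
noncomputable def hamW {n : ℕ} (χ : EE n → ℝ) (x : EE n) : EE n →L[ℝ] EE n :=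
  (om0 n).inverse.comp (χ x • om0 n + ((om0 n).flip x).smulRight (fderiv ℝ χ x))

theorem contDiff_hamH {n : ℕ} {χ : EE n → ℝ} (hχ : ContDiff ℝ ∞ χ) (p : EE n) :
    ContDiff ℝ ∞ (hamH χ p) := hχ.mul (om0 n p).contDiff

theorem fderiv_hamH {n : ℕ} {χ : EE n → ℝ} (hχ : ContDiff ℝ ∞ χ) (p x : EE n) :
    fderiv ℝ (hamH χ p) x = χ x • om0 n p + (om0 n p x) • fderiv ℝ χ x := by
  have h1 : HasFDerivAt χ (fderiv ℝ χ x) x := (hχ.differentiable (by simp) x).hasFDerivAt
  have h2 : HasFDerivAt (fun x => om0 n p x) (om0 n p) x := (om0 n p).hasFDerivAt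
  exact (h1.mul h2).fderiv

theorem lf_hamH {n : ℕ} {χ : EE n → ℝ} (hχ : ContDiff ℝ ∞ χ) (p x : EE n) :
    lf (fun _ => om0 n) (fderiv ℝ (hamH χ p)) x = hamW χ x p := by
  unfold lf hamW
  rw [fderiv_hamH hχ]
  rfl

theorem contDiff_hamW {n : ℕ} {χ : EE n → ℝ} (hχ : ContDiff ℝ ∞ χ) :
    ContDiff ℝ ∞ (hamW χ) := by
  have h1 : ContDiff ℝ ∞ (fderiv ℝ χ) := hχ.fderiv_right (by simp)
  have h2 : ContDiff ℝ ∞ (fun x : EE n => (om0 n).flip x) := (om0 n).flip.contDiff
  have h3 : ContDiff ℝ ∞ (fun x : EE n => ((om0 n).flip x).smulRight (fderiv ℝ χ x)) :=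
    h2.smulRight h1
  have h4 : ContDiff ℝ ∞ (fun x : EE n => χ x • om0 n) :=
    contDiff_smul' (G := EE n →L[ℝ] EE n →L[ℝ] ℝ) hχ contDiff_const
  exact contDiff_const.clm_comp (h4.add h3)

theorem dd_hamH {n : ℕ} {χ : EE n → ℝ} (hχ : ContDiff ℝ ∞ χ) (p x v w : EE n) :
    dd (fderiv ℝ (hamH χ p)) x v w = 0 := by
  have h : ContDiff ℝ ∞ (hamH χ p) := contDiff_hamH hχ p
  have h1 : ContDiff ℝ ∞ (fderiv ℝ (hamH χ p)) := h.fderiv_right (by simp)
  have hs := second_derivative_symmetric (f := hamH χ p) (f' := fderiv ℝ (hamH χ p))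
      (f'' := fderiv ℝ (fderiv ℝ (hamH χ p)) x) (x := x)
      (fun y => (h.differentiable (by simp) y).hasFDerivAt)
      (h1.differentiable (by simp) x).hasFDerivAt v w
  rw [dd_apply, hs, sub_self]

theorem ham {n : ℕ} {T O : Set (EE n)} (hT : IsCompact T) (hO : IsOpen O) (hTO : T ⊆ O) :
    ∃ S : Set (EE n), IsCompact S ∧ S ⊆ O ∧ ∃ δ > 0, ∃ C : ℝ, ∀ p : EE n, ‖p‖ < δ →
      ∃ g : Dif (EE n), (∀ x ∉ S, g x = x) ∧ (∀ x ∈ T, g x = x + p) ∧
        (∀ x, ‖g x - x‖ ≤ C * ‖p‖) ∧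
        ∀ x v w, om0 n (fderiv ℝ g x v) (fderiv ℝ g x w) = om0 n v w := by
  obtain ⟨ε₀, hε₀, hsub⟩ := hT.exists_cthickening_subset_open hO hTO
  obtain ⟨ε, hε⟩ : ∃ ε : ℝ, ε = ε₀ / 2 := ⟨_, rfl⟩
  have hε0 : 0 < ε := by rw [hε]; positivity
  obtain ⟨S, hSdef⟩ : ∃ S : Set (EE n), S = cthickening ε₀ T := ⟨_, rfl⟩
  have hS : IsCompact S := by rw [hSdef]; exact hT.cthickening
  obtain ⟨χ, hχ, hχ0, hχ1⟩ := exists_cut (n := n) (s := (thickening ε₀ T)ᶜ)
    (t := cthickening ε T) isOpen_thickening.isClosed_compl isClosed_cthickening (by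
      rw [disjoint_compl_left_iff_subset]
      exact cthickening_subset_thickening' hε₀ (by linarith) T)
  have hχS : ∀ x ∉ S, χ x = 0 := by
    intro x hx
    refine hχ0 x fun h => hx ?_
    rw [hSdef]
    exact thickening_subset_cthickening _ _ h
  have hWs := contDiff_hamW hχ
  have hχS' : ∀ x ∉ S, hamW χ =ᶠ[𝓝 x] fun _ => 0 := by
    intro x hx
    have hχe : ∀ y ∉ S, χ =ᶠ[𝓝 y] fun _ => 0 := by
      intro y hy
      filter_upwards [hS.isClosed.isOpen_compl.mem_nhds hy] with z hz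
      exact hχS z hz
    filter_upwards [hS.isClosed.isOpen_compl.mem_nhds hx] with y hy
    unfold hamW
    rw [hχS y hy, (hχe y hy).fderiv_eq]
    refine ContinuousLinearMap.ext fun v => ?_
    simp
  obtain ⟨C₀, hC₀⟩ := hS.exists_bound_of_continuousOn hWs.continuous.continuousOn
  obtain ⟨C₁, hC₁⟩ := hS.exists_bound_of_continuousOn
    (hWs.continuous_fderiv (by simp)).continuousOn
  obtain ⟨C, hCdef⟩ : ∃ C : ℝ, C = max (max C₀ C₁) 1 := ⟨_, rfl⟩
  have hC : 0 < C := by rw [hCdef]; exact lt_of_lt_of_le one_pos (le_max_right _ _)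
  have hb0 : ∀ x, ‖hamW χ x‖ ≤ C := by
    intro x
    by_cases hx : x ∈ S
    · rw [hCdef]
      exact (hC₀ x hx).trans ((le_max_left _ _).trans (le_max_left _ _))
    · rw [(hχS' x hx).self_of_nhds, norm_zero]
      exact hC.le
  have hb1 : ∀ x, ‖fderiv ℝ (hamW χ) x‖ ≤ C := by
    intro x
    by_cases hx : x ∈ S
    · rw [hCdef]
      exact (hC₁ x hx).trans ((le_max_right _ _).trans (le_max_left _ _))
    · rw [(hχS' x hx).fderiv_eq, fderiv_fun_const]
      refine ContinuousLinearMap.opNorm_le_bound _ hC.le fun v => ?_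
      have h0 : ‖(0 : EE n →L[ℝ] EE n)‖ ≤ C * ‖v‖ := by
        rw [norm_zero]; positivity
      exact h0
  refine ⟨S, hS, by rw [hSdef]; exact hsub, min ε (1 / (2 * C)), by positivity, C,
    fun p hp => ?_⟩
  have hp1 : ‖p‖ < ε := hp.trans_le (min_le_left _ _)
  have hp2 : C * ‖p‖ ≤ 1 / 2 := by
    have h := (hp.trans_le (min_le_right _ _)).le
    calc C * ‖p‖ ≤ C * (1 / (2 * C)) := by gcongr
      _ = 1 / 2 := by field_simp
  obtain ⟨V, hVdef⟩ : ∃ V : EE n → EE n,
      V = fun x => (1 : ℝ) • lf (fun _ => om0 n) (fderiv ℝ (hamH χ p)) x := ⟨_, rfl⟩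
  have hVW : V = fun x => hamW χ x p := by
    rw [hVdef]
    funext x
    rw [one_smul, lf_hamH hχ]
  have hVx : ∀ x, V x = hamW χ x p := fun x => congrFun hVW x
  have hV : ContDiff ℝ ∞ V := by
    rw [hVW]
    exact hWs.clm_apply contDiff_const
  have hb : ∀ x, ‖fderiv ℝ V x‖ ≤ 1 / 2 := by
    intro x
    have h1 : HasFDerivAt (hamW χ) (fderiv ℝ (hamW χ) x) x :=
      (hWs.differentiable (by simp) x).hasFDerivAt
    have h2 : HasFDerivAt V ((fderiv ℝ (hamW χ) x).flip p) x := by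
      rw [hVW]
      have h3 := h1.clm_apply (hasFDerivAt_const p x)
      refine h3.congr_fderiv ?_
      refine ContinuousLinearMap.ext fun v => ?_
      simp
    rw [h2.fderiv]
    refine le_trans ((fderiv ℝ (hamW χ) x).flip.le_opNorm p) ?_
    rw [ContinuousLinearMap.opNorm_flip]
    refine le_trans ?_ hp2
    gcongr
    exact hb1 x
  have hVS : ∀ x ∉ S, V x = 0 := by
    intro x hx
    rw [hVx, (hχS' x hx).self_of_nhds]
    rfl
  have hVT : ∀ x ∈ thickening ε T, V x = p := by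
    intro x hx
    have hχe : χ =ᶠ[𝓝 x] fun _ => 1 := by
      filter_upwards [isOpen_thickening.mem_nhds hx] with y hy
      exact hχ1 y (thickening_subset_cthickening _ _ hy)
    have h1 : fderiv ℝ (hamH χ p) x = om0 n p := by
      rw [fderiv_hamH hχ, hχe.self_of_nhds, hχe.fderiv_eq, fderiv_fun_const]
      simp
    have h2 : lf (fun _ => om0 n) (fderiv ℝ (hamH χ p)) x = p :=
      (eq_lf (symp_om0 n) fun v => by rw [h1]).symm
    rw [hVdef]
    simp only
    rw [h2, one_smul]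
  refine ⟨flow1 V hV hb, ?_, ?_, ?_, ?_⟩
  · intro x hx
    exact flow1_of_curve V hV hb x (fun _ => x) rfl fun s _ => by
      rw [hVS x hx]
      exact hasDerivAt_const s x
  · intro x hx
    have h := flow1_of_curve V hV hb x (fun s => x + s • p) (by simp) fun s hs => by
      have h1 : x + s • p ∈ thickening ε T := by
        refine mem_thickening_iff.2 ⟨x, hx, ?_⟩
        rw [dist_eq_norm, add_sub_cancel_left, norm_smul, Real.norm_eq_abs, abs_of_nonneg hs.1]
        calc s * ‖p‖ ≤ 1 * ‖p‖ := by gcongr; exact hs.2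
          _ = ‖p‖ := one_mul _
          _ < ε := hp1
      rw [hVT _ h1]
      have h2 := ((hasDerivAt_id s).smul_const p).const_add x
      rw [one_smul] at h2
      exact h2
    rw [h, one_smul]
  · intro x
    rw [flow1_apply]
    unfold yy
    rw [add_sub_cancel_left]
    have h := intervalIntegral.norm_integral_le_of_norm_le_const (a := 0) (b := 1)
      (f := fun r => V (ext (sol V hV hb x) r)) (C := C * ‖p‖) (fun s _ => by
        rw [hVx]
        refine le_trans ((hamW χ _).le_opNorm p) ?_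
        gcongr
        exact hb0 _)
    simpa using h
  · intro x v w
    subst hVdef
    have h := flow_scale (symp_om0 n) (lam := fderiv ℝ (hamH χ p))
      ((contDiff_hamH hχ p).fderiv_right (by simp)) (ρ := 0)
      (fun x v w => by rw [dd_hamH hχ, zero_mul]) 1 hV hb x v w
    rw [mul_zero, Real.exp_zero, one_mul] at h
    exact h

end Pool.Agent.H60.Sk
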