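import Pool.Agent.H60.Sy.Moser
import Pool.Agent.H60.Sy.Defs

/-! Fields dual to a one-form: `κ (X, ·) = lam` with `d lam = ρ κ`; the time-one flow of `c • X`
multiplies `κ` by `e ^ (c ρ)` (Liouville fields for `ρ = 1`, Hamiltonian fields for `ρ = 0`). -/

set_option autoImplicit false
set_option linter.unusedSectionVars false

open scoped ContDiff Topology
open Set

namespace Pool.Agent.H60.Sk

open Pool.Agent.H60.Sy

variable {E : Type} [NormedAddCommGroup E] [NormedSpace ℝ E] [FiniteDimensional ℝ E]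

/-- The field dual to the one-form `lam`. -/
noncomputable def lf (κ : E → B2 E) (lam : E → E →L[ℝ] ℝ) (x : E) : E := (κ x).inverse (lam x)

variable {κ : E → B2 E} {lam : E → E →L[ℝ] ℝ}

theorem contDiff_lf (hκ : Symp κ) (hl : ContDiff ℝ ∞ lam) : ContDiff ℝ ∞ (lf κ lam) :=
  (contDiff_inverse hκ.sm hκ.nondeg).clm_apply hl

theorem k_lf (hκ : Symp κ) (x : E) : κ x (lf κ lam x) = lam x := inverse_apply (hκ.nondeg x) _

theorem eq_lf (hκ : Symp κ) {x u : E} (h : ∀ v, κ x u v = lam x v) : u = lf κ lam x := by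
  refine (hκ.nondeg x).injective ?_
  rw [k_lf hκ]
  exact ContinuousLinearMap.ext h

/-- The Lie derivative of `κ` along the dual field is `ρ κ`. -/
theorem lie_lf (hκ : Symp κ) (hl : ContDiff ℝ ∞ lam) {ρ : ℝ}
    (hd : ∀ x v w, dd lam x v w = ρ * κ x v w) (x a b : E) :
    fderiv ℝ κ x (lf κ lam x) a b + κ x (fderiv ℝ (lf κ lam) x a) b
      + κ x a (fderiv ℝ (lf κ lam) x b) = ρ * κ x a b := by
  have key : ∀ a w : E, fderiv ℝ κ x a (lf κ lam x) w + κ x (fderiv ℝ (lf κ lam) x a) w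
      = fderiv ℝ lam x a w := by
    intro a w
    have hk : HasFDerivAt κ (fderiv ℝ κ x) x := (hκ.sm.differentiable (by simp) x).hasFDerivAt
    have hX : HasFDerivAt (lf κ lam) (fderiv ℝ (lf κ lam) x) x :=
      ((contDiff_lf hκ hl).differentiable (by simp) x).hasFDerivAt
    have h1 := hk.clm_apply hX
    have h2 : (fun q => κ q (lf κ lam q)) = lam := by
      funext q; exact k_lf hκ q
    rw [h2] at h1
    have h3 := h1.fderiv
    have h4 := congrArg (fun A : E →L[ℝ] E →L[ℝ] ℝ => A a w) h3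
    simp only [add_apply, ContinuousLinearMap.comp_apply, ContinuousLinearMap.flip_apply] at h4
    rw [h4]
    ring
  have k1 := key a b
  have k2 := key b a
  have ck := hκ.closed x (lf κ lam x) a b
  have al := hκ.alt x a (fderiv ℝ (lf κ lam) x b)
  have hk := hd x a b
  rw [dd_apply] at hk
  rw [al, ← hk]
  linear_combination k1 - k2 + ck

/-- The time-one flow of a field that is `c • X` near a trajectory multiplies `κ` by `e ^ (c ρ)` there. -/
theorem flow_scale_local (hκ : Symp κ) (hl : ContDiff ℝ ∞ lam) {ρ : ℝ}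
    (hd : ∀ x v w, dd lam x v w = ρ * κ x v w) (c : ℝ) {V : E → E} (hV : ContDiff ℝ ∞ V)
    (hb : ∀ x, ‖fderiv ℝ V x‖ ≤ 1 / 2) (x : E)
    (hloc : ∀ s ∈ Icc (0:ℝ) 1, V =ᶠ[𝓝 (yy V hV hb x s)] fun y => c • lf κ lam y) (a b : E) :
    κ (flow1 V hV hb x) (fderiv ℝ (flow1 V hV hb) x a) (fderiv ℝ (flow1 V hV hb) x b)
      = Real.exp (c * ρ) * κ x a b := by
  rw [flow1_apply, fderiv_flow1, fderiv_flow1]
  have hcon := eq_of_hasDerivAt_zero (f := fun s => Real.exp (-(c * ρ) * s) *
      κ (yy V hV hb x s) (zz V hV hb x a s) (zz V hV hb x b s)) (fun s hs => by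
    have h1 := hasDerivAt_yy V hV hb hs x
    have ha := hasDerivAt_zz V hV hb hs x a
    have hb' := hasDerivAt_zz V hV hb hs x b
    have hk : HasFDerivAt κ (fderiv ℝ κ (yy V hV hb x s)) (yy V hV hb x s) :=
      (hκ.sm.differentiable (by simp) _).hasFDerivAt
    have hk2 := comp_hasDerivAt' (G := E →L[ℝ] E →L[ℝ] ℝ) hk h1
    have h5 := (hk2.clm_apply ha).clm_apply hb'
    have hlin : HasDerivAt (fun s : ℝ => -(c * ρ) * s) (-(c * ρ)) s := by
      have h := (hasDerivAt_id s).const_mul (-(c * ρ))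
      rw [mul_one] at h
      exact h
    have hexp := hlin.exp
    have h6 := hexp.mul h5
    have hX : ∀ u, fderiv ℝ V (yy V hV hb x s) u = c • fderiv ℝ (lf κ lam) (yy V hV hb x s) u := by
      intro u
      have hX : HasFDerivAt (lf κ lam) (fderiv ℝ (lf κ lam) (yy V hV hb x s)) (yy V hV hb x s) :=
        ((contDiff_lf hκ hl).differentiable (by simp) _).hasFDerivAt
      have h := (hasFDerivAt_const_smul' hX c).fderiv
      rw [(hloc s hs).fderiv_eq, h]; rfl
    have hX0 : V (yy V hV hb x s) = c • lf κ lam (yy V hV hb x s) := (hloc s hs).self_of_nhds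
    have hlie := lie_lf hκ hl hd (yy V hV hb x s) (zz V hV hb x a s) (zz V hV hb x b s)
    refine h6.congr_deriv ?_
    simp only [hX, hX0, map_smul, add_apply, smul_apply, smul_eq_mul]
    linear_combination (c * Real.exp (-(c * ρ) * s)) * hlie)
  simp only [yy_zero, zz_zero, mul_zero, Real.exp_zero, one_mul, mul_one] at hcon
  rw [← hcon, ← mul_assoc, ← Real.exp_add]
  simp

/-- The time-one flow of `c • X` multiplies `κ` by `e ^ (c ρ)`. -/
theorem flow_scale (hκ : Symp κ) (hl : ContDiff ℝ ∞ lam) {ρ : ℝ}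
    (hd : ∀ x v w, dd lam x v w = ρ * κ x v w) (c : ℝ)
    (hV : ContDiff ℝ ∞ (fun x => c • lf κ lam x))
    (hb : ∀ x, ‖fderiv ℝ (fun x => c • lf κ lam x) x‖ ≤ 1 / 2) (x a b : E) :
    κ (flow1 (fun x => c • lf κ lam x) hV hb x)
      (fderiv ℝ (flow1 (fun x => c • lf κ lam x) hV hb) x a)
      (fderiv ℝ (flow1 (fun x => c • lf κ lam x) hV hb) x b) = Real.exp (c * ρ) * κ x a b :=
  flow_scale_local hκ hl hd c hV hb x (fun _ _ => Filter.EventuallyEq.rfl) a b

end Pool.Agent.H60.Sk
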