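import Pool.Agent.H60.Sk.Pert2

/-! General position for symplectic immersions in the space with the same form. -/

set_option autoImplicit false
set_option linter.unusedSectionVars false

open scoped ContDiff Topology
open Set Metric

namespace Pool.Agent.H60.Sk

open Pool.Agent.H60.Sy

section

variable {n : ℕ} {κ : EE n → B2 (EE n)}

/-- Immersions of `(U, κ)` in the space with the same form. -/
structure Kim (κ : EE n → B2 (EE n)) (U : Set (EE n)) (φ : EE n → EE n) : Prop where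
  op : IsOpen U
  sm : ContDiffOn ℝ ∞ φ U
  pb : ∀ x ∈ U, ∀ v w, κ (φ x) (fderiv ℝ φ x v) (fderiv ℝ φ x w) = κ x v w

theorem Kim.hasFDerivAt {U : Set (EE n)} {φ : EE n → EE n} (hI : Kim κ U φ) {x : EE n}
    (hx : x ∈ U) : HasFDerivAt φ (fderiv ℝ φ x) x :=
  ((hI.sm.contDiffAt (hI.op.mem_nhds hx)).differentiableAt (by simp)).hasFDerivAt

theorem Kim.post {U : Set (EE n)} {φ : EE n → EE n} (hI : Kim κ U φ) {s : Dif (EE n)}
    (hs : Sd κ s) : Kim κ U (fun x => s (φ x)) := by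
  refine ⟨hI.op, s.sm.comp_contDiffOn hI.sm, fun x hx v w => ?_⟩
  have h1 : HasFDerivAt (fun x => s (φ x)) ((fderiv ℝ s (φ x)).comp (fderiv ℝ φ x)) x :=
    (s.hasFDerivAt _).comp x (hI.hasFDerivAt hx)
  rw [h1.fderiv, ContinuousLinearMap.comp_apply, ContinuousLinearMap.comp_apply, hs, hI.pb x hx]

/-- Conjugation by a conformal diffeomorphism. -/
theorem Kim.conj {U O : Set (EE n)} {φ : EE n → EE n} (hI : Kim κ U φ) {g : Dif (EE n)} {Q : ℝ}
    (hQ : Q ≠ 0) (hg : ∀ x v w, κ (g x) (fderiv ℝ g x v) (fderiv ℝ g x w) = Q * κ x v w)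
    (hO : IsOpen O) (hOU : ∀ x ∈ O, g x ∈ U) : Kim κ O (fun x => g.symm (φ (g x))) := by
  have hsm : ContDiffOn ℝ ∞ (fun x => g.symm (φ (g x))) O :=
    g.symm.sm.comp_contDiffOn (hI.sm.comp g.sm.contDiffOn fun x hx => hOU x hx)
  refine ⟨hO, hsm, fun x hx v w => ?_⟩
  obtain ⟨J, hJ⟩ : ∃ J : EE n → EE n, J = fun x => g.symm (φ (g x)) := ⟨_, rfl⟩
  rw [← hJ] at hsm ⊢
  have h0 : HasFDerivAt J (fderiv ℝ J x) x :=
    ((hsm.contDiffAt (hO.mem_nhds hx)).differentiableAt (by simp)).hasFDerivAt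
  have h1 : ∀ y, g (J y) = φ (g y) := by
    intro y
    rw [hJ]
    exact g.apply_symm_apply _
  have h2 : ∀ v, fderiv ℝ g (J x) (fderiv ℝ J x v) = fderiv ℝ φ (g x) (fderiv ℝ g x v) := by
    have e1 : HasFDerivAt (fun y => g (J y)) ((fderiv ℝ g (J x)).comp (fderiv ℝ J x)) x :=
      (g.hasFDerivAt _).comp x h0
    have e2 : HasFDerivAt (fun y => φ (g y)) ((fderiv ℝ φ (g x)).comp (fderiv ℝ g x)) x :=
      (hI.hasFDerivAt (hOU x hx)).comp x (g.hasFDerivAt x)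
    have e3 : (fun y => g (J y)) = fun y => φ (g y) := funext h1
    rw [e3] at e1
    have e4 := e1.unique e2
    intro v
    exact congrArg (fun A : EE n →L[ℝ] EE n => A v) e4
  have h3 := hg (J x) (fderiv ℝ J x v) (fderiv ℝ J x w)
  have h4 := hI.pb (g x) (hOU x hx) (fderiv ℝ g x v) (fderiv ℝ g x w)
  have h5 := hg x v w
  have hJx : J x = g.symm (φ (g x)) := by rw [hJ]
  rw [h1, h2, h2, h4, h5] at h3
  rw [hJx] at h3
  exact (mul_left_cancel₀ hQ h3).symm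

end

section

variable {n : ℕ} {κ : EE n → B2 (EE n)} {U : Set (EE n)} {φ : EE n → EE n}

theorem Kim.loc (hI : Kim κ U φ) (hκ : ∀ x, Nondeg (κ x)) {x : EE n} (hx : x ∈ U) :
    Filter.map φ (𝓝 x) = 𝓝 (φ x) ∧ ∃ N ∈ 𝓝 x, InjOn φ N := by
  have hc : ContDiffAt ℝ ∞ φ x := hI.sm.contDiffAt (hI.op.mem_nhds hx)
  have hker : Function.Injective (fderiv ℝ φ x) := by
    rw [injective_iff_map_eq_zero]
    intro v hv
    apply hκ x v
    intro w
    rw [← hI.pb x hx, hv, map_zero]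
    rfl
  obtain ⟨e, he⟩ : ∃ e : EE n ≃L[ℝ] EE n, (e : EE n →L[ℝ] EE n) = fderiv ℝ φ x := by
    refine ⟨(LinearEquiv.ofInjectiveEndo (fderiv ℝ φ x : EE n →ₗ[ℝ] EE n)
      hker).toContinuousLinearEquiv, ?_⟩
    refine ContinuousLinearMap.ext fun v => ?_
    rfl
  have hd : HasFDerivAt φ (e : EE n →L[ℝ] EE n) x := by
    rw [he]
    exact (hc.differentiableAt (by simp)).hasFDerivAt
  have hst : HasStrictFDerivAt φ (e : EE n →L[ℝ] EE n) x :=
    hc.hasStrictFDerivAt' hd (by simp)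
  refine ⟨hst.map_nhds_eq_of_equiv, (hst.toOpenPartialHomeomorph φ).source,
    (hst.toOpenPartialHomeomorph φ).open_source.mem_nhds hst.mem_toOpenPartialHomeomorph_source, ?_⟩
  have h := (hst.toOpenPartialHomeomorph φ).injOn
  rw [hst.toOpenPartialHomeomorph_coe] at h
  exact h

theorem gd_diag' (hI : Kim κ U φ) (hκ : ∀ x, Nondeg (κ x)) {x : EE n} (hx : x ∈ U) :
    (x, x) ∈ Gd φ := by
  obtain ⟨_, N, hN, hinj⟩ := hI.loc hκ hx
  refine mem_interior_iff_mem_nhds.2 (Filter.mem_of_superset (prod_mem_nhds hN hN) ?_)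
  rintro ⟨y, z⟩ ⟨hy, hz⟩ h
  exact hinj hy hz h

theorem Kim.continuousAt (hI : Kim κ U φ) {x : EE n} (hx : x ∈ U) : ContinuousAt φ x :=
  (hI.sm.contDiffAt (hI.op.mem_nhds hx)).continuousAt

theorem pert2 (hκ : Symp κ) (hI : Kim κ U φ) {a b : EE n} {ρ r : ℝ}
    (hL : closedBall a ρ ⊆ U) (hLL : closedBall a ρ ×ˢ closedBall a ρ ⊆ Gd φ)
    {P T : Set (EE n)} (hP : IsCompact P) (hT : IsCompact T) (hPL : P ⊆ ball a ρ)
    (hTL : Disjoint T (closedBall a ρ)) (hTb : T ⊆ closedBall b r) (hb : closedBall b r ⊆ U)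
    (hnull : MeasureTheory.Measure.hausdorffMeasure (Module.finrank ℝ (EE n) : ℝ) (P ×ˢ T) = 0)
    {Q : Set (EE n × EE n)} (hQ : IsCompact Q)
    (hQG : Q ⊆ Gd φ) :
    ∃ φ' : EE n → EE n, Kim κ U φ' ∧ (∀ x ∈ U, φ' x ∈ φ '' U) ∧ Q ∪ P ×ˢ T ⊆ Gd φ' := by
  classical
  have hinjL : InjOn φ (closedBall a ρ) := by
    intro x hx y hy h
    have h0 : ((x, y) : EE n × EE n) ∈ {q : EE n × EE n | φ q.1 = φ q.2 → q.1 = q.2} :=
      interior_subset (hLL (mk_mem_prod hx hy))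
    exact h0 h
  obtain ⟨B, hBdef⟩ : ∃ B : Set (EE n), B = ball a ρ := ⟨_, rfl⟩
  have hBo : IsOpen B := by rw [hBdef]; exact isOpen_ball
  have hBL : B ⊆ closedBall a ρ := by rw [hBdef]; exact ball_subset_closedBall
  have hBU : B ⊆ U := hBL.trans hL
  have hPB : P ⊆ B := by rw [hBdef]; exact hPL
  have hinjB : InjOn φ B := hinjL.mono hBL
  obtain ⟨ψ, hψdef⟩ : ∃ ψ : EE n → EE n, ψ = Function.invFunOn φ B := ⟨_, rfl⟩
  have hψ : ∀ x ∈ B, ψ (φ x) = x := by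
    intro x hx
    rw [hψdef]
    exact hinjB.leftInvOn_invFunOn hx
  have hVo : IsOpen (φ '' B) := by
    rw [isOpen_iff_mem_nhds]
    rintro _ ⟨x, hx, rfl⟩
    rw [← (hI.loc hκ.nondeg (hBU hx)).1]
    exact Filter.image_mem_map (hBo.mem_nhds hx)
  have hψc : ∀ y ∈ φ '' B, ContinuousAt ψ y := by
    rintro _ ⟨x, hx, rfl⟩
    unfold ContinuousAt
    rw [hψ x hx, ← (hI.loc hκ.nondeg (hBU hx)).1, Filter.tendsto_map'_iff]
    have h1 : ψ ∘ φ =ᶠ[𝓝 x] id := by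
      filter_upwards [hBo.mem_nhds hx] with z hz
      exact hψ z hz
    exact (Filter.tendsto_congr' h1).2 Filter.tendsto_id
  obtain ⟨S, hS, hSV, δ, hδ, C, hC, L, hL0, g₀, hg4, hg1, hg3, hest⟩ := famT hκ (T := φ '' P)
    (O := φ '' B)
    (hP.image_of_continuousOn (hI.sm.continuousOn.mono (hPB.trans hBU))) hVo (image_mono hPB)
  have hψS : ContinuousOn ψ S := fun y hy => (hψc y (hSV hy)).continuousWithinAt
  have hS' : IsCompact (ψ '' S) := hS.image_of_continuousOn hψS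
  have hS'B : ψ '' S ⊆ B := by
    rintro _ ⟨y, hy, rfl⟩
    obtain ⟨x, hx, rfl⟩ := hSV hy
    rw [hψ x hx]; exact hx
  -- the size of the perturbation
  obtain ⟨ε, hε, hεQ⟩ := hQ.exists_thickening_subset_open isOpen_interior hQG
  have huc := hS.uniformContinuousOn_of_continuous hψS
  rw [Metric.uniformContinuousOn_iff] at huc
  obtain ⟨η, hη, hψu⟩ := huc ε hε
  -- the parameter
  have hTU : T ⊆ U := hTb.trans hb
  have hnull' : MeasureTheory.Measure.hausdorffMeasure (Module.finrank ℝ (EE n) : ℝ)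
      ((φ '' P) ×ˢ (φ '' T)) = 0 := by
    have e1 : (φ '' P) ×ˢ (φ '' T) = (fun z : EE n × EE n => (φ z.1, φ z.2)) '' (P ×ˢ T) := by
      ext z
      constructor
      · rintro ⟨⟨x, hx, hxz⟩, ⟨y, hy, hyz⟩⟩
        exact ⟨(x, y), ⟨hx, hy⟩, Prod.ext hxz hyz⟩
      · rintro ⟨w, ⟨hw1, hw2⟩, rfl⟩
        exact ⟨⟨w.1, hw1, rfl⟩, ⟨w.2, hw2, rfl⟩⟩
    rw [e1]
    refine null_image (fun w hw => ?_) (hP.prod hT) (Nat.cast_nonneg _) hnull
    have f1 : ContDiffAt ℝ ∞ φ w.1 := hI.sm.contDiffAt (hI.op.mem_nhds (hBU (hPB hw.1)))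
    have f2 : ContDiffAt ℝ ∞ φ w.2 := hI.sm.contDiffAt (hI.op.mem_nhds (hTU hw.2))
    exact ((f1.comp w contDiffAt_fst).prodMk (f2.comp w contDiffAt_snd)).of_le (by simp)
  obtain ⟨p, hp1, hp2', hpA⟩ := avoid (A := φ '' T) hδ hL0 hest Subset.rfl (ε := η / C)
    (div_pos hη hC) hnull'
  have hp2 : C * ‖p‖ < η := by
    rw [lt_div_iff₀ hC] at hp2'
    linarith
  obtain ⟨g, hgdef⟩ : ∃ g : Dif (EE n), g = g₀ p := ⟨_, rfl⟩
  have hg4 := hg4 p hp1
  have hg1 := hg1 p hp1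
  have hg3 := hg3 p hp1
  rw [← hgdef] at hg4 hg1 hg3 hpA
  obtain ⟨h, hh⟩ : ∃ h : EE n → EE n, ∀ x, h x = if x ∈ B then ψ (g (φ x)) else x := ⟨_, fun _ => rfl⟩
  have hgV : ∀ x ∈ B, g (φ x) ∈ φ '' B := by
    intro x hx
    by_cases hs : φ x ∈ S
    · exact hSV (Dif.mem_of_fix hg1 hs)
    · rw [hg1 _ hs]; exact ⟨x, hx, rfl⟩
  have hB1 : ∀ x ∈ B, h x ∈ B := by
    intro x hx
    obtain ⟨y, hy, hyx⟩ := hgV x hx
    rw [hh, if_pos hx, ← hyx, hψ y hy]; exact hy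
  have hB2 : ∀ x ∈ B, φ (h x) = g (φ x) := by
    intro x hx
    obtain ⟨y, hy, hyx⟩ := hgV x hx
    rw [hh, if_pos hx, ← hyx, hψ y hy]
  have hout : ∀ x ∉ B, h x = x := fun x hx => by rw [hh, if_neg hx]
  have hfix : ∀ x ∉ ψ '' S, h x = x := by
    intro x hx
    by_cases hxB : x ∈ B
    · have hs : φ x ∉ S := fun hs => hx ⟨φ x, hs, hψ x hxB⟩
      rw [hh, if_pos hxB, hg1 _ hs, hψ x hxB]
    · exact hout x hxB
  have hev1 : ∀ x ∈ B, (fun x => φ (h x)) =ᶠ[𝓝 x] fun x => g (φ x) := by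
    intro x hx
    filter_upwards [hBo.mem_nhds hx] with z hz
    exact hB2 z hz
  have hev2 : ∀ x ∉ B, h =ᶠ[𝓝 x] fun x => x := by
    intro x hx
    have : x ∈ (ψ '' S)ᶜ := fun h' => hx (hS'B h')
    filter_upwards [hS'.isClosed.isOpen_compl.mem_nhds this] with z hz
    exact hfix z hz
  have hc : Continuous h := by
    rw [continuous_iff_continuousAt]
    intro x
    by_cases hx : x ∈ B
    · have h1 : h =ᶠ[𝓝 x] fun x => ψ (g (φ x)) := by
        filter_upwards [hBo.mem_nhds hx] with z hz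
        rw [hh, if_pos hz]
      have h2 : ContinuousAt (fun x => g (φ x)) x :=
        ContinuousAt.comp (g := g) (f := φ) g.continuous.continuousAt (hI.continuousAt (hBU hx))
      have h3 : ContinuousAt (fun x => ψ (g (φ x))) x :=
        ContinuousAt.comp (g := ψ) (f := fun x => g (φ x)) (hψc _ (hgV x hx)) h2
      exact h3.congr h1.symm
    · exact continuousAt_id.congr (hev2 x hx).symm
  have hi : Function.Injective h := by
    intro x y hxy
    by_cases hx : x ∈ B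
    · by_cases hy : y ∈ B
      · have h1 : g (φ x) = g (φ y) := by rw [← hB2 x hx, ← hB2 y hy, hxy]
        exact hinjB hx hy (g.injective h1)
      · exact absurd (by rw [← hout y hy, ← hxy]; exact hB1 x hx) hy
    · by_cases hy : y ∈ B
      · exact absurd (by rw [← hout x hx, hxy]; exact hB1 y hy) hx
      · rw [← hout x hx, hxy, hout y hy]
  have hclose : ∀ x, dist (h x) x < ε := by
    intro x
    by_cases hx : x ∈ ψ '' S
    · have hxB := hS'B hx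
      obtain ⟨y, hy, hyx⟩ := hx
      have hφx : φ x = y := by
        obtain ⟨z, hz, rfl⟩ := hSV hy
        rw [← hyx, hψ z hz]
      have h1 := hψu (g y) (Dif.mem_of_fix hg1 hy) y hy (by
        rw [dist_eq_norm]; exact (hg3 y).trans_lt hp2)
      rw [hh, if_pos hxB, hφx]
      rw [hyx] at h1
      exact h1
    · rw [hfix x hx, dist_self]; exact hε
  have hI' : Kim κ U (fun x => φ (h x)) := by
    refine ⟨hI.op, fun x hx => ContDiffAt.contDiffWithinAt ?_, fun x hx v w => ?_⟩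
    · have hφx : ContDiffAt ℝ ∞ φ x := hI.sm.contDiffAt (hI.op.mem_nhds hx)
      by_cases hxB : x ∈ B
      · exact (ContDiffAt.comp x g.sm.contDiffAt hφx).congr_of_eventuallyEq (hev1 x hxB)
      · refine hφx.congr_of_eventuallyEq ?_
        filter_upwards [hev2 x hxB] with z hz
        rw [hz]
    · by_cases hxB : x ∈ B
      · rw [(hev1 x hxB).fderiv_eq]
        have h1 : HasFDerivAt φ (fderiv ℝ φ x) x :=
          ((hI.sm.contDiffAt (hI.op.mem_nhds hx)).differentiableAt (by simp)).hasFDerivAt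
        have h2 : HasFDerivAt (fun x => g (φ x)) ((fderiv ℝ g (φ x)).comp (fderiv ℝ φ x)) x :=
          (g.hasFDerivAt (φ x)).comp x h1
        rw [h2.fderiv, ContinuousLinearMap.comp_apply, ContinuousLinearMap.comp_apply, hB2 x hxB,
          hg4]
        exact hI.pb x hx v w
      · have h1 : (fun x => φ (h x)) =ᶠ[𝓝 x] φ := by
          filter_upwards [hev2 x hxB] with z hz
          rw [hz]
        rw [h1.fderiv_eq, hout x hxB]
        exact hI.pb x hx v w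
  refine ⟨fun x => φ (h x), hI', fun x hx => ?_, ?_⟩
  · by_cases hxB : x ∈ B
    · exact ⟨h x, hBU (hB1 x hxB), rfl⟩
    · exact ⟨x, hx, (congrArg φ (hout x hxB)).symm⟩
  rintro ⟨x, y⟩ (hxy | ⟨hx, hy⟩)
  · refine gd_comp hc hi (hεQ (mem_thickening_iff.2 ⟨(x, y), hxy, ?_⟩))
    rw [Prod.dist_eq]
    exact max_lt (hclose x) (hclose y)
  · have hyL : y ∉ closedBall a ρ := fun h' => hTL.ne_of_mem hy h' rfl
    have hyB : y ∉ B := fun h' => hyL (hBL h')
    refine gd_ne (hI'.continuousAt (hBU (hPB hx))) (hI'.continuousAt (hTU hy)) ?_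
    intro heq
    have heq' : φ (h x) = φ (h y) := heq
    rw [hB2 x (hPB hx), hout y hyB] at heq'
    exact hpA (φ x) ⟨x, hx, rfl⟩ ⟨y, hy, heq'.symm⟩

theorem general_position2 (hκ : Symp κ) (hI : Kim κ U φ) {Z : Set (EE n)} (hZ : IsCompact Z) (hZU : Z ⊆ U)
    (hdbl : SmallDbl φ Z) :
    ∃ φ' : EE n → EE n, Kim κ U φ' ∧ (∀ x ∈ U, φ' x ∈ φ '' U) ∧ InjOn φ' Z := by
  classical
  have hΔ : IsCompact ((fun x : EE n => (x, x)) '' Z) :=
    hZ.image (continuous_id.prodMk continuous_id)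
  have hΔG : (fun x : EE n => (x, x)) '' Z ⊆ Gd φ := by
    rintro _ ⟨x, hx, rfl⟩
    exact gd_diag' hI hκ.nondeg (hZU hx)
  obtain ⟨ε₁, hε₁, h1⟩ := hΔ.exists_thickening_subset_open isOpen_interior hΔG
  obtain ⟨ε₂, hε₂, h2⟩ := hZ.exists_thickening_subset_open hI.op hZU
  -- every pair has a neighbourhood that is good or null
  have hloc : ∀ q : EE n × EE n, q ∈ Z ×ˢ Z → ∃ W : Set (EE n × EE n), IsOpen W ∧ q ∈ W ∧
      (W ⊆ Gd φ ∨ MeasureTheory.Measure.hausdorffMeasure (Module.finrank ℝ (EE n) : ℝ)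
        (W ∩ Z ×ˢ Z) = 0) := by
    rintro ⟨x, y⟩ ⟨hx, hy⟩
    by_cases hne : x = y
    · refine ⟨Gd φ, isOpen_interior, ?_, Or.inl Subset.rfl⟩
      rw [← hne]
      exact gd_diag' hI hκ.nondeg (hZU hx)
    · by_cases he : φ x = φ y
      · obtain ⟨W, hW, h0⟩ := hdbl x hx y hy hne he
        obtain ⟨W', hW', hWo, hxy⟩ := _root_.mem_nhds_iff.1 hW
        exact ⟨W', hWo, hxy, Or.inr (MeasureTheory.measure_mono_null
          (inter_subset_inter_left _ hW') h0)⟩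
      · exact ⟨Gd φ, isOpen_interior, gd_ne (hI.continuousAt (hZU hx))
          (hI.continuousAt (hZU hy)) he, Or.inl Subset.rfl⟩
  choose! W hWo hWm hWp using hloc
  obtain ⟨ε₃, hε₃, h3⟩ := lebesgue_number_lemma_of_metric (hZ.prod hZ)
    (c := fun q : (Z ×ˢ Z : Set (EE n × EE n)) => W q) (fun q => hWo q.1 q.2)
    (fun q hq => mem_iUnion.2 ⟨⟨q, hq⟩, hWm q hq⟩)
  obtain ⟨δ, hδdef⟩ : ∃ δ : ℝ, δ = min (min ε₁ ε₂) ε₃ / 8 := ⟨_, rfl⟩
  have hδ : 0 < δ := by rw [hδdef]; positivity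
  have hδ1 : 4 * δ < ε₁ := by
    have e1 := min_le_left ε₁ ε₂
    have e2 := min_le_left (min ε₁ ε₂) ε₃
    rw [hδdef]; linarith
  have hδ2 : 4 * δ < ε₂ := by
    have e1 := min_le_right ε₁ ε₂
    have e2 := min_le_left (min ε₁ ε₂) ε₃
    rw [hδdef]; linarith
  have hδ3 : δ < ε₃ := by
    have e2 := min_le_right (min ε₁ ε₂) ε₃
    rw [hδdef]; linarith
  have c1 : ∀ x ∈ Z, closedBall x (4 * δ) ×ˢ closedBall x (4 * δ) ⊆ Gd φ := by
    rintro x hx ⟨y, z⟩ ⟨hy, hz⟩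
    refine h1 (mem_thickening_iff.2 ⟨(x, x), ⟨x, hx, rfl⟩, ?_⟩)
    rw [Prod.dist_eq]
    exact max_lt ((mem_closedBall.1 hy).trans_lt hδ1) ((mem_closedBall.1 hz).trans_lt hδ1)
  have c2 : ∀ x ∈ Z, closedBall x (4 * δ) ⊆ U := by
    intro x hx y hy
    exact h2 (mem_thickening_iff.2 ⟨x, hx, (mem_closedBall.1 hy).trans_lt hδ2⟩)
  obtain ⟨t, htZ, htf, htc⟩ := hZ.finite_cover_balls hδ
  obtain ⟨P, hP⟩ : ∃ P : EE n → Set (EE n), ∀ a, P a = closedBall a δ ∩ Z := ⟨_, fun _ => rfl⟩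
  have hPc : ∀ a, IsCompact (P a) := fun a => by
    rw [hP]; exact (isCompact_closedBall _ _).inter hZ
  have hPb : ∀ a, P a ⊆ closedBall a δ := fun a => by rw [hP]; exact inter_subset_left
  have hPZ : ∀ a, P a ⊆ Z := fun a => by rw [hP]; exact inter_subset_right
  have hPP : ∀ a ∈ t, ∀ b ∈ t, P a ×ˢ P b ⊆ Gd φ ∨
      MeasureTheory.Measure.hausdorffMeasure (Module.finrank ℝ (EE n) : ℝ) (P a ×ˢ P b) = 0 := by
    intro a ha b hb
    obtain ⟨q, hq⟩ := h3 (a, b) ⟨htZ ha, htZ hb⟩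
    have hsub : P a ×ˢ P b ⊆ W q := by
      rintro ⟨x, y⟩ ⟨hx, hy⟩
      refine hq ?_
      rw [mem_ball, Prod.dist_eq]
      exact max_lt ((mem_closedBall.1 (hPb a hx)).trans_lt hδ3)
        ((mem_closedBall.1 (hPb b hy)).trans_lt hδ3)
    rcases hWp q.1 q.2 with h | h
    · exact Or.inl (hsub.trans h)
    · exact Or.inr (MeasureTheory.measure_mono_null
        (subset_inter hsub (prod_mono (hPZ a) (hPZ b))) h)
  obtain ⟨tf, htf'⟩ : ∃ tf : Finset (EE n), tf = htf.toFinset := ⟨_, rfl⟩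
  have htm : ∀ a, a ∈ tf ↔ a ∈ t := fun a => by rw [htf', Set.Finite.mem_toFinset]
  obtain ⟨G₀, hG₀⟩ : ∃ G₀ : Finset (EE n × EE n),
      G₀ = (tf ×ˢ tf).filter fun q => P q.1 ×ˢ P q.2 ⊆ Gd φ := ⟨_, rfl⟩
  obtain ⟨Q₀, hQ₀⟩ : ∃ Q₀ : Set (EE n × EE n),
      Q₀ = (⋃ a ∈ t, closedBall a (4 * δ) ×ˢ closedBall a (4 * δ)) ∪
        ⋃ q ∈ G₀, P q.1 ×ˢ P q.2 := ⟨_, rfl⟩
  have hQ₀c : IsCompact Q₀ := by
    rw [hQ₀]
    exact (htf.isCompact_biUnion fun a _ =>
      (isCompact_closedBall _ _).prod (isCompact_closedBall _ _)).union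
      (G₀.finite_toSet.isCompact_biUnion fun q _ => (hPc _).prod (hPc _))
  have hQ₀a : ∀ a ∈ t, closedBall a (4 * δ) ×ˢ closedBall a (4 * δ) ⊆ Q₀ := by
    intro a ha
    rw [hQ₀]
    exact (subset_biUnion_of_mem
      (u := fun a => closedBall a (4 * δ) ×ˢ closedBall a (4 * δ)) ha).trans subset_union_left
  have hQ₀p : ∀ a ∈ t, ∀ b ∈ t, P a ×ˢ P b ⊆ Gd φ → P a ×ˢ P b ⊆ Q₀ := by
    intro a ha b hb hab
    rw [hQ₀]
    refine Subset.trans ?_ subset_union_right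
    have hm : (a, b) ∈ G₀ := by
      rw [hG₀, Finset.mem_filter, Finset.mem_product, htm, htm]
      exact ⟨⟨ha, hb⟩, hab⟩
    exact fun z hz => mem_iUnion₂.2 ⟨(a, b), hm, hz⟩
  have hQ₀G : Q₀ ⊆ Gd φ := by
    rw [hQ₀]
    refine union_subset (iUnion₂_subset fun a ha => c1 a (htZ ha)) (iUnion₂_subset fun q hq => ?_)
    rw [hG₀, Finset.mem_filter] at hq
    exact hq.2
  have key : ∀ F : Finset (EE n × EE n), (∀ q ∈ F, q.1 ∈ t ∧ q.2 ∈ t ∧ 3 * δ < dist q.1 q.2 ∧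
      MeasureTheory.Measure.hausdorffMeasure (Module.finrank ℝ (EE n) : ℝ)
        (P q.1 ×ˢ P q.2) = 0) →
      ∃ φ' : EE n → EE n, Kim κ U φ' ∧ (∀ x ∈ U, φ' x ∈ φ '' U) ∧
        Q₀ ∪ (⋃ q ∈ F, P q.1 ×ˢ P q.2) ⊆ Gd φ' := by
    intro F
    induction F using Finset.induction_on with
    | empty =>
      intro _
      refine ⟨φ, hI, fun x hx => ⟨x, hx, rfl⟩, ?_⟩
      simpa using hQ₀G
    | insert q F _ ih =>
      intro hF
      obtain ⟨φ₁, hI₁, hR₁, hG₁⟩ := ih fun q' hq' => hF q' (Finset.mem_insert_of_mem hq')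
      obtain ⟨hq1, hq2, hq3, hq4⟩ := hF q (Finset.mem_insert_self _ _)
      have hQc : IsCompact (Q₀ ∪ (⋃ q ∈ F, P q.1 ×ˢ P q.2)) :=
        hQ₀c.union (F.finite_toSet.isCompact_biUnion fun q _ => (hPc _).prod (hPc _))
      have hs4 : closedBall q.1 (2 * δ) ⊆ closedBall q.1 (4 * δ) :=
        closedBall_subset_closedBall (by linarith)
      have hs1 : closedBall q.2 δ ⊆ closedBall q.2 (4 * δ) :=
        closedBall_subset_closedBall (by linarith)
      obtain ⟨φ₂, hI₂, hR₂, hG₂⟩ := pert2 hκ hI₁ (a := q.1) (b := q.2) (ρ := 2 * δ) (r := δ)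
        (P := P q.1) (T := P q.2)
        (hs4.trans (c2 _ (htZ hq1)))
        ((prod_mono hs4 hs4).trans ((hQ₀a _ hq1).trans (subset_union_left.trans hG₁)))
        (hPc q.1) (hPc q.2) ((hPb q.1).trans (closedBall_subset_ball (by linarith)))
        (by
          rw [Set.disjoint_left]
          intro y hy hy'
          have e1 := mem_closedBall.1 (hPb _ hy)
          have e2 := mem_closedBall.1 hy'
          have e3 := dist_triangle_left q.1 q.2 y
          linarith)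
        (hPb q.2)
        (hs1.trans (c2 _ (htZ hq2)))
        hq4 hQc hG₁
      refine ⟨φ₂, hI₂, fun x hx => by
        obtain ⟨y, hy, hyx⟩ := hR₂ x hx
        rw [← hyx]
        exact hR₁ y hy, ?_⟩
      rintro z (hz | hz)
      · exact hG₂ (Or.inl (Or.inl hz))
      · rw [Finset.set_biUnion_insert] at hz
        rcases hz with hz | hz
        · exact hG₂ (Or.inr hz)
        · exact hG₂ (Or.inl (Or.inr hz))
  obtain ⟨φ', hI', hR', hG'⟩ := key ((tf ×ˢ tf).filter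
    fun q => 3 * δ < dist q.1 q.2 ∧ MeasureTheory.Measure.hausdorffMeasure
      (Module.finrank ℝ (EE n) : ℝ) (P q.1 ×ˢ P q.2) = 0) (by
      intro q hq
      rw [Finset.mem_filter, Finset.mem_product, htm, htm] at hq
      exact ⟨hq.1.1, hq.1.2, hq.2.1, hq.2.2⟩)
  refine ⟨φ', hI', hR', fun x hx y hy hxy => ?_⟩
  have hmem : (x, y) ∈ Gd φ' := by
    obtain ⟨a, ha, hxa⟩ := mem_iUnion₂.1 (htc hx)
    obtain ⟨b, hb, hyb⟩ := mem_iUnion₂.1 (htc hy)
    have hxa' := mem_ball.1 hxa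
    have hyb' := mem_ball.1 hyb
    have hxP : x ∈ P a := by
      rw [hP]
      exact ⟨mem_closedBall.2 hxa'.le, hx⟩
    have hyP : y ∈ P b := by
      rw [hP]
      exact ⟨mem_closedBall.2 hyb'.le, hy⟩
    by_cases hab : 3 * δ < dist a b
    · rcases hPP a ha b hb with h | h
      · exact hG' (Or.inl (hQ₀p a ha b hb h ⟨hxP, hyP⟩))
      · refine hG' (Or.inr (mem_iUnion₂.2 ⟨(a, b), ?_, hxP, hyP⟩))
        rw [Finset.mem_filter, Finset.mem_product, htm, htm]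
        exact ⟨⟨ha, hb⟩, hab, h⟩
    · push Not at hab
      refine hG' (Or.inl (hQ₀a a ha ⟨?_, ?_⟩))
      · exact mem_closedBall.2 (by linarith)
      · have e3 := dist_triangle y b a
        rw [dist_comm b a] at e3
        exact mem_closedBall.2 (by linarith)
  have h0 : ((x, y) : EE n × EE n) ∈ {q : EE n × EE n | φ' q.1 = φ' q.2 → q.1 = q.2} :=
    interior_subset hmem
  exact h0 hxy

end

end Pool.Agent.H60.Sk
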