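import Pool.Agent.H60.Sk.Emb
import Pool.Agent.H60.Sk.Pos2

/-! A Liouville form is changed off a compact set to one with a complete field; a diffeomorphism that
displaces the attractor of a Liouville domain gives one that displaces the domain. -/

set_option autoImplicit false
set_option linter.unusedSectionVars false

open scoped ContDiff Topology
open Set Metric

namespace Pool.Agent.H60.Sk

open Pool.Agent.H60.Sy

theorem exact_form {n : ℕ} {η : EE n → EE n →L[ℝ] ℝ} (hη : ContDiff ℝ ∞ η)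
    (h : ∀ x v w, dd η x v w = 0) : ∃ F : EE n → ℝ, ContDiff ℝ ∞ F ∧ ∀ x, fderiv ℝ F x = η x := by
  obtain ⟨F, hF⟩ : ∃ F : EE n → ℝ, ∀ a ∈ (univ : Set (EE n)), HasFDerivAt F (η a) a :=
    (convex_univ (𝕜 := ℝ) (E := EE n)).exists_forall_hasFDerivAt_of_fderiv_symmetric
      isOpen_univ (hη.differentiable (by simp)).differentiableOn (fun x _ v w => by
        have h1 := h x v w
        rw [dd_apply] at h1
        linarith)
  have hF' : ∀ x, HasFDerivAt F (η x) x := fun x => hF x (mem_univ x)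
  have e : fderiv ℝ F = η := funext fun x => (hF' x).fderiv
  refine ⟨F, contDiff_infty_iff_fderiv.2 ⟨fun x => (hF' x).differentiableAt, ?_⟩,
    fun x => (hF' x).fderiv⟩
  rw [e]
  exact hη

theorem complete_mod {n : ℕ} {κ : EE n → B2 (EE n)} {lam mu : EE n → EE n →L[ℝ] ℝ} (hκ : Symp κ)
    (hl : ContDiff ℝ ∞ lam) (hd : ∀ x, dd lam x = κ x) (hm : ContDiff ℝ ∞ mu)
    (hdm : ∀ x, dd mu x = κ x) {r : ℝ}
    (hr : ∀ x ∉ closedBall (0 : EE n) r, lf κ mu x = (1 / 2 : ℝ) • x) {D : Set (EE n)}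
    (hD : IsCompact D) :
    ∃ ν : EE n → EE n →L[ℝ] ℝ, ContDiff ℝ ∞ ν ∧ (∀ x, dd ν x = κ x) ∧
      (∀ x ∈ D, ν x = lam x) ∧ ∃ M, ∀ x, ‖fderiv ℝ (lf κ ν) x‖ ≤ M := by
  obtain ⟨F, hF, hF'⟩ := exact_form (η := fun x => lam x - mu x) (hl.sub hm) (fun x v w => by
    have e : fderiv ℝ (fun x => lam x - mu x) x = fderiv ℝ lam x - fderiv ℝ mu x :=
      fderiv_fun_sub (hl.differentiable (by simp) x) (hm.differentiable (by simp) x)
    have e1 := congrArg (fun A : B2 (EE n) => A v w) (hd x)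
    have e2 := congrArg (fun A : B2 (EE n) => A v w) (hdm x)
    simp only [dd_apply] at e1 e2
    rw [dd_apply, e]
    simp only [sub_apply]
    linarith)
  obtain ⟨ρ, hρ⟩ := hD.isBounded.subset_closedBall 0
  obtain ⟨χ, hχ, hχ0, hχ1⟩ := exists_cut (n := n) (s := (ball 0 (ρ + 2))ᶜ)
    (t := closedBall 0 (ρ + 1)) isOpen_ball.isClosed_compl isClosed_closedBall (by
      rw [disjoint_compl_left_iff_subset]
      exact closedBall_subset_ball (by linarith))
  have hG : ContDiff ℝ ∞ (fun x => χ x * F x) := hχ.mul hF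
  have hG' : ContDiff ℝ ∞ (fderiv ℝ (fun x => χ x * F x)) := hG.fderiv_right (by simp)
  obtain ⟨ν, hν⟩ : ∃ ν : EE n → EE n →L[ℝ] ℝ,
      ν = fun x => mu x + fderiv ℝ (fun x => χ x * F x) x := ⟨_, rfl⟩
  have hνs : ContDiff ℝ ∞ ν := by
    rw [hν]
    exact hm.add hG'
  have hνx : ∀ x, ν x = mu x + fderiv ℝ (fun x => χ x * F x) x := fun x => by rw [hν]
  refine ⟨ν, hνs, ?_, ?_, ?_⟩
  · intro x
    have e : fderiv ℝ ν x = fderiv ℝ mu x + fderiv ℝ (fderiv ℝ (fun x => χ x * F x)) x := by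
      rw [hν]
      exact fderiv_fun_add (hm.differentiable (by simp) x) (hG'.differentiable (by simp) x)
    refine ContinuousLinearMap.ext fun v => ContinuousLinearMap.ext fun w => ?_
    have e1 := dd_fderiv hG x v w
    have e2 := congrArg (fun A : B2 (EE n) => A v w) (hdm x)
    simp only [dd_apply] at e1 e2
    rw [dd_apply, e]
    simp only [add_apply]
    linarith
  · intro x hx
    have e : (fun x => χ x * F x) =ᶠ[𝓝 x] F := by
      have hxb : x ∈ ball (0 : EE n) (ρ + 1) := by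
        have := mem_closedBall.1 (hρ hx)
        rw [mem_ball]
        linarith
      filter_upwards [isOpen_ball.mem_nhds hxb] with y hy
      rw [hχ1 y (ball_subset_closedBall hy), one_mul]
    rw [hνx, e.fderiv_eq, hF']
    abel
  · have hX : ContDiff ℝ ∞ (lf κ ν) := contDiff_lf hκ hνs
    obtain ⟨R, hR⟩ : ∃ R : ℝ, R = max r (ρ + 2) := ⟨_, rfl⟩
    obtain ⟨M, hM⟩ := (isCompact_closedBall (0 : EE n) R).exists_bound_of_continuousOn
      (hX.continuous_fderiv (by simp)).continuousOn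
    have hout : ∀ x ∉ closedBall (0 : EE n) R, lf κ ν x = (1 / 2 : ℝ) • x := by
      intro x hx
      have h1 : x ∉ closedBall (0 : EE n) (ρ + 2) := fun h => hx
        (closedBall_subset_closedBall (by rw [hR]; exact le_max_right _ _) h)
      have h2 : x ∉ closedBall (0 : EE n) r := fun h => hx
        (closedBall_subset_closedBall (by rw [hR]; exact le_max_left _ _) h)
      have e : (fun x => χ x * F x) =ᶠ[𝓝 x] fun _ => 0 := by
        filter_upwards [isClosed_closedBall.isOpen_compl.mem_nhds h1] with y hy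
        have : χ y = 0 := hχ0 y fun h => hy (ball_subset_closedBall h)
        rw [this, zero_mul]
      have e2 : ν x = mu x := by
        rw [hνx, e.fderiv_eq, fderiv_fun_const]
        simp
      rw [← hr x h2]
      unfold lf
      rw [e2]
    refine ⟨max M 1, fun x => ?_⟩
    by_cases hx : x ∈ closedBall (0 : EE n) R
    · exact (hM x hx).trans (le_max_left _ _)
    · have e : lf κ ν =ᶠ[𝓝 x] fun y => (1 / 2 : ℝ) • y := by
        filter_upwards [isClosed_closedBall.isOpen_compl.mem_nhds hx] with y hy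
        exact hout y hy
      have e2 : HasFDerivAt (fun y : EE n => (1 / 2 : ℝ) • y)
          ((1 / 2 : ℝ) • ContinuousLinearMap.id ℝ (EE n)) x :=
        hasFDerivAt_const_smul' (hasFDerivAt_id x) (1 / 2)
      rw [e.fderiv_eq, e2.fderiv]
      refine (ContinuousLinearMap.opNorm_le_bound _ (by norm_num) fun v => ?_).trans
        (le_max_right M 1)
      rw [smul_apply, ContinuousLinearMap.id_apply, norm_smul]
      have := norm_nonneg v
      rw [Real.norm_eq_abs, abs_of_pos (by norm_num : (0:ℝ) < 1 / 2)]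
      linarith

/-- Complete Liouville lines through `a` in `{H ≤ m}`. -/
def Dl {n : ℕ} (κ : EE n → B2 (EE n)) (lam : EE n → EE n →L[ℝ] ℝ) (H : EE n → ℝ) (m : ℝ)
    (a : EE n) : Prop :=
  ∃ γ : ℝ → EE n, γ 0 = a ∧ (∀ t, ∃ u, HasDerivAt γ u t ∧ ∀ v, κ (γ t) u v = lam (γ t) v) ∧
    ∀ t, H (γ t) ≤ m

/-- The data of a Liouville domain `{H ≤ m}` and of a form `mu` that is standard at infinity. -/
structure Dom {n : ℕ} (κ : EE n → B2 (EE n)) (lam mu : EE n → EE n →L[ℝ] ℝ) (H : EE n → ℝ)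
    (m r : ℝ) : Prop where
  sy : Symp κ
  sm : ContDiff ℝ ∞ lam
  dd : ∀ x, dd lam x = κ x
  sm' : ContDiff ℝ ∞ mu
  dd' : ∀ x, Pool.Agent.H60.Sy.dd mu x = κ x
  std : ∀ x ∉ closedBall (0 : EE n) r, lf κ mu x = (1 / 2 : ℝ) • x
  smH : ContDiff ℝ ∞ H
  com : IsCompact {x | H x ≤ m}
  out : ∀ x, H x = m → 0 < fderiv ℝ H x (lf κ lam x)

section

variable {n : ℕ} {κ : EE n → B2 (EE n)} {lam mu : EE n → EE n →L[ℝ] ℝ} {H : EE n → ℝ} {m r : ℝ}

/-- The attractor in a Liouville domain. -/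
theorem attract (h : Dom κ lam mu H m r) :
    ∃ A : Set (EE n), IsCompact A ∧ (∀ a ∈ A, Dl κ lam H m a) ∧
      ∀ U : Set (EE n), IsOpen U → A ⊆ U → ∃ (g : Dif (EE n)) (q : ℝ),
        (∀ x v w, κ (g x) (fderiv ℝ g x v) (fderiv ℝ g x w) = Real.exp q * κ x v w) ∧
        ∀ x, H x ≤ m → g x ∈ U := by
  obtain ⟨D, hDdef⟩ : ∃ D : Set (EE n), D = {x | H x ≤ m} := ⟨_, rfl⟩
  have hDm : ∀ x, x ∈ D ↔ H x ≤ m := fun x => by rw [hDdef]; rfl
  have hD : IsCompact D := by rw [hDdef]; exact h.com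
  obtain ⟨ν, hν, hdν, hνD, M, hM⟩ := complete_mod h.sy h.sm h.dd h.sm' h.dd' h.std hD
  have hM0 : 0 ≤ M := (norm_nonneg _).trans (hM 0)
  obtain ⟨c, hc0, hc⟩ : ∃ c : ℝ, c < 0 ∧ |c| * M ≤ 1 / 2 := by
    have hM1 : 0 < M + 1 := by linarith
    refine ⟨-(1 / (2 * (M + 1))), by have : 0 < 1 / (2 * (M + 1)) := by positivity
                                     linarith, ?_⟩
    rw [abs_neg, abs_of_pos (by positivity)]
    calc 1 / (2 * (M + 1)) * M ≤ 1 / (2 * (M + 1)) * (M + 1) := by gcongr; linarith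
      _ = 1 / 2 := by field_simp
  have hX : ContDiff ℝ ∞ (lf κ ν) := contDiff_lf h.sy hν
  have hV : ContDiff ℝ ∞ (fun x => c • lf κ ν x) := contDiff_const_smul' hX c
  have hb : ∀ x, ‖fderiv ℝ (fun x => c • lf κ ν x) x‖ ≤ 1 / 2 := by
    intro x
    rw [(hasFDerivAt_const_smul' (hX.differentiable (by simp) x).hasFDerivAt c).fderiv,
      norm_smul, Real.norm_eq_abs]
    refine le_trans ?_ hc
    gcongr
    exact hM x
  have hVx : ∀ x ∈ D, c • lf κ ν x = c • lf κ lam x := by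
    intro x hx
    have : lf κ ν x = lf κ lam x := by
      unfold lf
      rw [hνD x hx]
    rw [this]
  have hst : ∀ x ∈ D, ∀ s ∈ Icc (0:ℝ) 1, yy (fun x => c • lf κ ν x) hV hb x s ∈ D := by
    intro x hx s hs
    rw [hDm]
    refine stay hV hb h.smH (c := m) (fun y hy => ?_) ((hDm x).1 hx) s hs
    rw [hVx y ((hDm y).2 hy.le), map_smul, smul_eq_mul]
    exact mul_neg_of_neg_of_pos hc0 (h.out y hy)
  obtain ⟨A, hA, hAo, hAt⟩ := attractor hV hb hD hst
  refine ⟨A, hA, ?_, ?_⟩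
  · intro a ha
    obtain ⟨γ, h1, h2, h3⟩ := hAo a ha
    refine ⟨fun t => γ (c⁻¹ * t), by simp [h1], fun t => ⟨lf κ lam (γ (c⁻¹ * t)), ?_, ?_⟩,
      fun t => (hDm _).1 (h3 _)⟩
    · have h4 : HasDerivAt (fun t : ℝ => c⁻¹ * t) c⁻¹ t := by
        have h := (hasDerivAt_id t).const_mul c⁻¹
        rw [mul_one] at h
        exact h
      have h5 := HasDerivAt.scomp t (h2 (c⁻¹ * t)) h4
      rw [hVx _ (h3 _), smul_smul, inv_mul_cancel₀ hc0.ne, one_smul] at h5
      exact h5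
    · intro v
      rw [k_lf h.sy]
  intro U hU hAU
  obtain ⟨N, hN⟩ := hAt U hU hAU
  obtain ⟨g, hg1, _, hg2⟩ := iter_dif (flow1 (fun x => c • lf κ ν x) hV hb) (D := univ) (κ := κ)
    (fun x _ => mem_univ _)
    (fun x _ a b => flow_scale h.sy hν (ρ := 1) (fun x v w => by rw [hdν, one_mul]) c hV hb x a b) N
  refine ⟨g, N * c, fun x v w => ?_, fun x hx => ?_⟩
  · rw [hg2 x (mem_univ x) v w, Real.exp_nat_mul, mul_one]
  · rw [hg1]
    exact hN x ((hDm x).2 hx)

/-- An immersion in the standard space near the attractor with small double points gives an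
embedding of the domain. -/
theorem core_std (h : Dom κ lam mu H m r) {Z : Set (EE n)} (hZ : ∀ a, Dl κ lam H m a → a ∈ Z)
    {U : Set (EE n)} {φ : EE n → EE n} (hI : Im κ U φ) (hZU : Z ⊆ U) (hdbl : SmallDbl φ Z) :
    ∃ ψ : EE n → EE n, Im κ {x | H x < m} ψ ∧ InjOn ψ {x | H x < m} := by
  obtain ⟨A, hA, hAb, hAt⟩ := attract h
  have hAZ : A ⊆ Z := fun a ha => hZ a (hAb a ha)
  obtain ⟨φ', hI', hinj⟩ := general_position h.sy.nondeg hI hA (hAZ.trans hZU) (hdbl.mono hAZ)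
  obtain ⟨t, ht, hti⟩ := hinj.exists_mem_nhdsSet hA
    (fun x hx => hI'.continuousAt (hZU (hAZ hx)))
    (fun x hx => (hI'.loc h.sy.nondeg (hZU (hAZ hx))).2)
  obtain ⟨V, hV, hAV, hVt⟩ := mem_nhdsSet_iff_exists.1 ht
  obtain ⟨g, q, hg, hgU⟩ := hAt (V ∩ U) (hV.inter hI'.op) (subset_inter hAV (hAZ.trans hZU))
  obtain ⟨s, hsdef⟩ : ∃ s : ℝ, s = Real.exp (-q / 2) := ⟨_, rfl⟩
  have hs0 : s ≠ 0 := by rw [hsdef]; exact (Real.exp_pos _).ne'
  have hs2 : s * s * Real.exp q = 1 := by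
    rw [hsdef, ← Real.exp_add, ← Real.exp_add]
    have : -q / 2 + -q / 2 + q = 0 := by ring
    rw [this, Real.exp_zero]
  refine ⟨fun x => s • φ' (g x), ⟨isOpen_lt h.smH.continuous continuous_const, ?_, ?_⟩, ?_⟩
  · have h1 : ContDiffOn ℝ ∞ (fun x => φ' (g x)) {x | H x < m} :=
      hI'.sm.comp g.sm.contDiffOn fun x hx => (hgU x (le_of_lt hx)).2
    exact h1.const_smul s
  · intro x hx v w
    have hx' : H x < m := hx
    have hgx := (hgU x hx'.le).2
    have hφd : HasFDerivAt φ' (fderiv ℝ φ' (g x)) (g x) :=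
      ((hI'.sm.contDiffAt (hI'.op.mem_nhds hgx)).differentiableAt (by simp)).hasFDerivAt
    have h1 : HasFDerivAt (fun x => s • φ' (g x)) (s • (fderiv ℝ φ' (g x)).comp (fderiv ℝ g x)) x :=
      hasFDerivAt_const_smul' (hφd.comp x (g.hasFDerivAt x)) s
    rw [h1.fderiv]
    simp only [smul_apply, ContinuousLinearMap.comp_apply, map_smul, smul_eq_mul]
    rw [hI'.pb (g x) hgx, hg x]
    linear_combination (κ x v w) * hs2
  · intro x hx y hy hxy
    have h1 : φ' (g x) = φ' (g y) := smul_right_injective (EE n) hs0 hxy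
    exact g.injective (hti (hVt (hgU x (le_of_lt hx)).1) (hVt (hgU y (le_of_lt hy)).1) h1)

/-- A map that preserves the form near the attractor, whose double points on the attractor and whose
intersections with the attractor are small, gives an embedding of the domain in its complement. -/
theorem core_move (h : Dom κ lam mu H m r) {Z : Set (EE n)} (hZ : ∀ a, Dl κ lam H m a → a ∈ Z)
    {U : Set (EE n)} {φ : EE n → EE n} (hI : Kim κ U φ) (hZU : Z ⊆ U) (hdbl : SmallDbl φ Z)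
    (hsm : ∀ x ∈ Z, ∀ y ∈ Z, φ x = y → ∃ W ∈ 𝓝 ((x, y) : EE n × EE n),
      MeasureTheory.Measure.hausdorffMeasure (Module.finrank ℝ (EE n) : ℝ) (W ∩ Z ×ˢ Z) = 0) :
    ∃ ψ : EE n → EE n, Kim κ {x | H x < m} ψ ∧ InjOn ψ {x | H x < m} ∧
      ∀ x, H x < m → ¬ H (ψ x) ≤ m := by
  obtain ⟨A, hA, hAb, hAt⟩ := attract h
  have hAZ : A ⊆ Z := fun a ha => hZ a (hAb a ha)
  have hAU : A ⊆ U := hAZ.trans hZU
  have hB : IsCompact (φ '' A) := hA.image_of_continuousOn (hI.sm.continuousOn.mono hAU)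
  obtain ⟨s, hs, hsB⟩ := displace h.sy hA hB (by
    intro z hzA hzB
    have hloc : ∀ x, ∃ ε > 0, x ∈ A → φ x = z →
        MeasureTheory.Measure.hausdorffMeasure (Module.finrank ℝ (EE n) : ℝ)
          ((closedBall x ε ∩ A) ×ˢ (closedBall z ε ∩ A)) = 0 := by
      intro x
      by_cases hx : x ∈ A ∧ φ x = z
      · obtain ⟨W, hW, hW0⟩ := hsm x (hAZ hx.1) z (hAZ hzA) hx.2
        obtain ⟨ε, hε, hεW⟩ := Metric.mem_nhds_iff.1 hW
        refine ⟨ε / 2, half_pos hε, fun _ _ => MeasureTheory.measure_mono_null ?_ hW0⟩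
        rintro ⟨y, w⟩ ⟨hy, hw⟩
        refine ⟨hεW ?_, hAZ hy.2, hAZ hw.2⟩
        rw [mem_ball, Prod.dist_eq]
        have f1 := mem_closedBall.1 hy.1
        have f2 := mem_closedBall.1 hw.1
        exact max_lt (by linarith) (by linarith)
      · exact ⟨1, one_pos, fun h1 h2 => absurd ⟨h1, h2⟩ hx⟩
    choose ε hε hε0 using hloc
    have hF : IsCompact {x | x ∈ A ∧ φ x = z} := by
      have e : {x | x ∈ A ∧ φ x = z} = A ∩ φ ⁻¹' {z} := rfl
      rw [e]
      exact hA.of_isClosed_subset ((hI.sm.continuousOn.mono hAU).preimage_isClosed_of_isClosed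
        hA.isClosed isClosed_singleton) inter_subset_left
    obtain ⟨t, htF, hcov⟩ := hF.elim_nhds_subcover (fun x => ball x (ε x))
      (fun x _ => ball_mem_nhds x (hε x))
    have hfar : IsCompact (φ '' (A \ ⋃ x ∈ t, ball x (ε x))) :=
      (hA.diff (isOpen_biUnion fun a _ => isOpen_ball)).image_of_continuousOn
        (hI.sm.continuousOn.mono (sdiff_subset.trans hAU))
    have hzf : z ∈ (φ '' (A \ ⋃ x ∈ t, ball x (ε x)))ᶜ := by
      rintro ⟨y, hy, hyz⟩
      exact hy.2 (hcov ⟨hy.1, hyz⟩)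
    refine ⟨(φ '' (A \ ⋃ x ∈ t, ball x (ε x)))ᶜ ∩ ⋂ x ∈ t, closedBall z (ε x), Filter.inter_mem
      (hfar.isClosed.isOpen_compl.mem_nhds hzf) ((Filter.biInter_finset_mem t).2
        fun x _ => closedBall_mem_nhds z (hε x)), ?_⟩
    have e2 : MeasureTheory.Measure.hausdorffMeasure (Module.finrank ℝ (EE n) : ℝ)
        (⋃ x ∈ t, (fun z : EE n × EE n => (φ z.1, z.2)) ''
          ((closedBall x (ε x) ∩ A) ×ˢ (closedBall z (ε x) ∩ A))) = 0 := by
      refine (MeasureTheory.measure_biUnion_null_iff (I := (t : Set (EE n)))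
        t.countable_toSet).2 fun x hx => ?_
      refine null_image (fun w hw => ?_) (((isCompact_closedBall _ _).inter hA).prod
        ((isCompact_closedBall _ _).inter hA)) (Nat.cast_nonneg _)
        (hε0 x (htF x hx).1 (htF x hx).2)
      have f1 : ContDiffAt ℝ ∞ φ w.1 := hI.sm.contDiffAt (hI.op.mem_nhds (hAU hw.1.2))
      exact ((f1.comp w contDiffAt_fst).prodMk contDiffAt_snd).of_le (by simp)
    refine MeasureTheory.measure_mono_null ?_ e2
    rintro ⟨y, w⟩ ⟨⟨⟨hy1, hy2⟩, y', hy', rfl⟩, ⟨hw1, hw2⟩, hwA⟩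
    have hy'' : y' ∈ ⋃ x ∈ t, ball x (ε x) := by
      by_contra hn
      exact hy1 ⟨y', ⟨hy', hn⟩, rfl⟩
    obtain ⟨x, hx, hyx⟩ := mem_iUnion₂.1 hy''
    refine mem_iUnion₂.2 ⟨x, hx, (y', w), ⟨⟨ball_subset_closedBall hyx, hy'⟩,
      mem_iInter₂.1 hw2 x hx, hwA⟩, rfl⟩)
  have hI₁ := hI.post hs
  have hcont : ContinuousOn (fun x => s (φ x)) U := hI₁.sm.continuousOn
  obtain ⟨O, hO⟩ : ∃ O : Set (EE n), O = U ∩ (fun x => s (φ x)) ⁻¹' Aᶜ := ⟨_, rfl⟩
  have hOo : IsOpen O := by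
    rw [hO]
    exact hcont.isOpen_inter_preimage hI.op hA.isClosed.isOpen_compl
  have hAO : A ⊆ O := by
    rw [hO]
    exact fun x hx => ⟨hAU hx, hsB _ ⟨x, hx, rfl⟩⟩
  have hOU : O ⊆ U := by
    rw [hO]
    exact inter_subset_left
  have hI₂ : Kim κ O (fun x => s (φ x)) :=
    ⟨hOo, hI₁.sm.mono hOU, fun x hx v w => hI₁.pb x (hOU hx) v w⟩
  obtain ⟨φ', hI', hR, hinjA⟩ := general_position2 h.sy hI₂ hA hAO (by
    intro x hx y hy hne he
    obtain ⟨W, hW, h0⟩ := hdbl.mono hAZ x hx y hy hne (s.injective he)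
    exact ⟨W, hW, h0⟩)
  have hout : ∀ x ∈ A, φ' x ∉ A := by
    intro x hx hxA
    obtain ⟨y, hy, hyx⟩ := hR x (hAO hx)
    rw [hO] at hy
    exact hy.2 (by rw [← hyx] at hxA; exact hxA)
  have hcont' : ContinuousOn φ' O := hI'.sm.continuousOn
  obtain ⟨t, ht, hti⟩ := hinjA.exists_mem_nhdsSet hA
    (fun x hx => hI'.continuousAt (hAO hx))
    (fun x hx => (hI'.loc h.sy.nondeg (hAO hx)).2)
  obtain ⟨V, hV, hAV, hVt⟩ := mem_nhdsSet_iff_exists.1 ht
  have hdisj : Disjoint A (φ' '' A) := by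
    rw [Set.disjoint_left]
    rintro _ hy ⟨x, hx, rfl⟩
    exact hout x hx hy
  obtain ⟨U₁, U₂, hU₁, hU₂, hAU₁, hAU₂, hdis⟩ := SeparatedNhds.of_isCompact_isCompact hA
    (hA.image_of_continuousOn (hcont'.mono hAO)) hdisj
  obtain ⟨U', hU'def⟩ : ∃ U' : Set (EE n), U' = (U₁ ∩ V) ∩ (O ∩ φ' ⁻¹' U₂) := ⟨_, rfl⟩
  have hUo : IsOpen U' := by
    rw [hU'def]
    exact (hU₁.inter hV).inter (hcont'.isOpen_inter_preimage hOo hU₂)
  have hAU' : A ⊆ U' := by
    rw [hU'def]
    exact fun x hx => ⟨⟨hAU₁ hx, hAV hx⟩, hAO hx, hAU₂ ⟨x, hx, rfl⟩⟩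
  have hUU : U' ⊆ O := by
    rw [hU'def]
    exact fun x hx => hx.2.1
  have hinj' : InjOn φ' U' := by
    rw [hU'def]
    exact hti.mono fun x hx => hVt hx.1.2
  have hUs : ∀ x ∈ U', φ' x ∉ U' := by
    intro x hx hx'
    rw [hU'def] at hx hx'
    exact Set.disjoint_left.1 hdis hx'.1.1 hx.2.2
  obtain ⟨g, q, hg, hgU⟩ := hAt U' hUo hAU'
  refine ⟨_, hI'.conj (Real.exp_pos q).ne' hg (isOpen_lt h.smH.continuous continuous_const)
    (fun x hx => hUU (hgU x (le_of_lt hx))), ?_, ?_⟩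
  · intro x hx y hy hxy
    have h1 : φ' (g x) = φ' (g y) := g.symm.injective hxy
    exact g.injective (hinj' (hgU x (le_of_lt hx)) (hgU y (le_of_lt hy)) h1)
  · intro x hx hx'
    have h1 := hgU _ hx'
    rw [Dif.apply_symm_apply] at h1
    exact hUs _ (hgU x hx.le) h1

end

/-- If the form is globally standard, all compact sets are displaced. -/
theorem all_disp {n : ℕ} (hn : 2 ≤ n) {κ : EE n → B2 (EE n)} (F : Dif (EE n))
    (hF : ∀ x v w, om0 n (fderiv ℝ F x v) (fderiv ℝ F x w) = κ x v w) {C : Set (EE n)}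
    (hC : IsCompact C) : ∃ J : Dif (EE n), Sd κ J ∧ ∀ x ∈ C, J x ∉ C := by
  have : Nontrivial (EE n) := by
    refine ⟨⟨0, (fun _ => 1, 0), fun h => ?_⟩⟩
    have h1 := congrFun (congrArg Prod.fst h) ⟨0, by omega⟩
    simp at h1
  obtain ⟨R, hR⟩ := (hC.image F.continuous).isBounded.subset_closedBall 0
  obtain ⟨p, hp⟩ := NormedSpace.exists_lt_norm ℝ (EE n) (2 * R)
  obtain ⟨T, hT⟩ : ∃ T : Dif (EE n), ∀ x, T x = x + p :=
    ⟨Dif.mk' (fun x => x + p) (fun x => x - p) (contDiff_id.add contDiff_const)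
      (contDiff_id.sub contDiff_const) (fun x => add_sub_cancel_right x p)
      (fun x => sub_add_cancel x p), fun _ => rfl⟩
  obtain ⟨J, hJ⟩ : ∃ J : Dif (EE n), J = (F.trans T).trans F.symm := ⟨_, rfl⟩
  have h1 : ∀ y, F (J y) = F y + p := by
    intro y
    rw [hJ, Dif.trans_apply, Dif.trans_apply, Dif.apply_symm_apply, hT]
  refine ⟨J, fun x v w => ?_, fun x hx hx' => ?_⟩
  · have h2 : ∀ v, fderiv ℝ F (J x) (fderiv ℝ J x v) = fderiv ℝ F x v := by
      have e1 : HasFDerivAt (fun y => F (J y)) ((fderiv ℝ F (J x)).comp (fderiv ℝ J x)) x :=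
        (F.hasFDerivAt _).comp x (J.hasFDerivAt x)
      have e2 : HasFDerivAt (fun y => F y + p) (fderiv ℝ F x) x := (F.hasFDerivAt x).add_const p
      have e3 : (fun y => F (J y)) = fun y => F y + p := funext h1
      rw [e3] at e1
      have e4 := e1.unique e2
      intro v
      exact congrArg (fun A : EE n →L[ℝ] EE n => A v) e4
    rw [← hF (J x), h2, h2, hF]
  · have e1 := mem_closedBall_zero_iff.1 (hR ⟨x, hx, rfl⟩)
    have e2 := mem_closedBall_zero_iff.1 (hR ⟨J x, hx', rfl⟩)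
    rw [h1] at e2
    have e3 : ‖p‖ ≤ ‖F x + p‖ + ‖F x‖ := by
      have : p = (F x + p) - F x := by abel
      conv_lhs => rw [this]
      exact norm_sub_le _ _
    linarith

end Pool.Agent.H60.Sk
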