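import Pool.Agent.H60.Sk.Ham
import Pool.Agent.H60.Sk.Zero

/-! Perturbation of symplectic immersions near a compact set: two disjoint small pieces whose product is
null for the `2n`-dimensional Hausdorff measure are given disjoint images, everything that is already
good stays good. -/

set_option autoImplicit false
set_option linter.unusedSectionVars false

open scoped ContDiff Topology
open Set Metric

namespace Pool.Agent.H60.Sk

open Pool.Agent.H60.Sy

/-- Symplectic immersions of `(U, κ)` in the standard space. -/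
structure Im {n : ℕ} (κ : EE n → B2 (EE n)) (U : Set (EE n)) (φ : EE n → EE n) : Prop where
  op : IsOpen U
  sm : ContDiffOn ℝ ∞ φ U
  pb : ∀ x ∈ U, ∀ v w, om0 n (fderiv ℝ φ x v) (fderiv ℝ φ x w) = κ x v w

/-- The good pairs. -/
def Gd {n : ℕ} (φ : EE n → EE n) : Set (EE n × EE n) := interior {q | φ q.1 = φ q.2 → q.1 = q.2}

section

variable {n : ℕ} {κ : EE n → B2 (EE n)} {U : Set (EE n)} {φ : EE n → EE n}

theorem Im.loc (hI : Im κ U φ) (hκ : ∀ x, Nondeg (κ x)) {x : EE n} (hx : x ∈ U) :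
    Filter.map φ (𝓝 x) = 𝓝 (φ x) ∧ ∃ N ∈ 𝓝 x, InjOn φ N := by
  have hc : ContDiffAt ℝ ∞ φ x := hI.sm.contDiffAt (hI.op.mem_nhds hx)
  have hker : Function.Injective (fderiv ℝ φ x) := by
    rw [injective_iff_map_eq_zero]
    intro v hv
    apply hκ x v
    intro w
    rw [← hI.pb x hx, hv, map_zero]
    rfl
  obtain ⟨e, he⟩ : ∃ e : EE n ≃L[ℝ] EE n, (e : EE n →L[ℝ] EE n) = fderiv ℝ φ x := by
    refine ⟨(LinearEquiv.ofInjectiveEndo (fderiv ℝ φ x : EE n →ₗ[ℝ] EE n)
      hker).toContinuousLinearEquiv, ?_⟩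
    refine ContinuousLinearMap.ext fun v => ?_
    rfl
  have hd : HasFDerivAt φ (e : EE n →L[ℝ] EE n) x := by
    rw [he]
    exact (hc.differentiableAt (by simp)).hasFDerivAt
  have hst : HasStrictFDerivAt φ (e : EE n →L[ℝ] EE n) x :=
    hc.hasStrictFDerivAt' hd (by simp)
  refine ⟨hst.map_nhds_eq_of_equiv, (hst.toOpenPartialHomeomorph φ).source,
    (hst.toOpenPartialHomeomorph φ).open_source.mem_nhds hst.mem_toOpenPartialHomeomorph_source, ?_⟩
  have h := (hst.toOpenPartialHomeomorph φ).injOn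
  rw [hst.toOpenPartialHomeomorph_coe] at h
  exact h

theorem gd_diag (hI : Im κ U φ) (hκ : ∀ x, Nondeg (κ x)) {x : EE n} (hx : x ∈ U) :
    (x, x) ∈ Gd φ := by
  obtain ⟨_, N, hN, hinj⟩ := hI.loc hκ hx
  refine mem_interior_iff_mem_nhds.2 (Filter.mem_of_superset (prod_mem_nhds hN hN) ?_)
  rintro ⟨y, z⟩ ⟨hy, hz⟩ h
  exact hinj hy hz h

theorem gd_comp {h : EE n → EE n} (hc : Continuous h) (hi : Function.Injective h) {x y : EE n}
    (hxy : (h x, h y) ∈ Gd φ) : (x, y) ∈ Gd (fun x => φ (h x)) := by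
  have h1 := mem_interior_iff_mem_nhds.1 hxy
  have h2 : Continuous fun q : EE n × EE n => (h q.1, h q.2) :=
    (hc.comp continuous_fst).prodMk (hc.comp continuous_snd)
  refine mem_interior_iff_mem_nhds.2 ?_
  filter_upwards [h2.continuousAt.preimage_mem_nhds h1] with q hq hqe
  exact hi (hq hqe)

theorem gd_ne {x y : EE n} (hx : ContinuousAt φ x) (hy : ContinuousAt φ y) (hne : φ x ≠ φ y) :
    (x, y) ∈ Gd φ := by
  have h1 : ContinuousAt (fun q : EE n × EE n => φ q.1) (x, y) :=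
    ContinuousAt.comp (g := φ) (f := fun q : EE n × EE n => q.1) hx continuousAt_fst
  have h2 : ContinuousAt (fun q : EE n × EE n => φ q.2) (x, y) :=
    ContinuousAt.comp (g := φ) (f := fun q : EE n × EE n => q.2) hy continuousAt_snd
  refine mem_interior_iff_mem_nhds.2 ?_
  filter_upwards [h1.ne_iff_eventually_ne h2 |>.1 hne] with q hq hqe
  exact absurd hqe hq

theorem Im.continuousAt (hI : Im κ U φ) {x : EE n} (hx : x ∈ U) : ContinuousAt φ x :=
  (hI.sm.contDiffAt (hI.op.mem_nhds hx)).continuousAt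

theorem pert (hκ : ∀ x, Nondeg (κ x)) (hI : Im κ U φ) {a b : EE n} {ρ r : ℝ}
    (hL : closedBall a ρ ⊆ U) (hLL : closedBall a ρ ×ˢ closedBall a ρ ⊆ Gd φ)
    {P T : Set (EE n)} (hP : IsCompact P) (hT : IsCompact T) (hPL : P ⊆ ball a ρ)
    (hTL : Disjoint T (closedBall a ρ)) (hTb : T ⊆ closedBall b r) (hb : closedBall b r ⊆ U)
    (hnull : MeasureTheory.Measure.hausdorffMeasure (Module.finrank ℝ (EE n) : ℝ) (P ×ˢ T) = 0)
    {Q : Set (EE n × EE n)} (hQ : IsCompact Q)
    (hQG : Q ⊆ Gd φ) :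
    ∃ φ' : EE n → EE n, Im κ U φ' ∧ Q ∪ P ×ˢ T ⊆ Gd φ' := by
  classical
  have hinjL : InjOn φ (closedBall a ρ) := by
    intro x hx y hy h
    have h0 : ((x, y) : EE n × EE n) ∈ {q : EE n × EE n | φ q.1 = φ q.2 → q.1 = q.2} :=
      interior_subset (hLL (mk_mem_prod hx hy))
    exact h0 h
  obtain ⟨B, hBdef⟩ : ∃ B : Set (EE n), B = ball a ρ := ⟨_, rfl⟩
  have hBo : IsOpen B := by rw [hBdef]; exact isOpen_ball
  have hBL : B ⊆ closedBall a ρ := by rw [hBdef]; exact ball_subset_closedBall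
  have hBU : B ⊆ U := hBL.trans hL
  have hPB : P ⊆ B := by rw [hBdef]; exact hPL
  have hinjB : InjOn φ B := hinjL.mono hBL
  obtain ⟨ψ, hψdef⟩ : ∃ ψ : EE n → EE n, ψ = Function.invFunOn φ B := ⟨_, rfl⟩
  have hψ : ∀ x ∈ B, ψ (φ x) = x := by
    intro x hx
    rw [hψdef]
    exact hinjB.leftInvOn_invFunOn hx
  have hVo : IsOpen (φ '' B) := by
    rw [isOpen_iff_mem_nhds]
    rintro _ ⟨x, hx, rfl⟩
    rw [← (hI.loc hκ (hBU hx)).1]
    exact Filter.image_mem_map (hBo.mem_nhds hx)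
  have hψc : ∀ y ∈ φ '' B, ContinuousAt ψ y := by
    rintro _ ⟨x, hx, rfl⟩
    unfold ContinuousAt
    rw [hψ x hx, ← (hI.loc hκ (hBU hx)).1, Filter.tendsto_map'_iff]
    have h1 : ψ ∘ φ =ᶠ[𝓝 x] id := by
      filter_upwards [hBo.mem_nhds hx] with z hz
      exact hψ z hz
    exact (Filter.tendsto_congr' h1).2 Filter.tendsto_id
  obtain ⟨S, hS, hSV, δ, hδ, C, hg⟩ := ham (T := φ '' P) (O := φ '' B)
    (hP.image_of_continuousOn (hI.sm.continuousOn.mono (hPB.trans hBU))) hVo (image_mono hPB)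
  have hψS : ContinuousOn ψ S := fun y hy => (hψc y (hSV hy)).continuousWithinAt
  have hS' : IsCompact (ψ '' S) := hS.image_of_continuousOn hψS
  have hS'B : ψ '' S ⊆ B := by
    rintro _ ⟨y, hy, rfl⟩
    obtain ⟨x, hx, rfl⟩ := hSV hy
    rw [hψ x hx]; exact hx
  -- the size of the perturbation
  obtain ⟨ε, hε, hεQ⟩ := hQ.exists_thickening_subset_open isOpen_interior hQG
  have huc := hS.uniformContinuousOn_of_continuous hψS
  rw [Metric.uniformContinuousOn_iff] at huc
  obtain ⟨η, hη, hψu⟩ := huc ε hε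
  -- the translation vector
  obtain ⟨p, hpD, hp1, hp2⟩ : ∃ p : EE n, p ∉ (fun q : EE n × EE n => φ q.2 - φ q.1) '' (P ×ˢ T) ∧
      ‖p‖ < δ ∧ C * ‖p‖ < η := by
    have hF : ContDiffOn ℝ 1 (fun q : EE n × EE n => φ q.2 - φ q.1) (B ×ˢ closedBall b r) := by
      have h1 : ContDiffOn ℝ 1 φ U := hI.sm.of_le (by simp)
      exact (h1.comp contDiff_snd.contDiffOn fun q hq => hb hq.2).sub
        (h1.comp contDiff_fst.contDiffOn fun q hq => hBU hq.1)
    have hcv : Convex ℝ (B ×ˢ closedBall b r) := by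
      rw [hBdef]
      exact (convex_ball _ _).prod (convex_closedBall _ _)
    have h3 := dense_compl_image hF hcv (hP.prod hT) (prod_mono hPB hTb) hnull
    have hC' : 0 < max C 1 := lt_of_lt_of_le one_pos (le_max_right _ _)
    have h4 : 0 < min δ (η / max C 1) := lt_min hδ (div_pos hη hC')
    obtain ⟨p, hp, hpb⟩ := h3.exists_mem_open isOpen_ball ⟨(0 : EE n), mem_ball_self h4⟩
    rw [mem_ball_zero_iff] at hpb
    refine ⟨p, hp, hpb.trans_le (min_le_left _ _), ?_⟩
    have h5 := hpb.trans_le (min_le_right _ _)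
    rw [lt_div_iff₀ hC'] at h5
    calc C * ‖p‖ ≤ max C 1 * ‖p‖ := by gcongr; exact le_max_left _ _
      _ = ‖p‖ * max C 1 := mul_comm _ _
      _ < η := h5
  obtain ⟨g, hg1, hg2, hg3, hg4⟩ := hg p hp1
  obtain ⟨h, hh⟩ : ∃ h : EE n → EE n, ∀ x, h x = if x ∈ B then ψ (g (φ x)) else x := ⟨_, fun _ => rfl⟩
  have hgV : ∀ x ∈ B, g (φ x) ∈ φ '' B := by
    intro x hx
    by_cases hs : φ x ∈ S
    · exact hSV (Dif.mem_of_fix hg1 hs)
    · rw [hg1 _ hs]; exact ⟨x, hx, rfl⟩
  have hB1 : ∀ x ∈ B, h x ∈ B := by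
    intro x hx
    obtain ⟨y, hy, hyx⟩ := hgV x hx
    rw [hh, if_pos hx, ← hyx, hψ y hy]; exact hy
  have hB2 : ∀ x ∈ B, φ (h x) = g (φ x) := by
    intro x hx
    obtain ⟨y, hy, hyx⟩ := hgV x hx
    rw [hh, if_pos hx, ← hyx, hψ y hy]
  have hout : ∀ x ∉ B, h x = x := fun x hx => by rw [hh, if_neg hx]
  have hfix : ∀ x ∉ ψ '' S, h x = x := by
    intro x hx
    by_cases hxB : x ∈ B
    · have hs : φ x ∉ S := fun hs => hx ⟨φ x, hs, hψ x hxB⟩
      rw [hh, if_pos hxB, hg1 _ hs, hψ x hxB]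
    · exact hout x hxB
  have hev1 : ∀ x ∈ B, (fun x => φ (h x)) =ᶠ[𝓝 x] fun x => g (φ x) := by
    intro x hx
    filter_upwards [hBo.mem_nhds hx] with z hz
    exact hB2 z hz
  have hev2 : ∀ x ∉ B, h =ᶠ[𝓝 x] fun x => x := by
    intro x hx
    have : x ∈ (ψ '' S)ᶜ := fun h' => hx (hS'B h')
    filter_upwards [hS'.isClosed.isOpen_compl.mem_nhds this] with z hz
    exact hfix z hz
  have hc : Continuous h := by
    rw [continuous_iff_continuousAt]
    intro x
    by_cases hx : x ∈ B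
    · have h1 : h =ᶠ[𝓝 x] fun x => ψ (g (φ x)) := by
        filter_upwards [hBo.mem_nhds hx] with z hz
        rw [hh, if_pos hz]
      have h2 : ContinuousAt (fun x => g (φ x)) x :=
        ContinuousAt.comp (g := g) (f := φ) g.continuous.continuousAt (hI.continuousAt (hBU hx))
      have h3 : ContinuousAt (fun x => ψ (g (φ x))) x :=
        ContinuousAt.comp (g := ψ) (f := fun x => g (φ x)) (hψc _ (hgV x hx)) h2
      exact h3.congr h1.symm
    · exact continuousAt_id.congr (hev2 x hx).symm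
  have hi : Function.Injective h := by
    intro x y hxy
    by_cases hx : x ∈ B
    · by_cases hy : y ∈ B
      · have h1 : g (φ x) = g (φ y) := by rw [← hB2 x hx, ← hB2 y hy, hxy]
        exact hinjB hx hy (g.injective h1)
      · exact absurd (by rw [← hout y hy, ← hxy]; exact hB1 x hx) hy
    · by_cases hy : y ∈ B
      · exact absurd (by rw [← hout x hx, hxy]; exact hB1 y hy) hx
      · rw [← hout x hx, hxy, hout y hy]
  have hclose : ∀ x, dist (h x) x < ε := by
    intro x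
    by_cases hx : x ∈ ψ '' S
    · have hxB := hS'B hx
      obtain ⟨y, hy, hyx⟩ := hx
      have hφx : φ x = y := by
        obtain ⟨z, hz, rfl⟩ := hSV hy
        rw [← hyx, hψ z hz]
      have h1 := hψu (g y) (Dif.mem_of_fix hg1 hy) y hy (by
        rw [dist_eq_norm]; exact (hg3 y).trans_lt hp2)
      rw [hh, if_pos hxB, hφx]
      rw [hyx] at h1
      exact h1
    · rw [hfix x hx, dist_self]; exact hε
  have hI' : Im κ U (fun x => φ (h x)) := by
    refine ⟨hI.op, fun x hx => ContDiffAt.contDiffWithinAt ?_, fun x hx v w => ?_⟩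
    · have hφx : ContDiffAt ℝ ∞ φ x := hI.sm.contDiffAt (hI.op.mem_nhds hx)
      by_cases hxB : x ∈ B
      · exact (ContDiffAt.comp x g.sm.contDiffAt hφx).congr_of_eventuallyEq (hev1 x hxB)
      · refine hφx.congr_of_eventuallyEq ?_
        filter_upwards [hev2 x hxB] with z hz
        rw [hz]
    · by_cases hxB : x ∈ B
      · rw [(hev1 x hxB).fderiv_eq]
        have h1 : HasFDerivAt φ (fderiv ℝ φ x) x :=
          ((hI.sm.contDiffAt (hI.op.mem_nhds hx)).differentiableAt (by simp)).hasFDerivAt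
        have h2 : HasFDerivAt (fun x => g (φ x)) ((fderiv ℝ g (φ x)).comp (fderiv ℝ φ x)) x :=
          (g.hasFDerivAt (φ x)).comp x h1
        rw [h2.fderiv, ContinuousLinearMap.comp_apply, ContinuousLinearMap.comp_apply, hg4]
        exact hI.pb x hx v w
      · have h1 : (fun x => φ (h x)) =ᶠ[𝓝 x] φ := by
          filter_upwards [hev2 x hxB] with z hz
          rw [hz]
        rw [h1.fderiv_eq]
        exact hI.pb x hx v w
  refine ⟨fun x => φ (h x), hI', ?_⟩
  rintro ⟨x, y⟩ (hxy | ⟨hx, hy⟩)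
  · refine gd_comp hc hi (hεQ (mem_thickening_iff.2 ⟨(x, y), hxy, ?_⟩))
    rw [Prod.dist_eq]
    exact max_lt (hclose x) (hclose y)
  · have hyL : y ∉ closedBall a ρ := fun h' => hTL.ne_of_mem hy h' rfl
    have hyB : y ∉ B := fun h' => hyL (hBL h')
    refine gd_ne (hI'.continuousAt (hBU (hPB hx))) (hI'.continuousAt (hb (hTb hy))) ?_
    intro heq
    have heq' : φ (h x) = φ (h y) := heq
    rw [hB2 x (hPB hx), hout y hyB, hg2 (φ x) ⟨x, hx, rfl⟩] at heq'
    refine hpD ⟨(x, y), ⟨hx, hy⟩, ?_⟩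
    change φ y - φ x = p
    rw [← heq']
    exact add_sub_cancel_left _ _

end

end Pool.Agent.H60.Sk
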