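import Pool.Agent.H60.Sk.Disp
import Pool.Agent.H60.Sk.Pos

/-! Perturbation and general position for symplectic immersions in the space with the same form. -/

set_option autoImplicit false
set_option linter.unusedSectionVars false

open scoped ContDiff Topology unitInterval ENNReal NNReal
open Set Metric

namespace Pool.Agent.H60.Sk

open Pool.Agent.H60.Sy

variable {n : ℕ} {κ : EE n → B2 (EE n)}

theorem hamU_one (hκ : Symp κ) {χ : EE n → ℝ} {x : EE n} (hχ : χ =ᶠ[𝓝 x] fun _ => 1) (v : EE n) :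
    κ x (hamU κ (om0 n) χ x v) = om0 n v := by
  unfold hamU
  rw [ContinuousLinearMap.comp_apply, inverse_apply (hκ.nondeg x), hχ.self_of_nhds, hχ.fderiv_eq,
    fderiv_fun_const]
  refine ContinuousLinearMap.ext fun w => ?_
  simp

theorem famT (hκ : Symp κ) {T O : Set (EE n)} (hT : IsCompact T) (hO : IsOpen O) (hTO : T ⊆ O) :
    ∃ S : Set (EE n), IsCompact S ∧ S ⊆ O ∧ ∃ r > 0, ∃ C > 0, ∃ L > 0, ∃ g : EE n → Dif (EE n),
      (∀ p, ‖p‖ < r → Sd κ (g p)) ∧ (∀ p, ‖p‖ < r → ∀ x ∉ S, g p x = x) ∧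
      (∀ p, ‖p‖ < r → ∀ x, ‖g p x - x‖ ≤ C * ‖p‖) ∧
      ∀ p q, ‖p‖ < r → ‖q‖ < r → ∀ x ∈ T, ∀ x' ∈ T,
        ‖p - q‖ ≤ L * (‖g p x - g q x'‖ + ‖x - x'‖) := by
  obtain ⟨ε₀, hε₀, hsub⟩ := hT.exists_cthickening_subset_open hO hTO
  obtain ⟨ε, hε⟩ : ∃ ε : ℝ, ε = ε₀ / 2 := ⟨_, rfl⟩
  have hε0 : 0 < ε := by rw [hε]; positivity
  obtain ⟨S, hSdef⟩ : ∃ S : Set (EE n), S = cthickening ε₀ T := ⟨_, rfl⟩
  have hS : IsCompact S := by rw [hSdef]; exact hT.cthickening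
  obtain ⟨χ, hχ, hχ0, hχ1⟩ := exists_cut (n := n) (s := (thickening ε₀ T)ᶜ)
    (t := cthickening ε T) isOpen_thickening.isClosed_compl isClosed_cthickening (by
      rw [disjoint_compl_left_iff_subset]
      exact cthickening_subset_thickening' hε₀ (by linarith) T)
  have hχS : ∀ x ∉ S, χ x = 0 := by
    intro x hx
    refine hχ0 x fun h => hx ?_
    rw [hSdef]
    exact thickening_subset_cthickening _ _ h
  obtain ⟨W, hW⟩ : ∃ W : EE n → EE n →L[ℝ] EE n, W = hamU κ (om0 n) χ := ⟨_, rfl⟩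
  have hWs : ContDiff ℝ ∞ W := by rw [hW]; exact contDiff_hamU hκ _ hχ
  have hWS : ∀ x ∉ S, W =ᶠ[𝓝 x] fun _ => 0 := by
    intro x hx
    have hχe : ∀ y ∉ S, χ =ᶠ[𝓝 y] fun _ => 0 := by
      intro y hy
      filter_upwards [hS.isClosed.isOpen_compl.mem_nhds hy] with z hz
      exact hχS z hz
    filter_upwards [hS.isClosed.isOpen_compl.mem_nhds hx] with y hy
    rw [hW]
    unfold hamU
    rw [hχS y hy, (hχe y hy).fderiv_eq]
    refine ContinuousLinearMap.ext fun v => ?_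
    simp
  obtain ⟨C₀, hC₀⟩ := hS.exists_bound_of_continuousOn hWs.continuous.continuousOn
  obtain ⟨C₁, hC₁⟩ := hS.exists_bound_of_continuousOn
    (hWs.continuous_fderiv (by simp)).continuousOn
  obtain ⟨C, hCdef⟩ : ∃ C : ℝ, C = max (max C₀ C₁) 1 := ⟨_, rfl⟩
  have hC1 : 1 ≤ C := by rw [hCdef]; exact le_max_right _ _
  have hC : 0 < C := lt_of_lt_of_le one_pos hC1
  have hb0 : ∀ x, ‖W x‖ ≤ C := by
    intro x
    by_cases hx : x ∈ S
    · rw [hCdef]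
      exact (hC₀ x hx).trans ((le_max_left _ _).trans (le_max_left _ _))
    · rw [(hWS x hx).self_of_nhds, norm_zero]
      exact hC.le
  have hb1 : ∀ x, ‖fderiv ℝ W x‖ ≤ C := by
    intro x
    by_cases hx : x ∈ S
    · rw [hCdef]
      exact (hC₁ x hx).trans ((le_max_right _ _).trans (le_max_left _ _))
    · rw [(hWS x hx).fderiv_eq, fderiv_fun_const]
      refine ContinuousLinearMap.opNorm_le_bound _ hC.le fun v => ?_
      have h0 : ‖(0 : EE n →L[ℝ] EE n)‖ ≤ C * ‖v‖ := by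
        rw [norm_zero]; positivity
      exact h0
  have hlip : ∀ x y, ‖W x - W y‖ ≤ C * ‖x - y‖ := fun x y =>
    Convex.norm_image_sub_le_of_norm_fderiv_le (𝕜 := ℝ) (s := univ)
      (fun z _ => (hWs.differentiable (by simp)) z) (fun z _ => hb1 z) convex_univ
      (mem_univ y) (mem_univ x)
  -- the lower bound
  obtain ⟨C₂, hC₂⟩ : ∃ C₂ : ℝ, ∀ x ∈ T, ‖κ x‖ ≤ C₂ :=
    hT.exists_bound_of_continuousOn (E := EE n →L[ℝ] EE n →L[ℝ] ℝ)
      hκ.sm.continuous.continuousOn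
  obtain ⟨C₃, hC₃⟩ : ∃ C₃ : ℝ, 0 ≤ C₃ ∧ ∀ v : EE n, ‖v‖ ≤ C₃ * ‖om0 n v‖ := by
    obtain ⟨e, he⟩ : ∃ e : EE n ≃L[ℝ] (EE n →L[ℝ] ℝ), ∀ v, e v = om0 n v :=
      ⟨(om0_nondeg n).equiv, fun v => congrArg (fun A : B2 (EE n) => A v) (om0_nondeg n).coe_equiv⟩
    refine ⟨‖(e.symm : (EE n →L[ℝ] ℝ) →L[ℝ] EE n)‖, ContinuousLinearMap.opNorm_nonneg _,
      fun v => ?_⟩
    have h := (e.symm : (EE n →L[ℝ] ℝ) →L[ℝ] EE n).le_opNorm (e v)
    rw [ContinuousLinearEquiv.coe_coe, e.symm_apply_apply, he] at h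
    exact h
  obtain ⟨Λ, hΛdef⟩ : ∃ Λ : ℝ, Λ = max (C₃ * max C₂ 1) 1 := ⟨_, rfl⟩
  have hΛ1 : 1 ≤ Λ := by rw [hΛdef]; exact le_max_right _ _
  have hΛ0 : 0 < Λ := lt_of_lt_of_le one_pos hΛ1
  have hlow : ∀ x ∈ T, ∀ v, ‖v‖ ≤ Λ * ‖W x v‖ := by
    intro x hx v
    have hχe : χ =ᶠ[𝓝 x] fun _ => 1 := by
      filter_upwards [isOpen_thickening.mem_nhds (self_subset_thickening hε0 T hx)] with y hy
      exact hχ1 y (thickening_subset_cthickening _ _ hy)
    have h1 : κ x (W x v) = om0 n v := by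
      rw [hW]
      exact hamU_one hκ hχe v
    have h2 : ‖om0 n v‖ ≤ max C₂ 1 * ‖W x v‖ := by
      rw [← h1]
      refine ((κ x).le_opNorm _).trans ?_
      gcongr
      exact (hC₂ x hx).trans (le_max_left _ _)
    calc ‖v‖ ≤ C₃ * ‖om0 n v‖ := hC₃.2 v
      _ ≤ C₃ * (max C₂ 1 * ‖W x v‖) := by
        have := hC₃.1
        gcongr
      _ = (C₃ * max C₂ 1) * ‖W x v‖ := by ring
      _ ≤ Λ * ‖W x v‖ := by
        gcongr
        rw [hΛdef]
        exact le_max_left _ _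
  obtain ⟨r, hrdef⟩ : ∃ r : ℝ, r = 1 / (8 * (Λ * (C * C))) := ⟨_, rfl⟩
  have hr : 0 < r := by rw [hrdef]; positivity
  have hr8 : Λ * (C * (C * r)) = 1 / 8 := by rw [hrdef]; field_simp
  have hCCr : C * (C * r) ≤ 1 / 8 := by
    have h1 : C * (C * r) ≤ Λ * (C * (C * r)) := le_mul_of_one_le_left (by positivity) hΛ1
    linarith
  have hCr : C * r ≤ 1 / 8 := by
    have h1 : C * r ≤ C * (C * r) := le_mul_of_one_le_left (by positivity) hC1
    linarith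
  obtain ⟨V, hVdef⟩ : ∃ V : EE n → EE n → EE n,
      V = fun p x => (1 : ℝ) • lf κ (fderiv ℝ (hamK (om0 n) χ p)) x := ⟨_, rfl⟩
  have hVx : ∀ p x, V p x = W x p := by
    intro p x
    rw [hVdef, hW]
    simp only
    rw [one_smul, lf_hamK (om0 n) hχ]
  have hVW : ∀ p, V p = fun x => W x p := fun p => funext fun x => hVx p x
  have hV : ∀ p, ContDiff ℝ ∞ (V p) := by
    intro p
    rw [hVW]
    exact hWs.clm_apply contDiff_const
  have hpC : ∀ p : EE n, ‖p‖ < r → C * ‖p‖ ≤ 1 / 8 := by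
    intro p hp
    refine le_trans ?_ hCr
    gcongr
  have hb : ∀ p, ‖p‖ < r → ∀ x, ‖fderiv ℝ (V p) x‖ ≤ 1 / 2 := by
    intro p hp x
    have h1 : HasFDerivAt W (fderiv ℝ W x) x := (hWs.differentiable (by simp) x).hasFDerivAt
    have h2 : HasFDerivAt (V p) ((fderiv ℝ W x).flip p) x := by
      rw [hVW]
      have h3 := h1.clm_apply (hasFDerivAt_const p x)
      refine h3.congr_fderiv ?_
      refine ContinuousLinearMap.ext fun v => ?_
      simp
    rw [h2.fderiv]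
    refine le_trans ((fderiv ℝ W x).flip.le_opNorm p) ?_
    rw [ContinuousLinearMap.opNorm_flip]
    have h4 := hpC p hp
    have h5 : ‖fderiv ℝ W x‖ * ‖p‖ ≤ C * ‖p‖ := by
      gcongr
      exact hb1 x
    linarith
  obtain ⟨g, hg⟩ : ∃ g : EE n → Dif (EE n), ∀ p (hp : ‖p‖ < r), g p = flow1 (V p) (hV p) (hb p hp) :=
    ⟨fun p => if hp : ‖p‖ < r then flow1 (V p) (hV p) (hb p hp) else Dif.refl _,
      fun p hp => dif_pos hp⟩
  have hVb : ∀ p x, ‖V p x‖ ≤ C * ‖p‖ := by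
    intro p x
    rw [hVx]
    refine le_trans ((W x).le_opNorm p) ?_
    gcongr
    exact hb0 x
  refine ⟨S, hS, by rw [hSdef]; exact hsub, r, hr, C, hC, 4 * Λ, by positivity, g, ?_, ?_, ?_, ?_⟩
  · intro p hp x v w
    rw [hg p hp]
    have hV' := hV p
    have hb' := hb p hp
    rw [hVdef] at hV' hb'
    have h := flow_scale hκ (lam := fderiv ℝ (hamK (om0 n) χ p))
      ((contDiff_hamK (om0 n) hχ p).fderiv_right (by simp)) (ρ := 0)
      (fun x v w => by rw [dd_fderiv (contDiff_hamK (om0 n) hχ p), zero_mul]) 1 hV' hb' x v w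
    rw [mul_zero, Real.exp_zero, one_mul] at h
    subst hVdef
    exact h
  · intro p hp x hx
    rw [hg p hp]
    exact flow1_of_curve (V p) (hV p) (hb p hp) x (fun _ => x) rfl fun s _ => by
      have : V p x = 0 := by
        rw [hVx, (hWS x hx).self_of_nhds]
        rfl
      rw [this]
      exact hasDerivAt_const s x
  · intro p hp x
    rw [hg p hp]
    have h := sol_disp (hV p) (hb p hp) (M := C * ‖p‖) (by positivity) (hVb p) x 1
    exact h
  · intro p q hp hq x hx x' hx'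
    rw [hg p hp, hg q hq]
    have hM : ∀ y, ‖V p y - V q y‖ ≤ C * ‖p - q‖ := by
      intro y
      rw [hVx, hVx, ← map_sub]
      refine le_trans ((W y).le_opNorm _) ?_
      gcongr
      exact hb0 y
    have hs := sol_diff (hV p) (hb p hp) (hV q) (hb q hq) (M := C * ‖p - q‖) (by positivity) hM x x'
    have hC8 := hpC q hq
    have hqC : Λ * (C * (C * ‖q‖)) ≤ 1 / 8 := by
      rw [← hr8]
      gcongr
    have hpC' : Λ * (C * (C * ‖p‖)) ≤ 1 / 8 := by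
      rw [← hr8]
      gcongr
    have key : ∀ t : I, ‖V p (sol (V p) (hV p) (hb p hp) x t)
        - V q (sol (V q) (hV q) (hb q hq) x' t) - W x (p - q)‖
          ≤ 1 / (2 * Λ) * ‖p - q‖ + ‖x - x'‖ := by
      intro t
      obtain ⟨y, hy⟩ : ∃ y, y = sol (V p) (hV p) (hb p hp) x t := ⟨_, rfl⟩
      obtain ⟨z, hz⟩ : ∃ z, z = sol (V q) (hV q) (hb q hq) x' t := ⟨_, rfl⟩
      have h1 : ‖y - x‖ ≤ C * ‖p‖ := by
        rw [hy]
        exact sol_disp (hV p) (hb p hp) (M := C * ‖p‖) (by positivity) (hVb p) x t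
      have h2 : ‖y - z‖ ≤ 2 * (‖x - x'‖ + C * ‖p - q‖) := by
        rw [hy, hz]
        refine le_trans ?_ hs
        exact (sol (V p) (hV p) (hb p hp) x - sol (V q) (hV q) (hb q hq) x').norm_coe_le_norm t
      rw [← hy, ← hz]
      have h5 : V p y - V q z - W x (p - q) = (W y - W x) (p - q) + (W y - W z) q := by
        rw [hVx, hVx]
        simp only [sub_apply, map_sub]
        abel
      have h8 : C * (C * ‖p‖) ≤ 1 / (8 * Λ) := by
        rw [le_div_iff₀ (by positivity)]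
        linarith
      have h9 : C * (C * ‖q‖) ≤ 1 / (8 * Λ) := by
        rw [le_div_iff₀ (by positivity)]
        linarith
      have h6 : ‖(W y - W x) (p - q)‖ ≤ 1 / (8 * Λ) * ‖p - q‖ := by
        refine le_trans (ContinuousLinearMap.le_opNorm _ _) ?_
        gcongr
        refine (hlip y x).trans (le_trans ?_ h8)
        gcongr
      have h7 : ‖(W y - W z) q‖ ≤ 2 * (1 / (8 * Λ)) * ‖p - q‖ + ‖x - x'‖ := by
        refine le_trans (ContinuousLinearMap.le_opNorm _ _) ?_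
        calc ‖W y - W z‖ * ‖q‖ ≤ (C * (2 * (‖x - x'‖ + C * ‖p - q‖))) * ‖q‖ := by
              gcongr
              exact (hlip y z).trans (by gcongr)
          _ = 2 * (C * ‖q‖) * ‖x - x'‖ + 2 * (C * (C * ‖q‖)) * ‖p - q‖ := by ring
          _ ≤ 2 * (1 / 8) * ‖x - x'‖ + 2 * (1 / (8 * Λ)) * ‖p - q‖ := by gcongr
          _ ≤ 2 * (1 / (8 * Λ)) * ‖p - q‖ + ‖x - x'‖ := by
              have := norm_nonneg (x - x')
              linarith
      have h10 : 1 / (8 * Λ) * ‖p - q‖ + (2 * (1 / (8 * Λ)) * ‖p - q‖ + ‖x - x'‖)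
          ≤ 1 / (2 * Λ) * ‖p - q‖ + ‖x - x'‖ := by
        have e1 : 1 / (2 * Λ) = 4 * (1 / (8 * Λ)) := by field_simp; norm_num
        have e2 : 0 ≤ 1 / (8 * Λ) * ‖p - q‖ := by positivity
        rw [e1]
        linarith
      rw [h5]
      exact (norm_add_le _ _).trans ((add_le_add h6 h7).trans h10)
    have hf := flow_diff (hV p) (hb p hp) (hV q) (hb q hq)
      (R := 1 / (2 * Λ) * ‖p - q‖ + ‖x - x'‖) (by positivity) (v := W x (p - q)) x x' key
    obtain ⟨u, hu⟩ : ∃ u, u = flow1 (V p) (hV p) (hb p hp) x - flow1 (V q) (hV q) (hb q hq) x' :=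
      ⟨_, rfl⟩
    rw [← hu] at hf ⊢
    have h8 : ‖W x (p - q)‖ ≤ ‖u‖ + ‖u - W x (p - q)‖ := by
      have h9 : W x (p - q) = u - (u - W x (p - q)) := by abel
      conv_lhs => rw [h9]
      exact norm_sub_le _ _
    have h9 := hlow x hx (p - q)
    have h10 : Λ * ‖W x (p - q)‖ ≤ Λ * (‖u‖ + (‖x - x'‖ + (1 / (2 * Λ) * ‖p - q‖ + ‖x - x'‖))) := by
      gcongr
      exact h8.trans (by gcongr)
    have h11 : Λ * (‖u‖ + (‖x - x'‖ + (1 / (2 * Λ) * ‖p - q‖ + ‖x - x'‖)))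
        = Λ * ‖u‖ + 2 * Λ * ‖x - x'‖ + 1 / 2 * ‖p - q‖ := by
      field_simp
      ring
    have h12 : 0 ≤ Λ * ‖u‖ := by positivity
    nlinarith

/-- Parameters for which a set is pushed off another one. -/
theorem avoid {g : EE n → Dif (EE n)} {δ L ε : ℝ} {T P A : Set (EE n)} (hδ : 0 < δ) (hL : 0 < L)
    (hest : ∀ p q, ‖p‖ < δ → ‖q‖ < δ → ∀ x ∈ T, ∀ x' ∈ T,
      ‖p - q‖ ≤ L * (‖g p x - g q x'‖ + ‖x - x'‖)) (hPT : P ⊆ T) (hε : 0 < ε)
    (h0 : MeasureTheory.Measure.hausdorffMeasure (Module.finrank ℝ (EE n) : ℝ) (P ×ˢ A) = 0) :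
    ∃ p, ‖p‖ < δ ∧ ‖p‖ < ε ∧ ∀ x ∈ P, g p x ∉ A := by
  classical
  obtain ⟨B, hB⟩ : ∃ B : Set (EE n × EE n),
      B = {z | z ∈ P ×ˢ A ∧ ∃ p, ‖p‖ < δ ∧ g p z.1 = z.2} := ⟨_, rfl⟩
  have hBm : ∀ z, z ∈ B → ∃ p, ‖p‖ < δ ∧ g p z.1 = z.2 := by
    intro z hz
    rw [hB] at hz
    exact hz.2
  have hBP : B ⊆ P ×ˢ A := by
    rw [hB]
    exact fun z hz => hz.1
  choose! f hf1 hf2 using hBm
  have hl : LipschitzOnWith (2 * L).toNNReal f B := by
    refine LipschitzOnWith.of_dist_le_mul fun z hz w hw => ?_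
    have e := hest (f z) (f w) (hf1 z hz) (hf1 w hw) z.1 (hPT (hBP hz).1) w.1 (hPT (hBP hw).1)
    rw [hf2 z hz, hf2 w hw] at e
    rw [dist_eq_norm, dist_eq_norm, Real.coe_toNNReal _ (by positivity)]
    have e1 : ‖z.1 - w.1‖ ≤ ‖z - w‖ := norm_fst_le (z - w)
    have e2 : ‖z.2 - w.2‖ ≤ ‖z - w‖ := norm_snd_le (z - w)
    calc ‖f z - f w‖ ≤ L * (‖z.2 - w.2‖ + ‖z.1 - w.1‖) := e
      _ ≤ L * (‖z - w‖ + ‖z - w‖) := by gcongr
      _ = 2 * L * ‖z - w‖ := by ring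
  have hB0 : MeasureTheory.Measure.hausdorffMeasure (Module.finrank ℝ (EE n) : ℝ) (f '' B) = 0 := by
    have e1 := hl.hausdorffMeasure_image_le (d := (Module.finrank ℝ (EE n) : ℝ))
      (Nat.cast_nonneg _)
    have e2 : MeasureTheory.Measure.hausdorffMeasure (Module.finrank ℝ (EE n) : ℝ) B = 0 :=
      MeasureTheory.measure_mono_null hBP h0
    rw [e2, mul_zero] at e1
    exact le_antisymm e1 zero_le
  have hdense : Dense (f '' B)ᶜ := by
    have h3 : ∀ᵐ x ∂(MeasureTheory.Measure.hausdorffMeasure (Module.finrank ℝ (EE n) : ℝ) :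
        MeasureTheory.Measure (EE n)), x ∈ (f '' B)ᶜ := by
      rw [MeasureTheory.ae_iff]
      have e : {x | ¬ x ∈ (f '' B)ᶜ} = f '' B := by
        ext x; simp
      rw [e]
      exact hB0
    exact MeasureTheory.Measure.dense_of_ae h3
  obtain ⟨p, hp, hpB⟩ : ∃ p ∈ ball (0 : EE n) (min δ ε), p ∈ (f '' B)ᶜ := by
    obtain ⟨p, hp1, hp2⟩ := hdense.inter_open_nonempty (ball 0 (min δ ε)) isOpen_ball
      ⟨0, mem_ball_self (lt_min hδ hε)⟩
    exact ⟨p, hp1, hp2⟩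
  rw [mem_ball_zero_iff] at hp
  have hpr : ‖p‖ < δ := hp.trans_le (min_le_left _ _)
  refine ⟨p, hpr, hp.trans_le (min_le_right _ _), fun x hx hxA => ?_⟩
  have hz : ((x, g p x) : EE n × EE n) ∈ B := by
    rw [hB]
    exact ⟨⟨hx, hxA⟩, p, hpr, rfl⟩
  apply hpB
  refine ⟨(x, g p x), hz, ?_⟩
  have e := hest p (f (x, g p x)) hpr (hf1 _ hz) x (hPT hx) x (hPT hx)
  have e2 : g (f (x, g p x)) x = g p x := hf2 _ hz
  rw [e2, sub_self, sub_self, norm_zero, add_zero, mul_zero] at e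
  have e3 := norm_le_zero_iff.1 e
  rw [sub_eq_zero] at e3
  exact e3.symm

end Pool.Agent.H60.Sk
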