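import Pool.Agent.H60.Sy.Defs

/-! The square of the Euclidean norm on `EE n`. -/

set_option autoImplicit false
set_option linter.unusedSectionVars false

open scoped ContDiff Topology
open Set Metric

namespace Pool.Agent.H60.Sk

open Pool.Agent.H60.Sy

/-- The square of the Euclidean norm. -/
noncomputable def sq {n : ℕ} (x : EE n) : ℝ := ∑ i, (co1 n i x * co1 n i x + co2 n i x * co2 n i x)

theorem contDiff_sq {n : ℕ} : ContDiff ℝ ∞ (sq (n := n)) := by
  unfold sq
  refine ContDiff.sum fun i _ => ?_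
  exact ((co1 n i).contDiff.mul (co1 n i).contDiff).add ((co2 n i).contDiff.mul (co2 n i).contDiff)

theorem fderiv_sq {n : ℕ} (x : EE n) : fderiv ℝ (sq (n := n)) x x = 2 * sq x := by
  have h : HasFDerivAt (sq (n := n)) (∑ i, ((co1 n i x • co1 n i + co1 n i x • co1 n i) +
      (co2 n i x • co2 n i + co2 n i x • co2 n i))) x := by
    unfold sq
    refine HasFDerivAt.fun_sum fun i _ => ?_
    exact ((co1 n i).hasFDerivAt.mul (co1 n i).hasFDerivAt).add
      ((co2 n i).hasFDerivAt.mul (co2 n i).hasFDerivAt)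
  rw [h.fderiv, sum_apply]
  unfold sq
  rw [Finset.mul_sum]
  refine Finset.sum_congr rfl fun i _ => ?_
  simp only [add_apply, smul_apply, smul_eq_mul]
  ring

theorem sq_coord {n : ℕ} (x : EE n) (i : Fin n) : x.1 i * x.1 i ≤ sq x ∧ x.2 i * x.2 i ≤ sq x := by
  have h := Finset.single_le_sum (f := fun i => co1 n i x * co1 n i x + co2 n i x * co2 n i x)
    (fun i _ => add_nonneg (mul_self_nonneg _) (mul_self_nonneg _)) (Finset.mem_univ i)
  have h' : x.1 i * x.1 i + x.2 i * x.2 i ≤ sq x := h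
  constructor
  · nlinarith [mul_self_nonneg (x.2 i)]
  · nlinarith [mul_self_nonneg (x.1 i)]

theorem norm_le_sq {n : ℕ} {x : EE n} {m : ℝ} (hx : sq x ≤ m) : ‖x‖ ≤ m + 1 := by
  have h0 : 0 ≤ sq x := Finset.sum_nonneg fun i _ =>
    add_nonneg (mul_self_nonneg _) (mul_self_nonneg _)
  have hm : 0 ≤ m + 1 := by linarith
  have key : ∀ a : ℝ, a * a ≤ sq x → |a| ≤ m + 1 := by
    intro a ha
    rw [abs_le]
    constructor
    · nlinarith
    · nlinarith
  rw [Prod.norm_def, max_le_iff, pi_norm_le_iff_of_nonneg hm, pi_norm_le_iff_of_nonneg hm]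
  exact ⟨fun i => key _ (sq_coord x i).1, fun i => key _ (sq_coord x i).2⟩

theorem isCompact_sq {n : ℕ} (m : ℝ) : IsCompact {x : EE n | sq x ≤ m} := by
  refine (isCompact_closedBall (0 : EE n) (m + 1)).of_isClosed_subset
    (isClosed_le contDiff_sq.continuous continuous_const) fun x hx => ?_
  rw [mem_closedBall_zero_iff]
  exact norm_le_sq hx

end Pool.Agent.H60.Sk
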