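import Pool.Agent.H60.Sk.Emb
import Pool.Agent.H60.Sk.Quad

/-! The Liouville form pulled back by a symplectomorphism onto the standard space: its skeleton is a
point. -/

set_option autoImplicit false
set_option linter.unusedSectionVars false

open scoped ContDiff Topology
open Set Metric

namespace Pool.Agent.H60.Sk

open Pool.Agent.H60.Sy

/-- The pull-back of the standard Liouville form. -/
noncomputable def lamP {n : ℕ} (Φ : EE n → EE n) (x : EE n) : EE n →L[ℝ] ℝ :=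
  (lam0 n (Φ x)).comp (fderiv ℝ Φ x)

theorem lamP_apply {n : ℕ} (Φ : EE n → EE n) (x v : EE n) :
    lamP Φ x v = (1 / 2) * om0 n (Φ x) (fderiv ℝ Φ x v) := rfl

theorem contDiff_lamP {n : ℕ} (Φ : Dif (EE n)) : ContDiff ℝ ∞ (lamP Φ) := by
  have h1 : ContDiff ℝ ∞ (fderiv ℝ Φ) := Φ.sm.fderiv_right (by simp)
  exact ((contDiff_lam0 n).comp Φ.sm).clm_comp h1

theorem dd_lamP {n : ℕ} (Φ : Dif (EE n)) (x v w : EE n) :
    dd (lamP Φ) x v w = om0 n (fderiv ℝ Φ x v) (fderiv ℝ Φ x w) := by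
  have h1 : ContDiff ℝ ∞ (fderiv ℝ Φ) := Φ.sm.fderiv_right (by simp)
  have hd1 : HasFDerivAt (fderiv ℝ Φ) (fderiv ℝ (fderiv ℝ Φ) x) x :=
    (h1.differentiable (by simp) x).hasFDerivAt
  have hs : ∀ a b, fderiv ℝ (fderiv ℝ Φ) x a b = fderiv ℝ (fderiv ℝ Φ) x b a := fun a b =>
    second_derivative_symmetric (f := Φ) (f' := fderiv ℝ Φ)
      (f'' := fderiv ℝ (fderiv ℝ Φ) x) (x := x)
      (fun y => (Φ.differentiable y).hasFDerivAt) hd1 a b
  have hl : HasFDerivAt (fun y => lam0 n (Φ y)) (((1 / 2 : ℝ) • om0 n).comp (fderiv ℝ Φ x)) x := by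
    have h2 : HasFDerivAt (lam0 n) ((1 / 2 : ℝ) • (om0 n)) (Φ x) :=
      hasFDerivAt_const_smul' (om0 n).hasFDerivAt (1 / 2)
    exact h2.comp x (Φ.hasFDerivAt x)
  have key : ∀ a b, fderiv ℝ (lamP Φ) x a b
      = (1 / 2) * om0 n (fderiv ℝ Φ x a) (fderiv ℝ Φ x b)
        + (1 / 2) * om0 n (Φ x) (fderiv ℝ (fderiv ℝ Φ) x a b) := by
    intro a b
    have h3 := hl.clm_comp hd1
    have h4 : fderiv ℝ (lamP Φ) x = _ := h3.fderiv
    rw [h4]
    simp only [add_apply, ContinuousLinearMap.comp_apply, ContinuousLinearMap.compL_apply,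
      ContinuousLinearMap.flip_apply, smul_apply, smul_eq_mul, lam0]
    ring
  rw [dd_apply, key, key, hs v w, om0_alt (fderiv ℝ Φ x w) (fderiv ℝ Φ x v)]
  ring

theorem surj_dif {n : ℕ} (Φ : Dif (EE n)) (x w : EE n) : ∃ v, fderiv ℝ Φ x v = w := by
  refine ⟨fderiv ℝ Φ.symm (Φ x) w, ?_⟩
  have h1 : HasFDerivAt (fun y => Φ (Φ.symm y)) ((fderiv ℝ Φ (Φ.symm (Φ x))).comp
      (fderiv ℝ Φ.symm (Φ x))) (Φ x) :=
    (Φ.hasFDerivAt _).comp (Φ x) (Φ.symm.hasFDerivAt _)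
  have h2 : (fun y => Φ (Φ.symm y)) = fun y => y := by
    funext y; exact Φ.apply_symm_apply y
  rw [h2, Φ.symm_apply_apply] at h1
  have h3 := h1.unique (hasFDerivAt_id (Φ x))
  have h4 := congrArg (fun A : EE n →L[ℝ] EE n => A w) h3
  exact h4

/-- The Liouville vector in the target. -/
theorem lamP_field {n : ℕ} (Φ : Dif (EE n)) {x u : EE n}
    (h : ∀ v, om0 n (fderiv ℝ Φ x u) (fderiv ℝ Φ x v) = lamP Φ x v) :
    fderiv ℝ Φ x u = (1 / 2 : ℝ) • Φ x := by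
  rw [← sub_eq_zero]
  refine om0_nondeg n _ fun w => ?_
  obtain ⟨v, rfl⟩ := surj_dif Φ x w
  rw [map_sub, sub_apply, h v, lamP_apply, map_smul, smul_apply, smul_eq_mul, sub_self]

theorem lamP_out {n : ℕ} (Φ : Dif (EE n)) {x u : EE n}
    (h : ∀ v, om0 n (fderiv ℝ Φ x u) (fderiv ℝ Φ x v) = lamP Φ x v) :
    fderiv ℝ (fun y => sq (Φ y)) x u = sq (Φ x) := by
  have h1 : HasFDerivAt (sq (n := n)) (fderiv ℝ sq (Φ x)) (Φ x) :=
    (contDiff_sq.differentiable (by simp) _).hasFDerivAt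
  have h2 : HasFDerivAt (fun y => sq (Φ y)) ((fderiv ℝ sq (Φ x)).comp (fderiv ℝ Φ x)) x :=
    h1.comp x (Φ.hasFDerivAt x)
  rw [h2.fderiv, ContinuousLinearMap.comp_apply, lamP_field Φ h, map_smul, fderiv_sq,
    smul_eq_mul]
  ring

/-- Bounded Liouville lines of the pulled back form are constant. -/
theorem lamP_line {n : ℕ} (Φ : Dif (EE n)) {γ : ℝ → EE n}
    (hγ : ∀ t, ∃ u, HasDerivAt γ u t ∧
      ∀ v, om0 n (fderiv ℝ Φ (γ t) u) (fderiv ℝ Φ (γ t) v) = lamP Φ (γ t) v)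
    (hb : Bornology.IsBounded (range γ)) : Φ (γ 0) = 0 := by
  have h1 : ∀ t, HasDerivAt (fun t => Φ (γ t)) ((1 / 2 : ℝ) • Φ (γ t)) t := by
    intro t
    obtain ⟨u, hu, hv⟩ := hγ t
    have h := (Φ.hasFDerivAt (γ t)).comp_hasDerivAt t hu
    rw [lamP_field Φ hv] at h
    exact h
  have h2 : ∀ t, HasDerivAt (fun t => Real.exp (-(1 / 2) * t) • Φ (γ t)) 0 t := by
    intro t
    have hlin : HasDerivAt (fun s : ℝ => -(1 / 2) * s) (-(1 / 2)) t := by
      have h := (hasDerivAt_id t).const_mul (-(1 / 2) : ℝ)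
      rw [mul_one] at h
      exact h
    have h3 := hlin.exp.smul (h1 t)
    refine h3.congr_deriv ?_
    rw [smul_smul, ← add_smul]
    have : Real.exp (-(1 / 2) * t) * (1 / 2) + Real.exp (-(1 / 2) * t) * -(1 / 2) = 0 := by ring
    rw [this, zero_smul]
  have h3 : ∀ t, Real.exp (-(1 / 2) * t) • Φ (γ t) = Φ (γ 0) := by
    intro t
    have h := is_const_of_deriv_eq_zero (f := fun t => Real.exp (-(1 / 2) * t) • Φ (γ t))
      (fun t => (h2 t).differentiableAt) (fun t => (h2 t).deriv) t 0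
    simpa using h
  have hc : IsCompact (Φ '' closure (range γ)) := hb.isCompact_closure.image Φ.continuous
  obtain ⟨C, hC⟩ := hc.isBounded.subset_closedBall 0
  have h4 : ∀ t, ‖Φ (γ t)‖ ≤ C := fun t =>
    mem_closedBall_zero_iff.1 (hC ⟨γ t, subset_closure ⟨t, rfl⟩, rfl⟩)
  have h5 : ∀ t : ℝ, ‖Φ (γ 0)‖ ≤ Real.exp (-(1 / 2) * t) * C := by
    intro t
    rw [← h3 t, norm_smul, Real.norm_eq_abs, abs_of_pos (Real.exp_pos _)]
    gcongr
    exact h4 t
  have h6 : Filter.Tendsto (fun t : ℝ => Real.exp (-(1 / 2) * t) * C) Filter.atTop (𝓝 (0 * C)) := by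
    refine Filter.Tendsto.mul_const _ (Real.tendsto_exp_atBot.comp ?_)
    exact Filter.Tendsto.const_mul_atTop_of_neg (by norm_num) Filter.tendsto_id
  rw [zero_mul] at h6
  have h7 := ge_of_tendsto' h6 h5
  exact norm_le_zero_iff.1 h7

end Pool.Agent.H60.Sk
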